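import Pool.Agent.Helper3.TCM.Ball

/-!
Random activation.
-/

set_option autoImplicit false

namespace Pool.TCM

open Pool.TC Finset
open scoped Classical

/-- counting the functions with prescribed values on `P` -/
theorem Act_count {T A : Type} [Fintype T] [Fintype A] (P : Finset T) (a : A) :
    (univ.filter (fun ω : T → A => ∀ t ∈ P, ω t = a)).card * Fintype.card A ^ P.card =
      Fintype.card (T → A) := by
  have h1 : (univ.filter (fun ω : T → A => ∀ t ∈ P, ω t = a)) =
      Fintype.piFinset (fun t => if t ∈ P then ({a} : Finset A) else univ) := by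
    ext ω
    simp only [mem_filter, mem_univ, true_and, Fintype.mem_piFinset]
    constructor
    · intro h t
      by_cases ht : t ∈ P
      · simp [ht, h t ht]
      · simp [ht]
    · intro h t ht
      have := h t
      simpa [ht] using this
  rw [h1, Fintype.card_piFinset, Fintype.card_fun]
  have h2 : ∀ t : T, (if t ∈ P then ({a} : Finset A) else univ).card =
      if t ∈ P then 1 else Fintype.card A := by
    intro t
    by_cases ht : t ∈ P
    · simp [ht]
    · simp [ht]
  rw [prod_congr rfl (fun t _ => h2 t), prod_ite]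
  simp only [prod_const_one, one_mul, prod_const]
  rw [← pow_add]
  congr 1
  have h3 : (univ.filter (fun t => t ∉ P)).card + (univ.filter (fun t => t ∈ P)).card =
      Fintype.card T := by
    rw [add_comm, card_filter_add_card_filter_not, card_univ]
  have h4 : univ.filter (fun t => t ∈ P) = P := by ext; simp
  rw [h4] at h3
  exact h3

section

variable {V : Type} [Fintype V] {t0 : ℕ}

/-- the set of active vertices -/
def ActF (cf : V → V → Prop) (h0 : 0 < t0) (ω : V → Fin (2 * t0)) (w : V) : Prop :=
  ω w = ⟨0, by omega⟩ ∧ ∀ u, cf w u → ω u ≠ ⟨0, by omega⟩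

theorem Act_prob (cf : V → V → Prop) (h0 : 0 < t0) (hirr : ∀ w, ¬ cf w w)
    (hcf : ∀ w, (univ.filter (fun u => cf w u)).card ≤ t0) (w : V) :
    (Fintype.card (V → Fin (2 * t0)) : ℝ) * (1 / (4 * t0)) ≤
      ((univ.filter (fun ω : V → Fin (2 * t0) => ActF cf h0 ω w)).card : ℝ) := by
  set a : Fin (2 * t0) := ⟨0, by omega⟩ with ha
  have ht : (0 : ℝ) < t0 := by exact_mod_cast h0
  have hcA : (Fintype.card (Fin (2 * t0)) : ℝ) = 2 * t0 := by
    rw [Fintype.card_fin]
    push_cast
    ring
  -- one label
  have h1 : ((univ.filter (fun ω : V → Fin (2 * t0) => ω w = a)).card : ℝ) * (2 * t0) =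
      Fintype.card (V → Fin (2 * t0)) := by
    have := Act_count (T := V) (A := Fin (2 * t0)) {w} a
    rw [card_singleton, pow_one] at this
    have h2 : (univ.filter (fun ω : V → Fin (2 * t0) => ω w = a)).card *
        Fintype.card (Fin (2 * t0)) = Fintype.card (V → Fin (2 * t0)) := by
      rw [← this]
      refine congrArg (fun n => n * Fintype.card (Fin (2 * t0))) (congrArg card ?_)
      ext ω
      simp
    rw [← h2, Nat.cast_mul, hcA]
  -- two labels
  have h2 : ∀ u, u ≠ w →
      ((univ.filter (fun ω : V → Fin (2 * t0) => ω w = a ∧ ω u = a)).card : ℝ) * (2 * t0) ^ 2 =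
        Fintype.card (V → Fin (2 * t0)) := by
    intro u hu
    have := Act_count (T := V) (A := Fin (2 * t0)) {w, u} a
    rw [card_pair (Ne.symm hu)] at this
    have h2 : (univ.filter (fun ω : V → Fin (2 * t0) => ω w = a ∧ ω u = a)).card *
        Fintype.card (Fin (2 * t0)) ^ 2 = Fintype.card (V → Fin (2 * t0)) := by
      rw [← this]
      refine congrArg (fun n => n * Fintype.card (Fin (2 * t0)) ^ 2) (congrArg card ?_)
      ext ω
      simp
    rw [← h2, Nat.cast_mul, Nat.cast_pow, hcA]
  -- the bad event
  have h3 : ((univ.filter (fun ω : V → Fin (2 * t0) => ω w = a)).card : ℝ) ≤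
      ((univ.filter (fun ω : V → Fin (2 * t0) => ActF cf h0 ω w)).card : ℝ) +
      ∑ u ∈ univ.filter (fun u => cf w u),
        ((univ.filter (fun ω : V → Fin (2 * t0) => ω w = a ∧ ω u = a)).card : ℝ) := by
    have hsub : univ.filter (fun ω : V → Fin (2 * t0) => ω w = a) ⊆
        univ.filter (fun ω : V → Fin (2 * t0) => ActF cf h0 ω w) ∪
        (univ.filter (fun u => cf w u)).biUnion (fun u =>
          univ.filter (fun ω : V → Fin (2 * t0) => ω w = a ∧ ω u = a)) := by
      intro ω hω
      simp only [mem_filter, mem_univ, true_and] at hω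
      rw [mem_union]
      by_cases hF : ∀ u, cf w u → ω u ≠ a
      · left
        simp only [mem_filter, mem_univ, true_and]
        exact ⟨hω, hF⟩
      · right
        push Not at hF
        obtain ⟨u, hu1, hu2⟩ := hF
        rw [mem_biUnion]
        exact ⟨u, by simpa using hu1, by simpa using ⟨hω, hu2⟩⟩
    have h5 := (card_le_card hsub).trans ((card_union_le _ _).trans
      (Nat.add_le_add_left card_biUnion_le _))
    exact_mod_cast h5
  set c1 : ℝ := ((univ.filter (fun ω : V → Fin (2 * t0) => ω w = a)).card : ℝ)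
  set cF : ℝ := ((univ.filter (fun ω : V → Fin (2 * t0) => ActF cf h0 ω w)).card : ℝ)
  set M : ℝ := (Fintype.card (V → Fin (2 * t0)) : ℝ)
  have hM : 0 ≤ M := Nat.cast_nonneg _
  have h4 : ∑ u ∈ univ.filter (fun u => cf w u),
        ((univ.filter (fun ω : V → Fin (2 * t0) => ω w = a ∧ ω u = a)).card : ℝ) ≤
      t0 * (M / (2 * t0) ^ 2) := by
    calc _ = ∑ u ∈ univ.filter (fun u => cf w u), M / (2 * t0) ^ 2 := by
          refine sum_congr rfl (fun u hu => ?_)
          have hne : u ≠ w := by
            rintro rfl
            exact hirr u (by simpa using hu)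
          rw [eq_div_iff (by positivity)]
          exact h2 u hne
      _ = ((univ.filter (fun u => cf w u)).card : ℝ) * (M / (2 * t0) ^ 2) := by
          rw [sum_const, nsmul_eq_mul]
      _ ≤ t0 * (M / (2 * t0) ^ 2) :=
          mul_le_mul_of_nonneg_right (by exact_mod_cast hcf w) (by positivity)
  have h6 : c1 = M / (2 * t0) := by
    rw [eq_div_iff (by positivity)]
    exact h1
  have h7 : M * (1 / (4 * t0)) = M / (2 * t0) - t0 * (M / (2 * t0) ^ 2) := by
    field_simp
    ring
  rw [h7, ← h6]
  linarith

end

theorem thm_Act (hLM : St_LM) : St_Act := by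
  intro V _ G D t0 cf Q y Lam hD hsymm hadj h0 hcf hQ hy hQy hLam hexp
  have hirr : ∀ w, ¬ cf w w := fun w h => G.loopless.irrefl w (hadj w w h)
  have : Nonempty (Fin (2 * t0)) := ⟨⟨0, by omega⟩⟩
  have ht : (0 : ℝ) < t0 := by exact_mod_cast h0
  set P : V → V → Prop := fun w t => w = t ∨ cf w t with hP
  set c : V → V → ℝ := fun v t => (((Q v).filter (fun w => P w t)).card : ℝ) with hc
  have hc1 : ∀ v t, c v t ≤ 1 + t0 := by
    intro v t
    have h1 : (Q v).filter (fun w => P w t) ⊆ insert t (univ.filter (fun u => cf t u)) := by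
      intro w hw
      rw [mem_filter] at hw
      rw [mem_insert, mem_filter]
      rcases hw.2 with h | h
      · exact Or.inl h
      · exact Or.inr ⟨mem_univ _, hsymm _ _ h⟩
    have h2 := (card_le_card h1).trans ((card_insert_le _ _).trans
      (Nat.add_le_add_right (hcf t) 1))
    have h3 : (((Q v).filter (fun w => P w t)).card : ℝ) ≤ ((t0 + 1 : ℕ) : ℝ) := by
      exact_mod_cast h2
    push_cast at h3
    simp only [hc]
    linarith
  have hc0 : ∀ v t, 0 ≤ c v t := fun v t => Nat.cast_nonneg _
  have hcs : ∀ v, ∑ t, c v t ≤ (1 + t0) * y := by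
    intro v
    have h1 : ∑ t, ((Q v).filter (fun w => P w t)).card =
        ∑ w ∈ Q v, (univ.filter (fun t => P w t)).card := by
      simp only [card_filter]
      rw [sum_comm]
    have h2 : ∀ w, (univ.filter (fun t => P w t)).card ≤ t0 + 1 := by
      intro w
      have h3 : univ.filter (fun t => P w t) ⊆ insert w (univ.filter (fun u => cf w u)) := by
        intro t htt
        rw [mem_filter] at htt
        rw [mem_insert, mem_filter]
        rcases htt.2 with h | h
        · exact Or.inl h.symm
        · exact Or.inr ⟨mem_univ _, h⟩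
      exact (card_le_card h3).trans ((card_insert_le _ _).trans
        (Nat.add_le_add_right (hcf w) 1))
    have h4 : ∑ t, ((Q v).filter (fun w => P w t)).card ≤ (Q v).card * (t0 + 1) := by
      rw [h1]
      calc ∑ w ∈ Q v, (univ.filter (fun t => P w t)).card ≤ ∑ w ∈ Q v, (t0 + 1) :=
            sum_le_sum (fun w _ => h2 w)
        _ = (Q v).card * (t0 + 1) := by rw [sum_const, smul_eq_mul]
    have h5 : ∑ t, c v t ≤ ((Q v).card : ℝ) * (t0 + 1) := by
      simp only [hc]
      exact_mod_cast h4
    calc ∑ t, c v t ≤ ((Q v).card : ℝ) * (t0 + 1) := h5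
      _ ≤ y * (t0 + 1) := mul_le_mul_of_nonneg_right (hQy v) (by positivity)
      _ = (1 + t0) * y := by ring
  have hexp' : 4 * Real.exp (-Lam) * ((((D + 1) ^ 4 : ℕ) : ℝ) + 1) ≤ 1 := by
    push_cast
    exact hexp
  obtain ⟨ω, hω⟩ : ∃ ω : V → Fin (2 * t0), ∀ v,
      (fun v (ω : V → Fin (2 * t0)) => -(((Q v).filter (fun w => ActF cf h0 ω w)).card : ℝ)) v ω ≤
      (∑ ω' : V → Fin (2 * t0),
        (fun v (ω : V → Fin (2 * t0)) => -(((Q v).filter (fun w => ActF cf h0 ω w)).card : ℝ)) v ω')
        / Fintype.card (V → Fin (2 * t0)) + (1 + t0) * Real.sqrt (2 * y * Lam) := by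
    refine hLM V (Fin (2 * t0)) V
      (fun v ω => -(((Q v).filter (fun w => ActF cf h0 ω w)).card : ℝ)) c
      (fun _ => (1 + t0) ^ 2 * y) (fun _ => (1 + t0) * Real.sqrt (2 * y * Lam))
      (fun v => univ.filter (fun t => ∃ w ∈ Q v, P w t)) Lam ((D + 1) ^ 4)
      hc0 ?_ ?_ ?_ ?_ ?_ ?_ ?_ hexp'
    · -- differences
      intro v t ω ω' hag
      have key : ∀ (ω ω' : V → Fin (2 * t0)), (∀ t', t' ≠ t → ω t' = ω' t') →
          ((Q v).filter (fun w => ActF cf h0 ω w)).card ≤
            ((Q v).filter (fun w => ActF cf h0 ω' w)).card +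
              ((Q v).filter (fun w => P w t)).card := by
        intro ω ω' hag
        have hsub : (Q v).filter (fun w => ActF cf h0 ω w) ⊆
            (Q v).filter (fun w => ActF cf h0 ω' w) ∪ (Q v).filter (fun w => P w t) := by
          intro w hw
          rw [mem_filter] at hw
          rw [mem_union, mem_filter, mem_filter]
          by_cases hPt : P w t
          · exact Or.inr ⟨hw.1, hPt⟩
          · left
            refine ⟨hw.1, ?_, ?_⟩
            · rw [← hag w (fun h => hPt (Or.inl h))]
              exact hw.2.1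
            · intro u hu
              rw [← hag u (fun h => hPt (Or.inr (h ▸ hu)))]
              exact hw.2.2 u hu
        exact (card_le_card hsub).trans (card_union_le _ _)
      have k1 := key ω ω' hag
      have k2 := key ω' ω (fun t' h => (hag t' h).symm)
      have k1' : (((Q v).filter (fun w => ActF cf h0 ω w)).card : ℝ) ≤
            ((Q v).filter (fun w => ActF cf h0 ω' w)).card + c v t := by
        simp only [hc]
        exact_mod_cast k1
      have k2' : (((Q v).filter (fun w => ActF cf h0 ω' w)).card : ℝ) ≤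
            ((Q v).filter (fun w => ActF cf h0 ω w)).card + c v t := by
        simp only [hc]
        exact_mod_cast k2
      rw [abs_le]
      constructor
      · linarith
      · linarith
    · -- support
      intro v t htn
      simp only [mem_filter, mem_univ, true_and, not_exists, not_and] at htn
      simp only [hc]
      rw [Nat.cast_eq_zero, card_eq_zero, filter_eq_empty_iff]
      intro w hw
      exact htn w hw
    · -- sum of squares
      intro v
      calc ∑ t, c v t ^ 2 ≤ ∑ t, (1 + t0) * c v t := by
            refine sum_le_sum (fun t _ => ?_)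
            rw [sq]
            exact mul_le_mul_of_nonneg_right (hc1 v t) (hc0 v t)
        _ = (1 + t0) * ∑ t, c v t := by rw [mul_sum]
        _ ≤ (1 + t0) * ((1 + t0) * y) := mul_le_mul_of_nonneg_left (hcs v) (by positivity)
        _ = (1 + t0) ^ 2 * y := by ring
    · intro v
      positivity
    · intro v
      positivity
    · intro v
      have h1 : Real.sqrt (2 * y * Lam) ^ 2 = 2 * y * Lam := Real.sq_sqrt (by positivity)
      rw [mul_pow, h1]
      apply le_of_eq
      ring
    · -- dependencies
      intro v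
      have hb : ∀ v t, (∃ w ∈ Q v, P w t) → t ∈ ball G 2 v := by
        rintro v t ⟨w, hw, h⟩
        have h1 : w ∈ ball G 1 v := adj_mem_ball (hQ v w hw)
        have h2 : t ∈ ball G 1 w := by
          rcases h with h | h
          · rw [← h]
            exact mem_ball_self 1 w
          · exact adj_mem_ball (hadj w t h)
        exact ball_trans h1 h2
      refine (card_le_card (?_ : _ ⊆ ball G 4 v)).trans (card_ball hD 4 v)
      intro j' hj'
      simp only [mem_filter, mem_univ, true_and] at hj'
      obtain ⟨t, h1, h2⟩ := hj'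
      exact ball_trans (hb v t h1) (ball_symm (hb j' t h2))
  refine ⟨fun w => ActF cf h0 ω w, ?_, ?_⟩
  · intro u w hu hw huw
    exact hu.2 w huw hw.1
  · intro v
    have h1 := hω v
    simp only [sum_neg_distrib] at h1
    have h2 : (Fintype.card (V → Fin (2 * t0)) : ℝ) * (((Q v).card : ℝ) / (4 * t0)) ≤
        ∑ ω' : V → Fin (2 * t0), (((Q v).filter (fun w => ActF cf h0 ω' w)).card : ℝ) := by
      have h3 : ∑ ω' : V → Fin (2 * t0), (((Q v).filter (fun w => ActF cf h0 ω' w)).card : ℝ) =
          ∑ w ∈ Q v,
            ((univ.filter (fun ω' : V → Fin (2 * t0) => ActF cf h0 ω' w)).card : ℝ) := by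
        have h4 : ∑ ω' : V → Fin (2 * t0), ((Q v).filter (fun w => ActF cf h0 ω' w)).card =
            ∑ w ∈ Q v,
              (univ.filter (fun ω' : V → Fin (2 * t0) => ActF cf h0 ω' w)).card := by
          simp only [card_filter]
          rw [sum_comm]
        exact_mod_cast h4
      rw [h3]
      calc (Fintype.card (V → Fin (2 * t0)) : ℝ) * (((Q v).card : ℝ) / (4 * t0)) =
          ∑ _w ∈ Q v, (Fintype.card (V → Fin (2 * t0)) : ℝ) * (1 / (4 * t0)) := by
            rw [sum_const, nsmul_eq_mul]
            ring
        _ ≤ _ := sum_le_sum (fun w _ => Act_prob cf h0 hirr hcf w)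
    have hMpos : (0 : ℝ) < Fintype.card (V → Fin (2 * t0)) := by
      exact_mod_cast Fintype.card_pos
    have h3 : ((Q v).card : ℝ) / (4 * t0) ≤
        (∑ ω' : V → Fin (2 * t0), (((Q v).filter (fun w => ActF cf h0 ω' w)).card : ℝ)) /
          Fintype.card (V → Fin (2 * t0)) := by
      rw [le_div_iff₀ hMpos]
      linarith
    rw [neg_div] at h1
    linarith

end Pool.TCM
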