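import Pool.Agent.Helper3.TCM.Defs

/-!
A balanced bipartition.
-/

set_option autoImplicit false

namespace Pool.TCM

open Pool.TC Finset
open scoped Classical

/-- half of all functions take the value `b` at `t` -/
theorem Bip_half {T : Type} [Fintype T] (t : T) (b : Bool) :
    ((univ.filter (fun ω : T → Bool => ω t = b)).card : ℝ) =
      Fintype.card (T → Bool) / 2 := by
  have h1 : (univ.filter (fun ω : T → Bool => ω t = b)).card =
      (univ.filter (fun ω : T → Bool => ¬ ω t = b)).card := by
    refine card_bij' (fun ω _ => Function.update ω t (!(ω t)))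
      (fun ω _ => Function.update ω t (!(ω t))) ?_ ?_ ?_ ?_
    · intro ω hω
      simp only [mem_filter, mem_univ, true_and] at hω ⊢
      rw [Function.update_self, hω]
      cases b <;> simp
    · intro ω hω
      simp only [mem_filter, mem_univ, true_and] at hω ⊢
      rw [Function.update_self]
      revert hω
      cases b <;> cases ω t <;> simp
    · intro ω _
      simp
    · intro ω _
      simp
  have h2 : (univ.filter (fun ω : T → Bool => ω t = b)).card +
      (univ.filter (fun ω : T → Bool => ¬ ω t = b)).card = Fintype.card (T → Bool) := by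
    rw [card_filter_add_card_filter_not, card_univ]
  have h3 : ((univ.filter (fun ω : T → Bool => ω t = b)).card : ℝ) +
      ((univ.filter (fun ω : T → Bool => ω t = b)).card : ℝ) = Fintype.card (T → Bool) := by
    rw [← h1] at h2
    exact_mod_cast h2
  linarith

theorem Bip_gen (hLM : St_LM) (V I T : Type) [Fintype V] [Fintype I] [Fintype T] (z : V → V)
    (p : V → T) (Q : I → Finset V) (S N M : ℕ) (Lam : ℝ)
    (hpair : ∀ w w' : V, p w = p w' → w' = w ∨ w' = z w) (hS : 0 < S)
    (hQS : ∀ i, (Q i).card ≤ S) (hQM : ∀ i, (Q i).card ≤ M)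
    (hN : ∀ w, (univ.filter (fun i => w ∈ Q i)).card ≤ N) (hLam : 0 ≤ Lam)
    (hexp : 4 * Real.exp (-Lam) * (4 * (N : ℝ) * M + 1) ≤ 1) :
    ∃ ω : T → Bool, ∀ i b, (((Q i).filter (fun w => ω (p w) = b)).card : ℝ) ≤
      ((Q i).card : ℝ) / 2 + 2 * Real.sqrt (S * Lam) := by
  set c : I × Bool → T → ℝ :=
    fun j t => (((Q j.1).filter (fun w => p w = t)).card : ℝ) with hc
  have hc0 : ∀ j t, 0 ≤ c j t := fun j t => Nat.cast_nonneg _
  have hc2 : ∀ j t, c j t ≤ 2 := by
    intro j t
    have h1 : ((Q j.1).filter (fun w => p w = t)).card ≤ 2 := by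
      rcases ((Q j.1).filter (fun w => p w = t)).eq_empty_or_nonempty with
        h | ⟨w, hw⟩
      · rw [h]
        simp
      · rw [mem_filter] at hw
        have h2 : (Q j.1).filter (fun w => p w = t) ⊆ {w, z w} := by
          intro w' hw'
          rw [mem_filter] at hw'
          have := hpair w w' (hw.2.trans hw'.2.symm)
          simpa using this
        exact (card_le_card h2).trans card_le_two
    simp only [hc]
    exact_mod_cast h1
  have hcs : ∀ j, ∑ t, c j t ≤ S := by
    intro j
    have h1 : ∑ t, ((Q j.1).filter (fun w => p w = t)).card = (Q j.1).card := by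
      rw [← card_eq_sum_card_fiberwise (f := p) (t := univ)
        (fun x _ => mem_univ _)]
    have h2 : ∑ t, ((Q j.1).filter (fun w => p w = t)).card ≤ S := by
      rw [h1]
      exact hQS j.1
    simp only [hc]
    exact_mod_cast h2
  have hexp' : 4 * Real.exp (-Lam) * (((4 * N * M : ℕ) : ℝ) + 1) ≤ 1 := by
    push_cast
    exact hexp
  have hSpos : (0 : ℝ) < S := by exact_mod_cast hS
  obtain ⟨ω, hω⟩ : ∃ ω : T → Bool, ∀ j : I × Bool,
      (fun (j : I × Bool) (ω : T → Bool) =>
        (((Q j.1).filter (fun w => ω (p w) = j.2)).card : ℝ)) j ω ≤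
      (∑ ω' : T → Bool, (fun (j : I × Bool) (ω : T → Bool) =>
        (((Q j.1).filter (fun w => ω (p w) = j.2)).card : ℝ)) j ω')
        / Fintype.card (T → Bool) + 2 * Real.sqrt (S * Lam) := by
    refine hLM T Bool (I × Bool)
      (fun j ω => (((Q j.1).filter (fun w => ω (p w) = j.2)).card : ℝ)) c
      (fun _ => 2 * S) (fun _ => 2 * Real.sqrt (S * Lam))
      (fun j => univ.filter (fun t => ∃ w ∈ Q j.1, p w = t)) Lam (4 * N * M)
      hc0 ?_ ?_ ?_ ?_ ?_ ?_ ?_ hexp'
    · intro j t ω ω' hag
      have key : ∀ (ω ω' : T → Bool), (∀ t', t' ≠ t → ω t' = ω' t') →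
          ((Q j.1).filter (fun w => ω (p w) = j.2)).card ≤
            ((Q j.1).filter (fun w => ω' (p w) = j.2)).card +
              ((Q j.1).filter (fun w => p w = t)).card := by
        intro ω ω' hag
        have hsub : (Q j.1).filter (fun w => ω (p w) = j.2) ⊆
            (Q j.1).filter (fun w => ω' (p w) = j.2) ∪
              (Q j.1).filter (fun w => p w = t) := by
          intro w hw
          rw [mem_filter] at hw
          rw [mem_union, mem_filter, mem_filter]
          by_cases hPt : p w = t
          · exact Or.inr ⟨hw.1, hPt⟩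
          · left
            exact ⟨hw.1, by rw [← hag _ hPt]; exact hw.2⟩
        exact (card_le_card hsub).trans (card_union_le _ _)
      have k1 := key ω ω' hag
      have k2 := key ω' ω (fun t' h => (hag t' h).symm)
      have k1' : (((Q j.1).filter (fun w => ω (p w) = j.2)).card : ℝ) ≤
          ((Q j.1).filter (fun w => ω' (p w) = j.2)).card + c j t := by
        simp only [hc]
        exact_mod_cast k1
      have k2' : (((Q j.1).filter (fun w => ω' (p w) = j.2)).card : ℝ) ≤
          ((Q j.1).filter (fun w => ω (p w) = j.2)).card + c j t := by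
        simp only [hc]
        exact_mod_cast k2
      rw [abs_le]
      constructor
      · linarith
      · linarith
    · intro j t htn
      simp only [mem_filter, mem_univ, true_and, not_exists, not_and] at htn
      simp only [hc]
      rw [Nat.cast_eq_zero, card_eq_zero, filter_eq_empty_iff]
      intro w hw
      exact htn w hw
    · intro j
      calc ∑ t, c j t ^ 2 ≤ ∑ t, 2 * c j t := by
            refine sum_le_sum (fun t _ => ?_)
            rw [sq]
            exact mul_le_mul_of_nonneg_right (hc2 j t) (hc0 j t)
        _ = 2 * ∑ t, c j t := by rw [mul_sum]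
        _ ≤ 2 * S := by linarith [hcs j]
    · intro j
      positivity
    · intro j
      positivity
    · intro j
      have h1 : Real.sqrt (S * Lam) ^ 2 = S * Lam := Real.sq_sqrt (by positivity)
      rw [mul_pow, h1]
      apply le_of_eq
      ring
    · intro j
      have h1 : ((Q j.1).biUnion (fun w => univ.filter (fun i => w ∈ Q i) ∪
          univ.filter (fun i => z w ∈ Q i))).card ≤ 2 * N * M := by
        refine card_biUnion_le.trans ?_
        calc ∑ w ∈ Q j.1, (univ.filter (fun i => w ∈ Q i) ∪
              univ.filter (fun i => z w ∈ Q i)).card ≤ ∑ _w ∈ Q j.1, 2 * N := by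
              refine sum_le_sum (fun w _ => ?_)
              have h2 := card_union_le (univ.filter (fun i => w ∈ Q i))
                (univ.filter (fun i => z w ∈ Q i))
              have h3 := hN w
              have h4 := hN (z w)
              omega
          _ = (Q j.1).card * (2 * N) := by rw [sum_const, smul_eq_mul]
          _ ≤ M * (2 * N) := Nat.mul_le_mul_right _ (hQM j.1)
          _ = 2 * N * M := by ring
      refine (card_le_card (?_ : _ ⊆ ((Q j.1).biUnion (fun w => univ.filter (fun i => w ∈ Q i) ∪
          univ.filter (fun i => z w ∈ Q i))) ×ˢ (univ : Finset Bool))).trans ?_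
      · intro j' hj'
        simp only [mem_filter, mem_univ, true_and] at hj'
        obtain ⟨t, ⟨w, hw, hwt⟩, ⟨w', hw', hwt'⟩⟩ := hj'
        rw [mem_product]
        refine ⟨?_, mem_univ _⟩
        rw [mem_biUnion]
        refine ⟨w, hw, ?_⟩
        rw [mem_union, mem_filter, mem_filter]
        rcases hpair w w' (hwt.trans hwt'.symm) with h | h
        · exact Or.inl ⟨mem_univ _, h ▸ hw'⟩
        · exact Or.inr ⟨mem_univ _, h ▸ hw'⟩
      · rw [card_product, card_univ, Fintype.card_bool]
        calc _ ≤ 2 * N * M * 2 := Nat.mul_le_mul_right _ h1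
          _ = 4 * N * M := by ring
  refine ⟨ω, ?_⟩
  · intro i b
    have h1 := hω (i, b)
    simp only at h1
    have h2 : ∑ ω' : T → Bool, (((Q i).filter (fun w => ω' (p w) = b)).card : ℝ) =
        ((Q i).card : ℝ) * (Fintype.card (T → Bool) / 2) := by
      have h3 : ∑ ω' : T → Bool, ((Q i).filter (fun w => ω' (p w) = b)).card =
          ∑ w ∈ Q i, (univ.filter (fun ω' : T → Bool => ω' (p w) = b)).card := by
        simp only [card_filter]
        rw [sum_comm]
      have h4 : ∑ ω' : T → Bool, (((Q i).filter (fun w => ω' (p w) = b)).card : ℝ) =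
          ∑ w ∈ Q i,
            ((univ.filter (fun ω' : T → Bool => ω' (p w) = b)).card : ℝ) := by
        exact_mod_cast h3
      rw [h4, sum_congr rfl (fun w _ => Bip_half (p w) b), sum_const,
        nsmul_eq_mul]
    have hMpos : (0 : ℝ) < Fintype.card (T → Bool) := by
      exact_mod_cast Fintype.card_pos
    have h5 : (∑ ω' : T → Bool, (((Q i).filter (fun w => ω' (p w) = b)).card : ℝ)) /
        Fintype.card (T → Bool) = ((Q i).card : ℝ) / 2 := by
      rw [h2]
      field_simp
    rw [h5] at h1
    exact h1

theorem thm_Bip (hLM : St_LM) : St_Bip := by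
  intro V I _ _ z Q S N M Lam hz hS hQS hQM hN hLam hexp
  obtain ⟨ω, hω⟩ := Bip_gen hLM V I (Finset V) z (fun w => {w, z w}) Q S N M Lam (by
    intro w w' h
    have h1 : w' ∈ ({w, z w} : Finset V) := by
      rw [h]
      exact mem_insert_self _ _
    simpa using h1) hS hQS hQM hN hLam hexp
  refine ⟨fun w => ω {w, z w}, ?_, ?_⟩
  · intro u
    show ω {z u, z (z u)} = ω {u, z u}
    rw [hz u, pair_comm]
  · intro i b
    exact hω i b

end Pool.TCM
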