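import Pool.Agent.Helper3.TCM.Defs

/-!
# Total colourings, CHAIN: the test functions and the averaging operators (helper9)
-/

set_option autoImplicit false

namespace Pool.TCM

open Pool.TC Finset
open scoped Classical

section chain

variable {V : Type} {s l ρ : ℕ}

private theorem flp_flp (j : Fin l) (c : Col s l ρ) : flp j (flp j c) = c := by
  rcases c with ⟨q, a⟩ | i
  · show Sum.inl (q, Function.update (Function.update a j (!a j)) j
      (!(Function.update a j (!a j)) j)) = Sum.inl (q, a)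
    rw [Function.update_self, Bool.not_not, Function.update_idem, Function.update_eq_self]
  · rfl

private theorem pre_pre (q0 : Fin s) (ι : Fin ρ → (Fin l → Bool)) (hι : Function.Injective ι)
    (c : Col s l ρ) : pre q0 ι (pre q0 ι c) = c := by
  rcases c with ⟨q, a⟩ | i
  · by_cases h : q = q0 ∧ ∃ i, ι i = a
    · have h1 : pre q0 ι (Sum.inl (q, a) : Col s l ρ) = Sum.inr h.2.choose := dif_pos h
      rw [h1]
      show Sum.inl (q0, ι h.2.choose) = Sum.inl (q, a)
      rw [h.2.choose_spec, h.1]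
    · have h1 : pre q0 ι (Sum.inl (q, a) : Col s l ρ) = Sum.inl (q, a) := dif_neg h
      rw [h1, h1]
  · show pre q0 ι (Sum.inl (q0, ι i)) = Sum.inr i
    have h : q0 = q0 ∧ ∃ i', ι i' = ι i := ⟨rfl, i, rfl⟩
    have h1 : pre q0 ι (Sum.inl (q0, ι i) : Col s l ρ) = Sum.inr h.2.choose := dif_pos h
    rw [h1, hι h.2.choose_spec]

private theorem MX_bd (c : Col s l ρ) : 0 ≤ MX c ∧ MX c ≤ 1 := by
  rcases c with c | i
  · exact ⟨zero_le_one, le_refl _⟩
  · exact ⟨le_refl _, zero_le_one⟩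

private theorem BX_bd (c : Col s l ρ) : 0 ≤ BX c ∧ BX c ≤ 1 := by
  rcases c with ⟨q, a⟩ | i
  · show 0 ≤ (if ∃ h : 0 < l, a ⟨0, h⟩ = false then (1 : ℝ) else 0) ∧
      (if ∃ h : 0 < l, a ⟨0, h⟩ = false then (1 : ℝ) else 0) ≤ 1
    split_ifs
    · exact ⟨zero_le_one, le_refl _⟩
    · exact ⟨le_refl _, zero_le_one⟩
  · exact ⟨le_refl _, zero_le_one⟩

private theorem PX_bd (r : ℕ) (C : V → Fin l → Bool) (j : ℕ) (w : V) (c : Col s l ρ) :
    0 ≤ PX r C j w c ∧ PX r C j w c ≤ 1 := by
  rcases c with ⟨q, a⟩ | i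
  · show 0 ≤ (if agr r C j w a then ((1 / 2) ^ (r - j) : ℝ) else 0) ∧
      (if agr r C j w a then ((1 / 2) ^ (r - j) : ℝ) else 0) ≤ 1
    split_ifs
    · exact ⟨by positivity, pow_le_one₀ (by norm_num) (by norm_num)⟩
    · exact ⟨le_refl _, zero_le_one⟩
  · exact ⟨le_refl _, zero_le_one⟩

private theorem GX_bd (r : ℕ) (C : V → Fin l → Bool) (θ : ℝ) (h0 : 0 ≤ θ) (h1 : θ ≤ 1) (j : ℕ)
    (w : V) (c m : Col s l ρ) : 0 ≤ GX r C θ j w c m ∧ GX r C θ j w c m ≤ 1 := by
  cases j with
  | zero =>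
    show 0 ≤ (1 / 2 : ℝ) ^ r * MX c * (1 - θ / 2 * MX m) ∧
      (1 / 2 : ℝ) ^ r * MX c * (1 - θ / 2 * MX m) ≤ 1
    have h2 := MX_bd c
    have h3 := MX_bd m
    have h4 : (0 : ℝ) ≤ (1 / 2 : ℝ) ^ r := by positivity
    have h5 : (1 / 2 : ℝ) ^ r ≤ 1 := pow_le_one₀ (by norm_num) (by norm_num)
    have h6 : 0 ≤ 1 - θ / 2 * MX m := by nlinarith
    have h7 : 1 - θ / 2 * MX m ≤ 1 := by nlinarith
    exact ⟨mul_nonneg (mul_nonneg h4 h2.1) h6,
      mul_le_one₀ (mul_le_one₀ h5 h2.1 h2.2) h6 h7⟩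
  | succ j =>
    show 0 ≤ PX r C (j + 1) w c * (1 - θ * BX m) ∧ PX r C (j + 1) w c * (1 - θ * BX m) ≤ 1
    have h2 := PX_bd r C (j + 1) w c
    have h3 := BX_bd m
    have h6 : 0 ≤ 1 - θ * BX m := by nlinarith
    have h7 : 1 - θ * BX m ≤ 1 := by nlinarith
    exact ⟨mul_nonneg h2.1 h6, mul_le_one₀ h2.2 h6 h7⟩

private theorem agr_succ (r : ℕ) (C : V → Fin l → Bool) (j : Fin l) (w : V) (a : Fin l → Bool) :
    agr r C (j.val + 1) w a ↔ agr r C j.val w a ∧ (j.val < r → a j = C w j) := by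
  constructor
  · intro h
    exact ⟨fun i h1 h2 => h i h1 (Nat.lt_succ_of_lt h2), fun h1 => h j h1 (Nat.lt_succ_self _)⟩
  · rintro ⟨h1, h2⟩ i h3 h4
    rcases Nat.lt_succ_iff_lt_or_eq.1 h4 with h5 | h5
    · exact h1 i h3 h5
    · have h6 : i = j := Fin.ext h5
      rw [h6]
      exact h2 (h5 ▸ h3)

private theorem agr_upd (r : ℕ) (C : V → Fin l → Bool) (j : Fin l) (w : V) (a : Fin l → Bool)
    (b : Bool) : agr r C j.val w (Function.update a j b) ↔ agr r C j.val w a := by
  refine forall_congr' fun i => forall_congr' fun h1 => forall_congr' fun h2 => ?_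
  have h3 : i ≠ j := fun h => absurd h2 (by rw [h]; exact lt_irrefl _)
  rw [Function.update_of_ne h3]

private theorem PX_sum (r : ℕ) (C : V → Fin l → Bool) (j : Fin l) (w : V) (c : Col s l ρ) :
    PX r C (j.val + 1) w c + PX r C (j.val + 1) w (flp j c) = 2 * PX r C j.val w c := by
  rcases c with ⟨q, a⟩ | i
  · show (if agr r C (j.val + 1) w a then ((1 / 2) ^ (r - (j.val + 1)) : ℝ) else 0) +
      (if agr r C (j.val + 1) w (Function.update a j (!a j)) then
        ((1 / 2) ^ (r - (j.val + 1)) : ℝ) else 0) =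
      2 * (if agr r C j.val w a then ((1 / 2) ^ (r - j.val) : ℝ) else 0)
    rw [if_congr (agr_succ r C j w a) rfl rfl, if_congr (agr_succ r C j w _) rfl rfl,
      if_congr (and_congr_left' (agr_upd r C j w a _)) rfl rfl, Function.update_self]
    by_cases h : agr r C j.val w a
    · by_cases hr : j.val < r
      · have h1 : r - j.val = (r - (j.val + 1)) + 1 := by omega
        rw [if_pos h, h1, pow_succ]
        cases h2 : a j <;> cases h3 : C w j <;> simp [h, hr] <;> ring
      · have h1 : r - j.val = 0 := by omega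
        have h2 : r - (j.val + 1) = 0 := by omega
        rw [if_pos h, h1, h2, if_pos ⟨h, fun h3 => absurd h3 hr⟩,
          if_pos ⟨h, fun h3 => absurd h3 hr⟩]
        norm_num
    · rw [if_neg h, if_neg (fun h1 => h h1.1), if_neg (fun h1 => h h1.1)]
      norm_num
  · show (0 : ℝ) + 0 = 2 * 0
    norm_num

private theorem BX_flp (j : Fin l) (hj : j.val ≠ 0) (m : Col s l ρ) : BX (flp j m) = BX m := by
  rcases m with ⟨q, a⟩ | i
  · show (if ∃ h : 0 < l, (Function.update a j (!a j)) ⟨0, h⟩ = false then (1 : ℝ) else 0) =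
      if ∃ h : 0 < l, a ⟨0, h⟩ = false then (1 : ℝ) else 0
    refine if_congr (exists_congr fun h => ?_) rfl rfl
    rw [Function.update_of_ne]
    intro h1
    exact hj (congrArg Fin.val h1).symm
  · rfl

private theorem BX_flp0 (j : Fin l) (hj : j.val = 0) (m : Col s l ρ) :
    BX m + BX (flp j m) = MX m := by
  rcases m with ⟨q, a⟩ | i
  · show (if ∃ h : 0 < l, a ⟨0, h⟩ = false then (1 : ℝ) else 0) +
      (if ∃ h : 0 < l, (Function.update a j (!a j)) ⟨0, h⟩ = false then (1 : ℝ) else 0) = 1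
    have h0 : ∀ h : 0 < l, (⟨0, h⟩ : Fin l) = j := fun h => Fin.ext hj.symm
    have hl : 0 < l := lt_of_le_of_lt (Nat.zero_le _) j.isLt
    cases h1 : a j
    · rw [if_pos ⟨hl, by rw [h0, h1]⟩, if_neg]
      · norm_num
      · rintro ⟨h2, h3⟩
        rw [h0, Function.update_self] at h3
        exact absurd h3 (by simp)
    · rw [if_neg, if_pos ⟨hl, by rw [h0, Function.update_self]; rfl⟩]
      · norm_num
      · rintro ⟨h2, h3⟩
        rw [h0, h1] at h3
        exact absurd h3 (by simp)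
  · show (0 : ℝ) + 0 = 0
    norm_num

private theorem PX_zero (r : ℕ) (C : V → Fin l → Bool) (w : V) (c : Col s l ρ) :
    PX r C 0 w c = (1 / 2) ^ r * MX c := by
  rcases c with ⟨q, a⟩ | i
  · show (if agr r C 0 w a then ((1 / 2) ^ (r - 0) : ℝ) else 0) = (1 / 2) ^ r * 1
    have h0 : agr r C 0 w a := fun i _ h => absurd h (Nat.not_lt_zero _)
    rw [if_pos h0, mul_one, Nat.sub_zero]
  · show (0 : ℝ) = (1 / 2) ^ r * 0
    rw [mul_zero]

private theorem chain_x (r : ℕ) (C : V → Fin l → Bool) (θ : ℝ) (h0 : 0 ≤ θ)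
    (hr : 0 < r) (hC : ∀ w (i : Fin l), i.val = 0 → C w i = true) (j : Fin l) (w : V)
    (c m : Col s l ρ) (hmc : m ≠ c) :
    Tav (flp j) (GX r C θ (j.val + 1)) w c m ≤ GX r C θ j.val w c m := by
  have hG : ∀ c m : Col s l ρ,
      GX r C θ (j.val + 1) w c m = PX r C (j.val + 1) w c * (1 - θ * BX m) :=
    fun _ _ => rfl
  have hP := PX_sum r C j w c
  by_cases hj : j.val = 0
  · have hG0 : GX r C θ j.val w c m = PX r C j.val w c * (1 - θ / 2 * MX m) := by
      rw [hj, PX_zero]
      rfl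
    unfold Tav
    split_ifs with hm
    · rw [hG, hG, hG0]
      have hPn := (PX_bd r C (j.val + 1) w c).1
      have hPm := (PX_bd r C (j.val + 1) w m).1
      rcases c with ⟨q, a⟩ | i
      · have hM : MX m = 1 := by rw [hm]; rfl
        have hB := BX_flp0 j hj (Sum.inl (q, a) : Col s l ρ)
        rw [← hm] at hB hP
        have hM' : MX (Sum.inl (q, a) : Col s l ρ) = 1 := rfl
        rw [hM'] at hB
        have hl : 0 < l := lt_of_le_of_lt (Nat.zero_le _) j.isLt
        have h00 : ∀ h : 0 < l, (⟨0, h⟩ : Fin l) = j := fun h => Fin.ext hj.symm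
        have hCj : C w j = true := hC w j hj
        cases ha : a j
        · -- the edge colour does not agree
          have e1 : PX r C (j.val + 1) w (Sum.inl (q, a) : Col s l ρ) = 0 :=
            if_neg fun h => by
              have h2 := ((agr_succ r C j w a).1 h).2 (by omega)
              rw [ha, hCj] at h2
              exact absurd h2 (by simp)
          have e2 : BX (Sum.inl (q, a) : Col s l ρ) = 1 := if_pos ⟨hl, by rw [h00, ha]⟩
          rw [e1] at hP ⊢
          rw [e2] at hB ⊢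
          rw [hM]
          have e3 : BX m = 0 := by linarith
          nlinarith
        · have e2 : BX (Sum.inl (q, a) : Col s l ρ) = 0 := if_neg (by
            rintro ⟨h2, h3⟩
            rw [h00, ha] at h3
            exact absurd h3 (by simp))
          have e1 : PX r C (j.val + 1) w m = 0 := by
            rw [hm]
            refine if_neg fun h => ?_
            have h2 := ((agr_succ r C j w _).1 h).2 (by omega)
            rw [Function.update_self, ha, hCj] at h2
            exact absurd h2 (by simp)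
          rw [e1] at hP ⊢
          rw [e2] at hB ⊢
          rw [hM]
          have e3 : BX m = 1 := by linarith
          rw [e3]
          nlinarith
      · exact absurd hm hmc
    · rw [hG, hG, hG, hG, hG0]
      have hB := BX_flp0 j hj m
      refine le_of_eq ?_
      have e : (PX r C (j.val + 1) w c * (1 - θ * BX m) +
        PX r C (j.val + 1) w (flp j c) * (1 - θ * BX m) +
        PX r C (j.val + 1) w c * (1 - θ * BX (flp j m)) +
        PX r C (j.val + 1) w (flp j c) * (1 - θ * BX (flp j m))) / 4 =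
        (PX r C (j.val + 1) w c + PX r C (j.val + 1) w (flp j c)) *
          (2 - θ * (BX m + BX (flp j m))) / 4 := by ring
      rw [e, hP, hB]
      ring
  · have hG0 : GX r C θ j.val w c m = PX r C j.val w c * (1 - θ * BX m) := by
      obtain ⟨j', hj'⟩ := Nat.exists_eq_succ_of_ne_zero hj
      rw [hj']
      rfl
    have hB : ∀ m : Col s l ρ, BX (flp j m) = BX m := fun m => BX_flp j hj m
    refine le_of_eq ?_
    unfold Tav
    split_ifs with hm
    · rw [hG, hG, hG0]
      rw [← hm] at hP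
      have hBm : BX m = BX c := by rw [hm]; exact hB c
      rw [hBm]
      have e : (PX r C (j.val + 1) w c * (1 - θ * BX c) +
        PX r C (j.val + 1) w m * (1 - θ * BX c)) / 2 =
        (PX r C (j.val + 1) w c + PX r C (j.val + 1) w m) * (1 - θ * BX c) / 2 := by ring
      rw [e, hP]
      ring
    · rw [hG, hG, hG, hG, hG0, hB]
      have e : (PX r C (j.val + 1) w c * (1 - θ * BX m) +
        PX r C (j.val + 1) w (flp j c) * (1 - θ * BX m) +
        PX r C (j.val + 1) w c * (1 - θ * BX m) +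
        PX r C (j.val + 1) w (flp j c) * (1 - θ * BX m)) / 4 =
        (PX r C (j.val + 1) w c + PX r C (j.val + 1) w (flp j c)) *
          (1 - θ * BX m) / 2 := by ring
      rw [e, hP]
      ring

private theorem gY_sum (j : Fin l) (a : Fin s × (Fin l → Bool)) (w : V) (c c' m : Col s l ρ) :
    gY (V := V) (j.val + 1) a w c m + gY (V := V) (j.val + 1) a w c' (flp j m) =
      gY (V := V) j.val a w c m := by
  rcases m with ⟨q, b⟩ | i
  · show (if q = a.1 ∧ ∀ i : Fin l, i.val < j.val + 1 → b i = a.2 i then (1 : ℝ) else 0) +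
      (if q = a.1 ∧ ∀ i : Fin l, i.val < j.val + 1 → (Function.update b j (!b j)) i = a.2 i then
        (1 : ℝ) else 0) =
      if q = a.1 ∧ ∀ i : Fin l, i.val < j.val → b i = a.2 i then (1 : ℝ) else 0
    have e : ∀ b' : Fin l → Bool, (∀ i : Fin l, i.val < j.val + 1 → b' i = a.2 i) ↔
        (∀ i : Fin l, i.val < j.val → b' i = a.2 i) ∧ b' j = a.2 j := by
      intro b'
      constructor
      · intro h
        exact ⟨fun i h1 => h i (Nat.lt_succ_of_lt h1), h j (Nat.lt_succ_self _)⟩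
      · rintro ⟨h1, h2⟩ i h3
        rcases Nat.lt_succ_iff_lt_or_eq.1 h3 with h4 | h4
        · exact h1 i h4
        · rw [Fin.ext h4]
          exact h2
    have e2 : (∀ i : Fin l, i.val < j.val → (Function.update b j (!b j)) i = a.2 i) ↔
        ∀ i : Fin l, i.val < j.val → b i = a.2 i := by
      refine forall_congr' fun i => forall_congr' fun h => ?_
      rw [Function.update_of_ne (fun h1 => by rw [h1] at h; exact lt_irrefl _ h)]
    rw [if_congr (and_congr_right' (e b)) rfl rfl,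
      if_congr (and_congr_right' ((e _).trans (and_congr_left' e2))) rfl rfl,
      Function.update_self]
    by_cases h : q = a.1 ∧ ∀ i : Fin l, i.val < j.val → b i = a.2 i
    · rw [if_pos h]
      cases h2 : b j <;> cases h3 : a.2 j <;> simp [h.1] <;> exact h.2
    · rw [if_neg h, if_neg (fun h1 => h ⟨h1.1, h1.2.1⟩), if_neg (fun h1 => h ⟨h1.1, h1.2.1⟩)]
      norm_num
  · show (0 : ℝ) + 0 = 0
    norm_num

private theorem gY_bd (j : ℕ) (a : Fin s × (Fin l → Bool)) (w : V) (c m : Col s l ρ) :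
    0 ≤ gY (V := V) j a w c m ∧ gY (V := V) j a w c m ≤ 1 := by
  rcases m with ⟨q, b⟩ | i
  · show 0 ≤ (if q = a.1 ∧ ∀ i : Fin l, i.val < j → b i = a.2 i then (1 : ℝ) else 0) ∧
      (if q = a.1 ∧ ∀ i : Fin l, i.val < j → b i = a.2 i then (1 : ℝ) else 0) ≤ 1
    split_ifs
    · exact ⟨zero_le_one, le_refl _⟩
    · exact ⟨le_refl _, zero_le_one⟩
  · exact ⟨le_refl _, zero_le_one⟩

private theorem chain_y (j : Fin l) (a : Fin s × (Fin l → Bool)) (w : V) (c m : Col s l ρ) :
    Tav (flp j) (gY (V := V) (j.val + 1) a) w c m = gY (V := V) j.val a w c m / 2 := by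
  have h1 := gY_sum j a w c (flp j c) m
  have h2 : ∀ c' m : Col s l ρ, gY (V := V) (j.val + 1) a w c' m =
      gY (V := V) (j.val + 1) a w c m := fun _ _ => rfl
  unfold Tav
  split_ifs with hm
  · have h3 : c = flp j m := by rw [hm, flp_flp]
    have h4 := gY_sum j a w c m m
    rw [← h3] at h4
    rw [h4]
  · have h3 := gY_sum j a w c c m
    have h4 := gY_sum j a w (flp j c) (flp j c) m
    rw [h2 (flp j c) m, h2 (flp j c) (flp j m)]
    rw [← h3]
    ring

/-- the groups different from `q0` -/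
private noncomputable def oth (q0 : Fin s) : Col s l ρ → ℝ
  | Sum.inl (q, _) => if q = q0 then 0 else 1
  | Sum.inr _ => 0

private theorem oth_bd (q0 : Fin s) (c : Col s l ρ) : 0 ≤ oth q0 c ∧ oth q0 c ≤ 1 := by
  rcases c with ⟨q, a⟩ | i
  · show 0 ≤ (if q = q0 then (0 : ℝ) else 1) ∧ (if q = q0 then (0 : ℝ) else 1) ≤ 1
    split_ifs
    · exact ⟨le_refl _, zero_le_one⟩
    · exact ⟨zero_le_one, le_refl _⟩
  · exact ⟨le_refl _, zero_le_one⟩

private theorem oth_pre (q0 : Fin s) (ι : Fin ρ → (Fin l → Bool)) (c : Col s l ρ)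
    (h : oth q0 c ≠ 0) : pre q0 ι c = c ∧ MX c = 1 := by
  rcases c with ⟨q, a⟩ | i
  · have h1 : q ≠ q0 := by
      intro h1
      exact h (if_pos h1)
    exact ⟨dif_neg fun h2 => h1 h2.1, rfl⟩
  · exact absurd rfl h

private theorem chain_p (r : ℕ) (C : V → Fin l → Bool) (θ : ℝ) (q0 : Fin s)
    (ι : Fin ρ → (Fin l → Bool)) (hs : 2 ≤ s) (hrl : r ≤ l) (h0 : 0 ≤ θ) (h1 : θ ≤ 1)
    (hι : Function.Injective ι) :
    ∃ fb : Col s l ρ → ℝ, (∀ c, 0 ≤ fb c) ∧
    (∀ w c m, m ≠ c → Tav (pre q0 ι) (GX r C θ 0) w c m ≤ fb c) ∧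
    ∑ c, fb c ≤ (s * 2 ^ (l - r) : ℕ) * (1 - θ / 8) := by
  have hpp := pre_pre q0 ι hι
  have hpow : (0 : ℝ) < (1 / 2 : ℝ) ^ r := by positivity
  refine ⟨fun c => (1 / 2) ^ r * ((MX c + MX (pre q0 ι c)) / 2) * (1 - θ / 4 * oth q0 c),
    fun c => ?_, fun w c m hmc => ?_, ?_⟩
  · have h2 := MX_bd c
    have h3 := MX_bd (pre q0 ι c)
    have h4 := oth_bd q0 c
    have h5 : 0 ≤ 1 - θ / 4 * oth q0 c := by nlinarith
    refine mul_nonneg (mul_nonneg hpow.le ?_) h5
    linarith [h2.1, h3.1]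
  · have hG : ∀ c m : Col s l ρ, GX r C θ 0 w c m = (1 / 2) ^ r * MX c * (1 - θ / 2 * MX m) :=
      fun _ _ => rfl
    have h2 := MX_bd c
    have h3 := MX_bd (pre q0 ι c)
    have h4 := oth_bd q0 c
    show Tav (pre q0 ι) (GX r C θ 0) w c m ≤
      (1 / 2) ^ r * ((MX c + MX (pre q0 ι c)) / 2) * (1 - θ / 4 * oth q0 c)
    unfold Tav
    split_ifs with hm
    · have h5 : oth q0 c = 0 := by
        by_contra h5
        exact hmc (hm.trans (oth_pre q0 ι c h5).1)
      rw [hG, hG, h5, ← hm]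
      rw [← hm] at h3
      have h6 : 0 ≤ MX c * MX m := mul_nonneg h2.1 h3.1
      have h7 : 0 ≤ (1 / 2 : ℝ) ^ r * (θ * (MX c * MX m)) := by positivity
      nlinarith
    · have h5 : 1 ≤ MX m + MX (pre q0 ι m) := by
        rcases m with m | i
        · have h6 := (MX_bd (pre q0 ι (Sum.inl m : Col s l ρ))).1
          have h7 : MX (Sum.inl m : Col s l ρ) = 1 := rfl
          rw [h7]
          linarith
        · have h6 : MX (pre q0 ι (Sum.inr i : Col s l ρ)) = 1 := rfl
          have h7 : MX (Sum.inr i : Col s l ρ) = 0 := rfl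
          rw [h6, h7]
          norm_num
      rw [hG, hG, hG, hG]
      have e : ((1 / 2 : ℝ) ^ r * MX c * (1 - θ / 2 * MX m) +
          (1 / 2) ^ r * MX (pre q0 ι c) * (1 - θ / 2 * MX m) +
          (1 / 2) ^ r * MX c * (1 - θ / 2 * MX (pre q0 ι m)) +
          (1 / 2) ^ r * MX (pre q0 ι c) * (1 - θ / 2 * MX (pre q0 ι m))) / 4 =
          (1 / 2) ^ r * ((MX c + MX (pre q0 ι c)) / 2) *
            (1 - θ / 4 * (MX m + MX (pre q0 ι m))) := by ring
      rw [e]
      refine mul_le_mul_of_nonneg_left ?_ (mul_nonneg hpow.le (by linarith [h2.1, h3.1]))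
      have h8 : θ / 4 * oth q0 c ≤ θ / 4 * (MX m + MX (pre q0 ι m)) :=
        mul_le_mul_of_nonneg_left (h4.2.trans h5) (by linarith)
      linarith
  · have hsum1 : ∑ c : Col s l ρ, MX c = (s : ℝ) * 2 ^ l := by
      rw [Fintype.sum_sum_type]
      have e1 : ∑ x : Fin s × (Fin l → Bool), MX (Sum.inl x : Col s l ρ) = (s : ℝ) * 2 ^ l := by
        show ∑ x : Fin s × (Fin l → Bool), (1 : ℝ) = (s : ℝ) * 2 ^ l
        rw [Finset.sum_const, Finset.card_univ, Fintype.card_prod, Fintype.card_fin,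
          Fintype.card_fun, Fintype.card_bool, Fintype.card_fin, nsmul_eq_mul, mul_one]
        push_cast
        ring
      have e2 : ∑ x : Fin ρ, MX (Sum.inr x : Col s l ρ) = 0 := Finset.sum_eq_zero fun _ _ => rfl
      rw [e1, e2, add_zero]
    have hsum2 : ∑ c : Col s l ρ, MX (pre q0 ι c) = (s : ℝ) * 2 ^ l := by
      rw [← hsum1]
      exact Equiv.sum_comp (Function.Involutive.toPerm (pre q0 ι) hpp) MX
    have hsum3 : ∑ c : Col s l ρ, oth q0 c = ((s : ℝ) - 1) * 2 ^ l := by
      rw [Fintype.sum_sum_type]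
      have e1 : ∑ x : Fin s × (Fin l → Bool), oth q0 (Sum.inl x : Col s l ρ) =
          ((s : ℝ) - 1) * 2 ^ l := by
        rw [Fintype.sum_prod_type]
        have e3 : ∀ q : Fin s, ∑ a : Fin l → Bool, oth q0 (Sum.inl (q, a) : Col s l ρ) =
            (if q = q0 then 0 else 1) * 2 ^ l := by
          intro q
          show ∑ a : Fin l → Bool, (if q = q0 then (0 : ℝ) else 1) = _
          rw [Finset.sum_const, Finset.card_univ, Fintype.card_fun, Fintype.card_bool,
            Fintype.card_fin, nsmul_eq_mul]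
          push_cast
          ring
        rw [Finset.sum_congr rfl fun q _ => e3 q, ← Finset.sum_mul]
        congr 1
        have e4 : ∀ q : Fin s, (if q = q0 then (0 : ℝ) else 1) = 1 - if q = q0 then 1 else 0 := by
          intro q
          split_ifs <;> norm_num
        rw [Finset.sum_congr rfl fun q _ => e4 q, Finset.sum_sub_distrib, Finset.sum_const,
          Finset.card_univ, Fintype.card_fin, nsmul_eq_mul, mul_one, Finset.sum_ite_eq' univ q0,
          if_pos (mem_univ _)]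
      have e2 : ∑ x : Fin ρ, oth q0 (Sum.inr x : Col s l ρ) = 0 :=
        Finset.sum_eq_zero fun _ _ => rfl
      rw [e1, e2, add_zero]
    have hterm : ∀ c : Col s l ρ,
        (1 / 2) ^ r * ((MX c + MX (pre q0 ι c)) / 2) * (1 - θ / 4 * oth q0 c) =
        (1 / 2) ^ r / 2 * MX c + (1 / 2) ^ r / 2 * MX (pre q0 ι c) -
          (1 / 2) ^ r * (θ / 4) * oth q0 c := by
      intro c
      by_cases h5 : oth q0 c = 0
      · rw [h5]
        ring
      · obtain ⟨h6, h7⟩ := oth_pre q0 ι c h5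
        rw [h6, h7]
        ring
    rw [Finset.sum_congr rfl fun c _ => hterm c, Finset.sum_sub_distrib, Finset.sum_add_distrib,
      ← Finset.mul_sum, ← Finset.mul_sum, ← Finset.mul_sum, hsum1, hsum2, hsum3]
    have e5 : ((s * 2 ^ (l - r) : ℕ) : ℝ) = (1 / 2) ^ r * ((s : ℝ) * 2 ^ l) := by
      push_cast
      have e6 : (2 : ℝ) ^ l = 2 ^ (l - r) * 2 ^ r := by
        rw [← pow_add, Nat.sub_add_cancel hrl]
      rw [e6, one_div, inv_pow]
      field_simp
    rw [e5]
    have hs' : (2 : ℝ) ≤ (s : ℝ) := by exact_mod_cast hs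
    have h9 : 0 ≤ (1 / 2 : ℝ) ^ r * 2 ^ l * θ * ((s : ℝ) - 2) := by
      have : (0 : ℝ) ≤ (s : ℝ) - 2 := by linarith
      positivity
    nlinarith

end chain

theorem thm_Chain : St_Chain := by
  intro V s l ρ r C θ q0 ι hs hr hrl hC h0 h1 hι
  exact ⟨pre_pre q0 ι hι, flp_flp, fun j w c m => GX_bd r C θ h0 h1 j w c m,
    fun j a w c m => gY_bd j a w c m, fun j w c m hmc => chain_x r C θ h0 hr hC j w c m hmc,
    fun j a w c m => chain_y j a w c m, chain_p r C θ q0 ι hs hrl h0 h1 hι⟩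

end Pool.TCM
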