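import Pool.Agent.Helper3.TCM.Defs

/-!
COIN: one mixing round, from LM, COINA, COINB, COINC.
-/

set_option autoImplicit false

namespace Pool.TCM

open Pool.TC Finset
open scoped Classical

theorem mean_inst {Ω : Type} (i1 i2 : Fintype Ω) (F : Ω → ℝ) :
    (∑ ω ∈ @univ Ω i1, F ω) / (@Fintype.card Ω i1 : ℝ) =
      (∑ ω ∈ @univ Ω i2, F ω) / (@Fintype.card Ω i2 : ℝ) := by
  have h : i1 = i2 := Subsingleton.elim _ _
  subst h
  rfl

theorem filter_card_inst {α : Type} [Fintype α] (p : α → Prop) (i1 i2 : DecidablePred p) :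
    (@Finset.filter α p i1 univ).card = (@Finset.filter α p i2 univ).card := by
  have h : i1 = i2 := Subsingleton.elim _ _
  subst h
  rfl

theorem thm_Coin (hLM : St_LM) (hA : St_CoinA) (hB : St_CoinB) (hC : St_CoinC) : St_Coin := by
  intro V κ I _ _ _ E σ m L Lam g b hσ hm hL hg0 hg1 hb hX hLam hexp
  have hcc : ∀ j : I × V, ∃ cc : Finset κ × Finset V → ℝ, (∀ t, 0 ≤ cc t) ∧
    (∀ t (ω ω' : Finset κ × Finset V → Bool), (∀ t', t' ≠ t → ω t' = ω' t') →
      |Xω E σ m (g j.1) j.2 ω - Xω E σ m (g j.1) j.2 ω'| ≤ cc t) ∧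
    (∀ t, (¬ ∃ c, t = coin E σ c j.2 ∨ t = coin E σ (m (E.N c j.2)) (E.N c j.2)) → cc t = 0) ∧
    ∑ t, cc t ^ 2 ≤ 32 * X E m (Tav σ (g j.1)) j.2 := fun j =>
    hC V κ E σ m hσ hm (g j.1) (hg0 j.1) (hg1 j.1) j.2
  choose cc c1 c2 c3 c4 using hcc
  let S : I × V → Finset (Finset κ × Finset V) := fun j =>
    univ.image (fun c => coin E σ c j.2) ∪
      univ.image (fun c => coin E σ (m (E.N c j.2)) (E.N c j.2))
  have hSm : ∀ j t, t ∈ S j ↔ ∃ c, t = coin E σ c j.2 ∨
      t = coin E σ (m (E.N c j.2)) (E.N c j.2) := by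
    intro j t
    simp only [S, mem_union, mem_image, mem_univ, true_and]
    constructor
    · rintro (⟨c, h⟩ | ⟨c, h⟩)
      · exact ⟨c, Or.inl h.symm⟩
      · exact ⟨c, Or.inr h.symm⟩
    · rintro ⟨c, h | h⟩
      · exact Or.inl ⟨c, h.symm⟩
      · exact Or.inr ⟨c, h.symm⟩
  have hScard : ∀ j, (S j).card ≤ 2 * Fintype.card κ := by
    intro j
    refine (card_union_le _ _).trans ?_
    have h1 : (univ.image (fun c => coin E σ c j.2)).card ≤ Fintype.card κ := card_image_le
    have h2 : (univ.image (fun c => coin E σ (m (E.N c j.2)) (E.N c j.2))).card ≤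
        Fintype.card κ := card_image_le
    omega
  have hSL : ∀ j, ∀ t ∈ S j, t.2.card ≤ L := by
    intro j t ht
    rw [hSm] at ht
    obtain ⟨c, rfl | rfl⟩ := ht
    · exact hL _ _
    · exact hL _ _
  have hnear : ∀ (j : I × V) (t : Finset κ × Finset V), t ∈ S j →
      j.2 ∈ t.2.biUnion (fun w => univ.image (fun c => E.N c w)) := by
    intro j t ht
    rw [hSm] at ht
    rw [mem_biUnion]
    obtain ⟨c, rfl | rfl⟩ := ht
    · refine ⟨j.2, ?_, ?_⟩
      · simp only [coin, orbF, mem_filter, mem_univ, true_and]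
        exact Reach.refl _ _ _
      · rw [mem_image]
        exact ⟨m j.2, mem_univ _, hm _⟩
    · refine ⟨E.N c j.2, ?_, ?_⟩
      · simp only [coin, orbF, mem_filter, mem_univ, true_and]
        exact Reach.refl _ _ _
      · rw [mem_image]
        exact ⟨c, mem_univ _, E.inv _ _⟩
  obtain ⟨ω, hω⟩ := hLM (Finset κ × Finset V) Bool (I × V)
    (fun j ω => Xω E σ m (g j.1) j.2 ω) cc (fun j => 32 * b j.1)
    (fun j => 8 * Real.sqrt (b j.1 * Lam)) S Lam (2 * Fintype.card κ ^ 2 * L * Fintype.card I)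
    c1 c2 (fun j t ht => c3 j t (fun h => ht ((hSm j t).2 h)))
    (fun j => (c4 j).trans (mul_le_mul_of_nonneg_left (hX j.1 j.2) (by norm_num)))
    (fun j => by have := hb j.1; positivity)
    (fun j => by positivity)
    (by
      intro j
      have h1 : 0 ≤ b j.1 * Lam := mul_nonneg (hb j.1).le hLam
      show 2 * (32 * b j.1) * Lam ≤ (8 * Real.sqrt (b j.1 * Lam)) ^ 2
      rw [mul_pow, Real.sq_sqrt h1]
      linarith)
    (by
      intro j
      have h1 : univ.filter (fun j' : I × V => ∃ t, t ∈ S j ∧ t ∈ S j') ⊆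
          (S j).biUnion (fun t => (univ : Finset I) ×ˢ
            (t.2.biUnion (fun w => univ.image (fun c => E.N c w)))) := by
        intro j' hj'
        simp only [mem_filter, mem_univ, true_and] at hj'
        obtain ⟨t, ht, ht'⟩ := hj'
        rw [mem_biUnion]
        exact ⟨t, ht, mem_product.2 ⟨mem_univ _, hnear j' t ht'⟩⟩
      refine le_trans (le_of_eq (filter_card_inst _ _ _)) (le_trans (card_le_card h1)
        (le_trans (card_biUnion_le (s := S j)
        (t := fun t => (univ : Finset I) ×ˢ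
            (t.2.biUnion (fun w => univ.image (fun c => E.N c w))))) ?_))
      calc ∑ t ∈ S j, ((univ : Finset I) ×ˢ
            (t.2.biUnion (fun w => univ.image (fun c => E.N c w)))).card
          ≤ ∑ _t ∈ S j, Fintype.card I * (L * Fintype.card κ) := by
            refine sum_le_sum (fun t ht => ?_)
            rw [card_product, card_univ]
            refine Nat.mul_le_mul_left _ (card_biUnion_le.trans ?_)
            calc ∑ w ∈ t.2, (univ.image (fun c => E.N c w)).card
                ≤ ∑ _w ∈ t.2, Fintype.card κ := sum_le_sum (fun w _ => card_image_le)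
              _ = t.2.card * Fintype.card κ := by rw [sum_const, smul_eq_mul]
              _ ≤ L * Fintype.card κ := Nat.mul_le_mul_right _ (hSL j t ht)
        _ = (S j).card * (Fintype.card I * (L * Fintype.card κ)) := by
            rw [sum_const, smul_eq_mul]
        _ ≤ (2 * Fintype.card κ) * (Fintype.card I * (L * Fintype.card κ)) :=
            Nat.mul_le_mul_right _ (hScard j)
        _ = 2 * Fintype.card κ ^ 2 * L * Fintype.card I := by ring)
    (by push_cast; exact hexp)
  obtain ⟨E', m', a1, a2, a3, a4⟩ := hA V κ E σ m hσ hm ω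
  refine ⟨E', m', a1, a2, a3, ?_⟩
  intro i v
  rw [a4]
  have h1 := hω (i, v)
  have h2 := hB V κ E σ m hσ hm (g i) v
  have h3 : (∑ ω', Xω E σ m (g i) v ω') /
      (Fintype.card (Finset κ × Finset V → Bool) : ℝ) ≤ b i := by
    rw [h2]; exact hX i v
  refine h1.trans ?_
  dsimp only
  have h4 : ∀ a c : ℝ, a ≤ b i → c = 8 * Real.sqrt (b i * Lam) →
      a + c ≤ b i + 8 * Real.sqrt (b i * Lam) := by
    intro a c h5 h6; rw [h6]; linarith
  refine h4 _ _ ?_ rfl
  exact (mean_inst _ _ _).le.trans h3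

end Pool.TCM
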