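import Pool.Agent.Helper3.TCM.CoinC

/-!
COINA: the colouring after the swaps.
-/

set_option autoImplicit false

namespace Pool.TCM

open Pool.TC Finset
open scoped Classical

theorem coin_nbr' {V κ : Type} [Fintype V] {E : EC κ V} {σ : κ → κ} (c : κ) (v : V) :
    coin E σ c (E.N (σ c) v) = coin E σ c v := by
  unfold coin
  congr 1
  ext y
  simp only [orbF, mem_filter, mem_univ, true_and]
  have h1 : Reach (E.N c) (E.N (σ c)) v (E.N (σ c) v) := (Reach.refl _ _ _).right
  have h2 : Reach (E.N c) (E.N (σ c)) (E.N (σ c) v) v := by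
    have := (Reach.refl (E.N c) (E.N (σ c)) (E.N (σ c) v)).right
    rwa [E.inv] at this
  exact ⟨fun h => h1.trans h, fun h => h2.trans h⟩

theorem thm_CoinA : St_CoinA := by
  intro V κ _ _ E σ m hσ hm ω
  have k1 : ∀ c x, (ω (coin E σ (σ c) x) = true) = (ω (coin E σ c x) = true) := by
    intro c x; rw [coin_pair hσ]
  have k2 : ∀ c x, (ω (coin E σ c (E.N c x)) = true) = (ω (coin E σ c x) = true) := by
    intro c x; rw [coin_nbr]
  have k3 : ∀ c x, (ω (coin E σ c (E.N (σ c) x)) = true) = (ω (coin E σ c x) = true) := by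
    intro c x; rw [coin_nbr']
  have hfl1 : ∀ c x, ω (coin E σ c x) = true → fl E σ ω c x = σ c := by
    intro c x h; unfold fl; rw [if_pos h]
  have hfl0 : ∀ c x, ¬ ω (coin E σ c x) = true → fl E σ ω c x = c := by
    intro c x h; unfold fl; rw [if_neg h]
  have hfl2 : ∀ c x, fl E σ ω (fl E σ ω c x) x = c := by
    intro c x
    by_cases h : ω (coin E σ c x) = true
    · rw [hfl1 c x h, hfl1 (σ c) x (by rw [k1]; exact h), hσ]
    · rw [hfl0 c x h, hfl0 c x h]
  have hflN : ∀ c x, fl E σ ω c (E.N c x) = fl E σ ω c x := by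
    intro c x
    unfold fl
    rw [coin_nbr]
  let E' : EC κ V :=
    { N := fun c u => E.N (fl E σ ω c u) u
      inv := by
        intro c u
        by_cases h : ω (coin E σ c u) = true
        · have h2 : ω (coin E σ c (E.N (σ c) u)) = true := by rw [k3]; exact h
          show E.N (fl E σ ω c (E.N (fl E σ ω c u) u)) (E.N (fl E σ ω c u) u) = u
          rw [hfl1 c u h, hfl1 c _ h2, E.inv]
        · have h2 : ¬ ω (coin E σ c (E.N c u)) = true := by rw [k2]; exact h
          show E.N (fl E σ ω c (E.N (fl E σ ω c u) u)) (E.N (fl E σ ω c u) u) = u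
          rw [hfl0 c u h, hfl0 c _ h2, E.inv]
      uniq := by
        intro a b u h1 h2
        have h3 := E.uniq _ _ u h1 h2
        rw [← hfl2 a u, h3, hfl2] }
  have hE' : ∀ c u, E'.N c u = E.N (fl E σ ω c u) u := fun _ _ => rfl
  refine ⟨E', fun w => fl E σ ω (m w) w, ?_, ?_, ?_, ?_⟩
  · intro w
    rw [hE', hfl2, hm]
  · intro c u
    exact ⟨_, hE' c u⟩
  · intro c u
    exact ⟨fl E σ ω c u, by rw [hE', hfl2]⟩
  · intro g v
    unfold X Xω
    let π : κ ≃ κ := ⟨fun c => fl E σ ω c v, fun c => fl E σ ω c v, fun c => hfl2 c v,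
      fun c => hfl2 c v⟩
    rw [← Equiv.sum_comp π]
    refine sum_congr rfl (fun c _ => ?_)
    have h1 : E'.N (π c) v = E.N c v := by
      show E.N (fl E σ ω (fl E σ ω c v) v) v = E.N c v
      rw [hfl2]
    rw [h1]
    show (if E.N c v = v then 0 else g (E.N c v) (fl E σ ω c v) _) = _
    rw [hflN]

end Pool.TCM
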