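import Pool.Agent.Helper3.TCM.CoinC

/-!
COINB: the expectation of the sum after the mixing round.
-/

set_option autoImplicit false

namespace Pool.TCM

open Pool.TC Finset
open scoped Classical

section avg

variable {T : Type} [Fintype T] [DecidableEq T]

/-- flipping one coin -/
noncomputable def flipAt (t : T) : Equiv.Perm (T → Bool) :=
  Function.Involutive.toPerm (fun ω => Function.update ω t (!ω t)) (by
    intro ω
    funext x
    by_cases h : x = t
    · subst h; simp
    · simp [h])

theorem flipAt_self (t : T) (ω : T → Bool) : flipAt t ω t = !ω t := by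
  show Function.update ω t (!ω t) t = !ω t
  simp

theorem flipAt_ne {t x : T} (h : x ≠ t) (ω : T → Bool) : flipAt t ω x = ω x := by
  show Function.update ω t (!ω t) x = ω x
  simp [h]

theorem avg_one (t : T) (f : Bool → ℝ) :
    (∑ ω : T → Bool, f (ω t)) / Fintype.card (T → Bool) = (f true + f false) / 2 := by
  have h1 : ∑ ω : T → Bool, f (!ω t) = ∑ ω : T → Bool, f (ω t) := by
    rw [← Equiv.sum_comp (flipAt t) (fun ω : T → Bool => f (ω t))]
    simp only [flipAt_self]
  have h2 : ∑ ω : T → Bool, (f (ω t) + f (!ω t)) =
      Fintype.card (T → Bool) * (f true + f false) := by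
    rw [show (Fintype.card (T → Bool) : ℝ) * (f true + f false) =
      ∑ _ω : T → Bool, (f true + f false) by rw [sum_const, card_univ, nsmul_eq_mul]]
    refine sum_congr rfl (fun ω _ => ?_)
    cases ω t
    · simp [add_comm]
    · simp
  rw [sum_add_distrib, h1] at h2
  have hcard : (0 : ℝ) < Fintype.card (T → Bool) := by exact_mod_cast Fintype.card_pos
  rw [div_eq_div_iff hcard.ne' (by norm_num)]
  linarith

theorem avg_two {t t' : T} (h : t ≠ t') (f : Bool → Bool → ℝ) :
    (∑ ω : T → Bool, f (ω t) (ω t')) / Fintype.card (T → Bool) =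
      (f true true + f false true + f true false + f false false) / 4 := by
  have h1 : ∑ ω : T → Bool, f (!ω t) (ω t') = ∑ ω : T → Bool, f (ω t) (ω t') := by
    rw [← Equiv.sum_comp (flipAt t) (fun ω : T → Bool => f (ω t) (ω t'))]
    simp only [flipAt_self, flipAt_ne h.symm]
  have h2 : ∑ ω : T → Bool, f (ω t) (!ω t') = ∑ ω : T → Bool, f (ω t) (ω t') := by
    rw [← Equiv.sum_comp (flipAt t') (fun ω : T → Bool => f (ω t) (ω t'))]
    simp only [flipAt_self, flipAt_ne h]
  have h3 : ∑ ω : T → Bool, f (!ω t) (!ω t') = ∑ ω : T → Bool, f (ω t) (ω t') := by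
    rw [← h1, ← Equiv.sum_comp (flipAt t') (fun ω : T → Bool => f (!ω t) (ω t'))]
    simp only [flipAt_self, flipAt_ne h]
  have h4 : ∑ ω : T → Bool, (f (ω t) (ω t') + f (!ω t) (ω t') + f (ω t) (!ω t') +
      f (!ω t) (!ω t')) = Fintype.card (T → Bool) *
        (f true true + f false true + f true false + f false false) := by
    rw [show (Fintype.card (T → Bool) : ℝ) *
        (f true true + f false true + f true false + f false false) =
      ∑ _ω : T → Bool, (f true true + f false true + f true false + f false false) by
        rw [sum_const, card_univ, nsmul_eq_mul]]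
    refine sum_congr rfl (fun ω _ => ?_)
    cases ω t <;> cases ω t' <;> simp <;> ring
  rw [sum_add_distrib, sum_add_distrib, sum_add_distrib, h1, h2, h3] at h4
  have hcard : (0 : ℝ) < Fintype.card (T → Bool) := by exact_mod_cast Fintype.card_pos
  rw [div_eq_div_iff hcard.ne' (by norm_num)]
  linarith

end avg

theorem thm_CoinB : St_CoinB := by
  intro V κ _ _ E σ m hσ hm g v
  unfold Xω X
  rw [sum_comm, sum_div]
  refine sum_congr rfl (fun c _ => ?_)
  by_cases hc : E.N c v = v
  · simp [hc]
  simp only [hc, if_false]
  set w := E.N c v with hw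
  have hmc : m w ≠ c := by
    intro h
    have h1 := hm w
    rw [h, hw, E.inv] at h1
    exact hc h1.symm
  by_cases h : m w = σ c
  · have h1 : coin E σ (m w) w = coin E σ c w := by rw [h, coin_pair hσ]
    have h2 : ∀ ω : Finset κ × Finset V → Bool, g w (fl E σ ω c w) (fl E σ ω (m w) w) =
        (fun b : Bool => if b = true then g w (m w) c else g w c (m w)) (ω (coin E σ c w)) := by
      intro ω
      unfold fl
      rw [h1]
      by_cases h3 : ω (coin E σ c w) = true
      · simp only [h3, if_true]
        rw [h, hσ]
      · simp only [h3, Bool.false_eq_true, if_false]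
    rw [sum_congr rfl (fun ω _ => h2 ω)]
    have h5 := avg_one (coin E σ c w)
      (fun b : Bool => if b = true then g w (m w) c else g w c (m w))
    have h6 : Tav σ g w c (m w) = (g w (m w) c + g w c (m w)) / 2 := by
      unfold Tav
      rw [if_pos h]
      ring
    rw [h6]
    simp only [if_true, Bool.false_eq_true, if_false] at h5
    exact h5
  · have h1 : coin E σ c w ≠ coin E σ (m w) w := by
      intro h3
      unfold coin at h3
      rw [Prod.mk.injEq] at h3
      have h4 : m w ∈ ({c, σ c} : Finset κ) := by
        rw [h3.1]; exact mem_insert_self _ _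
      rw [mem_insert, mem_singleton] at h4
      rcases h4 with h4 | h4
      · exact hmc h4
      · exact h h4
    have h2 : ∀ ω : Finset κ × Finset V → Bool, g w (fl E σ ω c w) (fl E σ ω (m w) w) =
        (fun b b' : Bool => g w (if b = true then σ c else c)
          (if b' = true then σ (m w) else m w)) (ω (coin E σ c w)) (ω (coin E σ (m w) w)) := by
      intro ω
      rfl
    rw [sum_congr rfl (fun ω _ => h2 ω)]
    have h5 := avg_two h1 (fun b b' : Bool => g w (if b = true then σ c else c)
      (if b' = true then σ (m w) else m w))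
    have h6 : Tav σ g w c (m w) = (g w (σ c) (σ (m w)) + g w c (σ (m w)) + g w (σ c) (m w) +
        g w c (m w)) / 4 := by
      unfold Tav
      rw [if_neg h]
      ring
    rw [h6]
    simp only [if_true, Bool.false_eq_true, if_false] at h5
    exact h5

end Pool.TCM
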