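import Pool.Agent.Helper3.TCM.Defs

/-!
COINC: the sensitivity of the sum with respect to one coin.
-/

set_option autoImplicit false

namespace Pool.TCM

open Pool.TC Finset
open scoped Classical

section

variable {V κ : Type} [Fintype V] {E : EC κ V} {σ : κ → κ} {m : V → κ}

theorem coin_nbr (c : κ) (v : V) : coin E σ c (E.N c v) = coin E σ c v := by
  unfold coin
  congr 1
  ext y
  simp only [orbF, mem_filter, mem_univ, true_and]
  have h1 : Reach (E.N c) (E.N (σ c)) v (E.N c v) := (Reach.refl _ _ _).left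
  have h2 : Reach (E.N c) (E.N (σ c)) (E.N c v) v := by
    have := (Reach.refl (E.N c) (E.N (σ c)) (E.N c v)).left
    rwa [E.inv] at this
  exact ⟨fun h => h1.trans h, fun h => h2.trans h⟩

theorem coin_pair (hσ : ∀ c, σ (σ c) = c) (c : κ) (v : V) :
    coin E σ (σ c) v = coin E σ c v := by
  unfold coin
  rw [hσ, pair_comm]
  congr 1
  ext y
  simp only [orbF, mem_filter, mem_univ, true_and]
  exact ⟨Reach.swap, Reach.swap⟩

/-- the neighbours whose missing colour is decided by a given coin -/
theorem card_miss_le [Fintype κ] (hm : ∀ w, E.N (m w) w = w) (v : V) (t : Finset κ × Finset V) :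
    (univ.filter (fun c => E.N c v ≠ v ∧ coin E σ (m (E.N c v)) (E.N c v) = t)).card ≤ 2 := by
  by_contra hcon
  push Not at hcon
  obtain ⟨c1, c2, c3, h1, h2, h3, n12, n13, n23⟩ := two_lt_card_iff.1 hcon
  simp only [mem_filter, mem_univ, true_and] at h1 h2 h3
  have hw : ∀ c c', E.N c v ≠ v → c ≠ c' → E.N c v ≠ E.N c' v :=
    fun c c' h hne h' => hne (E.uniq _ _ _ h' h)
  have key : ∀ c, coin E σ (m (E.N c v)) (E.N c v) = t →
      (E.N (m (E.N c1 v)) (E.N c v) = E.N c v ∨ E.N (σ (m (E.N c1 v))) (E.N c v) = E.N c v) ∧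
      Reach (E.N (m (E.N c1 v))) (E.N (σ (m (E.N c1 v)))) (E.N c1 v) (E.N c v) := by
    intro c hc
    have h4 : coin E σ (m (E.N c v)) (E.N c v) = coin E σ (m (E.N c1 v)) (E.N c1 v) :=
      hc.trans h1.2.symm
    unfold coin at h4
    rw [Prod.mk.injEq] at h4
    obtain ⟨h5, h6⟩ := h4
    constructor
    · have h7 : m (E.N c v) ∈ ({m (E.N c1 v), σ (m (E.N c1 v))} : Finset κ) := by
        rw [← h5]; exact mem_insert_self _ _
      rw [mem_insert, mem_singleton] at h7
      rcases h7 with h7 | h7
      · left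
        rw [← h7]
        exact hm _
      · right
        rw [← h7]
        exact hm _
    · have h7 : E.N c v ∈ orbF (E.N (m (E.N c v))) (E.N (σ (m (E.N c v)))) (E.N c v) := by
        simp only [orbF, mem_filter, mem_univ, true_and]
        exact Reach.refl _ _ _
      rw [h6] at h7
      simpa only [orbF, mem_filter, mem_univ, true_and] using h7
  obtain ⟨a1, r1⟩ := key c1 h1.2
  obtain ⟨a2, r2⟩ := key c2 h2.2
  obtain ⟨a3, r3⟩ := key c3 h3.2
  exact three_fixed (E.inv _) (E.inv _) a1 a2 a3 r2 r3 (hw _ _ h1.1 n12) (hw _ _ h1.1 n13)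
    (hw _ _ h2.1 n23)

theorem card_col_le [Fintype κ] (v : V) (t : Finset κ × Finset V) :
    (univ.filter (fun c => coin E σ c v = t)).card ≤ 2 := by
  rcases (univ.filter (fun c => coin E σ c v = t)).eq_empty_or_nonempty with h | ⟨c0, hc0⟩
  · rw [h]; simp
  · simp only [mem_filter, mem_univ, true_and] at hc0
    have h1 : univ.filter (fun c => coin E σ c v = t) ⊆ {c0, σ c0} := by
      intro c hc
      simp only [mem_filter, mem_univ, true_and] at hc
      have h2 : coin E σ c v = coin E σ c0 v := hc.trans hc0.symm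
      unfold coin at h2
      rw [Prod.mk.injEq] at h2
      rw [← h2.1]
      exact mem_insert_self _ _
    exact (card_le_card h1).trans card_le_two

/-- the outcomes of a term are at most four times its mean -/
theorem outcome_le (hσ : ∀ c, σ (σ c) = c) {g : V → κ → κ → ℝ} (hg : ∀ w c m, 0 ≤ g w c m)
    (ω : Finset κ × Finset V → Bool) (w : V) (c : κ) :
    g w (fl E σ ω c w) (fl E σ ω (m w) w) ≤ 4 * Tav σ g w c (m w) := by
  unfold Tav
  split_ifs with h
  · have h1 : coin E σ (m w) w = coin E σ c w := by rw [h, coin_pair hσ]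
    have h2 := hg w c (m w)
    have h3 := hg w (m w) c
    unfold fl
    rw [h1]
    split_ifs with h4
    · rw [h, hσ]
      rw [h] at h2 h3
      linarith
    · linarith
  · have h1 := hg w c (m w)
    have h2 := hg w (σ c) (m w)
    have h3 := hg w c (σ (m w))
    have h4 := hg w (σ c) (σ (m w))
    unfold fl
    split_ifs <;> linarith

end

theorem thm_CoinC : St_CoinC := by
  intro V κ _ _ E σ m hσ hm g hg0 hg1 v
  -- the range of a term
  let ρ : κ → ℝ := fun c => min 1 (4 * Tav σ g (E.N c v) c (m (E.N c v)))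
  have hT0 : ∀ c, 0 ≤ 4 * Tav σ g (E.N c v) c (m (E.N c v)) := fun c =>
    (hg0 _ _ _).trans (outcome_le (E := E) hσ hg0 (fun _ => true) (E.N c v) c)
  have hρ0 : ∀ c, 0 ≤ ρ c := fun c => le_min zero_le_one (hT0 c)
  have hρ1 : ∀ c, ρ c ≤ 1 := fun c => min_le_left _ _
  have hρT : ∀ c, ρ c ≤ 4 * Tav σ g (E.N c v) c (m (E.N c v)) := fun c => min_le_right _ _
  let Aff : Finset κ × Finset V → κ → Prop := fun t c => E.N c v ≠ v ∧
    (coin E σ c v = t ∨ coin E σ (m (E.N c v)) (E.N c v) = t)
  refine ⟨fun t => ∑ c, if Aff t c then ρ c else 0, ?_, ?_, ?_, ?_⟩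
  · intro t
    refine sum_nonneg (fun c _ => ?_)
    split_ifs
    · exact hρ0 c
    · exact le_refl _
  · intro t ω ω' hωω'
    unfold Xω
    rw [← sum_sub_distrib]
    refine (abs_sum_le_sum_abs _ _).trans (sum_le_sum (fun c _ => ?_))
    by_cases hc : E.N c v = v
    · simp only [hc, if_true, sub_self, abs_zero]
      split_ifs
      · exact hρ0 c
      · exact le_refl _
    · rw [if_neg hc, if_neg hc]
      by_cases ha : Aff t c
      · rw [if_pos ha]
        have b1 : ∀ ω, g (E.N c v) (fl E σ ω c (E.N c v)) (fl E σ ω (m (E.N c v)) (E.N c v)) ≤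
            ρ c := fun ω => le_min (hg1 _ _ _) (outcome_le hσ hg0 ω _ c)
        have b2 : ∀ ω, 0 ≤ g (E.N c v) (fl E σ ω c (E.N c v))
            (fl E σ ω (m (E.N c v)) (E.N c v)) := fun ω => hg0 _ _ _
        rw [abs_le]
        constructor
        · linarith [b1 ω', b2 ω]
        · linarith [b1 ω, b2 ω']
      · rw [if_neg ha]
        have h1 : coin E σ c (E.N c v) ≠ t := by
          intro h
          rw [coin_nbr] at h
          exact ha ⟨hc, Or.inl h⟩
        have h2 : coin E σ (m (E.N c v)) (E.N c v) ≠ t := fun h => ha ⟨hc, Or.inr h⟩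
        have h3 : fl E σ ω c (E.N c v) = fl E σ ω' c (E.N c v) := by
          unfold fl
          rw [hωω' _ h1]
        have h4 : fl E σ ω (m (E.N c v)) (E.N c v) = fl E σ ω' (m (E.N c v)) (E.N c v) := by
          unfold fl
          rw [hωω' _ h2]
        rw [h3, h4]
        simp
  · intro t ht
    refine sum_eq_zero (fun c _ => ?_)
    rw [if_neg]
    rintro ⟨_, h | h⟩
    · exact ht ⟨c, Or.inl h.symm⟩
    · exact ht ⟨c, Or.inr h.symm⟩
  · -- the sum of the squares
    have h1 : ∀ t, (∑ c, if Aff t c then ρ c else 0) ^ 2 ≤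
        4 * ∑ c, if Aff t c then ρ c ^ 2 else 0 := by
      intro t
      rw [← sum_filter, ← sum_filter]
      have h2 : (univ.filter (fun c => Aff t c)).card ≤ 4 := by
        have h3 : univ.filter (fun c => Aff t c) ⊆ univ.filter (fun c => coin E σ c v = t) ∪
            univ.filter (fun c => E.N c v ≠ v ∧ coin E σ (m (E.N c v)) (E.N c v) = t) := by
          intro c hc
          simp only [mem_filter, mem_univ, true_and, mem_union] at hc ⊢
          rcases hc with ⟨h4, h5 | h5⟩
          · exact Or.inl h5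
          · exact Or.inr ⟨h4, h5⟩
        have h4 := (card_le_card h3).trans (card_union_le _ _)
        have h5 := card_col_le (E := E) (σ := σ) v t
        have h6 := card_miss_le (E := E) (σ := σ) hm v t
        omega
      have h3 : ((univ.filter (fun c => Aff t c)).card : ℝ) ≤ 4 := by exact_mod_cast h2
      have h4 : 0 ≤ ∑ c ∈ univ.filter (fun c => Aff t c), ρ c ^ 2 :=
        sum_nonneg (fun c _ => sq_nonneg _)
      calc (∑ c ∈ univ.filter (fun c => Aff t c), ρ c) ^ 2
          ≤ (univ.filter (fun c => Aff t c)).card * ∑ c ∈ univ.filter (fun c => Aff t c), ρ c ^ 2 :=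
            sq_sum_le_card_mul_sum_sq
        _ ≤ 4 * ∑ c ∈ univ.filter (fun c => Aff t c), ρ c ^ 2 :=
            mul_le_mul_of_nonneg_right h3 h4
    have h2 : ∀ c, (∑ t, if Aff t c then ρ c ^ 2 else 0) ≤
        if E.N c v = v then 0 else 8 * Tav σ g (E.N c v) c (m (E.N c v)) := by
      intro c
      by_cases hc : E.N c v = v
      · rw [if_pos hc]
        refine (sum_eq_zero (fun t _ => ?_)).le
        rw [if_neg]
        exact fun h => h.1 hc
      · rw [if_neg hc]
        have h3 : univ.filter (fun t => Aff t c) ⊆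
            {coin E σ c v, coin E σ (m (E.N c v)) (E.N c v)} := by
          intro t ht
          simp only [mem_filter, mem_univ, true_and] at ht
          rw [mem_insert, mem_singleton]
          rcases ht with ⟨_, h | h⟩
          · exact Or.inl h.symm
          · exact Or.inr h.symm
        have h4 : ((univ.filter (fun t => Aff t c)).card : ℝ) ≤ 2 := by
          exact_mod_cast (card_le_card h3).trans card_le_two
        rw [← sum_filter, sum_const, nsmul_eq_mul]
        have h5 : ρ c ^ 2 ≤ 4 * Tav σ g (E.N c v) c (m (E.N c v)) := by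
          have := hρ0 c
          have := hρ1 c
          have := hρT c
          nlinarith
        have h6 := sq_nonneg (ρ c)
        nlinarith
    calc ∑ t, (∑ c, if Aff t c then ρ c else 0) ^ 2
        ≤ ∑ t, 4 * ∑ c, (if Aff t c then ρ c ^ 2 else 0) := sum_le_sum (fun t _ => h1 t)
      _ = 4 * ∑ c, ∑ t, (if Aff t c then ρ c ^ 2 else 0) := by
          rw [← mul_sum, sum_comm]
      _ ≤ 4 * ∑ c, (if E.N c v = v then 0 else 8 * Tav σ g (E.N c v) c (m (E.N c v))) :=
          mul_le_mul_of_nonneg_left (sum_le_sum (fun c _ => h2 c)) (by norm_num)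
      _ = 32 * X E m (Tav σ g) v := by
          unfold X
          rw [mul_sum, mul_sum]
          refine sum_congr rfl (fun c _ => ?_)
          split_ifs
          · simp
          · ring

end Pool.TCM
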