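import Pool.Agent.Helper3.TCM.Defs

/-!
CORE: free vertices and the total colouring of the edges and the vertices with palettes.
-/

set_option autoImplicit false

namespace Pool.TCM

open Pool.TC Finset
open scoped Classical

theorem card_agree {l : ℕ} (r : ℕ) (hrl : r ≤ l) (b : Fin l → Bool) :
    (univ.filter (fun a : Fin l → Bool => ∀ i : Fin l, i.val < r → a i = b i)).card =
      2 ^ (l - r) := by
  have h1 : univ.filter (fun a : Fin l → Bool => ∀ i : Fin l, i.val < r → a i = b i) =
      Fintype.piFinset (fun i : Fin l => if i.val < r then {b i} else (univ : Finset Bool)) := by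
    ext a
    simp only [mem_filter, mem_univ, true_and, Fintype.mem_piFinset]
    refine forall_congr' (fun i => ?_)
    by_cases hi : i.val < r <;> simp [hi]
  rw [h1, Fintype.card_piFinset]
  have h2 : ∀ i : Fin l, (if i.val < r then ({b i} : Finset Bool) else univ).card =
      if i.val < r then 1 else 2 := by
    intro i
    split_ifs <;> simp
  simp only [h2]
  rw [prod_ite]
  simp only [prod_const_one, one_mul, prod_const]
  congr 1
  have h3 : (univ.filter (fun i : Fin l => ¬ i.val < r)).card =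
      ((range l).filter (fun i => ¬ i < r)).card := by
    refine card_bij (fun i _ => i.val) ?_ ?_ ?_
    · intro i hi
      simp only [mem_filter, mem_univ, true_and, mem_range] at hi ⊢
      exact ⟨i.isLt, hi⟩
    · intro i _ j _ h
      exact Fin.ext h
    · intro i hi
      simp only [mem_filter, mem_range] at hi
      exact ⟨⟨i, hi.1⟩, by simpa using hi.2, rfl⟩
  rw [h3]
  have h4 : (range l).filter (fun i => ¬ i < r) = Ico r l := by
    ext i
    simp only [mem_filter, mem_range, mem_Ico]
    omega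
  rw [h4, Nat.card_Ico]

theorem card_Jp {V : Type} {s l ρ : ℕ} (r : ℕ) (hrl : r ≤ l) (C : V → Fin l → Bool) (w : V) :
    (Jp r C w : Finset (Col s l ρ)).card = s * 2 ^ (l - r) := by
  have h1 : (Jp r C w : Finset (Col s l ρ)) =
      ((univ : Finset (Fin s)) ×ˢ
        (univ.filter (fun a : Fin l → Bool => ∀ i : Fin l, i.val < r → a i = C w i))).image
          Sum.inl := by
    ext c
    simp only [Jp, mem_filter, mem_univ, true_and, mem_image, mem_product, Prod.exists]
    constructor
    · rintro ⟨q, a, rfl, h⟩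
      exact ⟨q, a, h, rfl⟩
    · rintro ⟨q, a, h, rfl⟩
      exact ⟨q, a, rfl, h⟩
  rw [h1, card_image_of_injective _ Sum.inl_injective, card_product, card_agree r hrl]
  simp

theorem PX_end {V : Type} {s l ρ : ℕ} {r : ℕ} (hrl : r ≤ l) (C : V → Fin l → Bool) (w : V)
    (c : Col s l ρ) : PX r C l w c = if c ∈ Jp r C w then 1 else 0 := by
  rcases c with ⟨q, a⟩ | i
  · have h1 : agr r C l w a ↔ (Sum.inl (q, a) : Col s l ρ) ∈ Jp r C w := by
      simp only [agr, Jp, mem_filter, mem_univ, true_and]
      constructor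
      · intro h
        exact ⟨q, a, rfl, fun i hi => h i hi i.isLt⟩
      · rintro ⟨q', a', h, h2⟩ i hi _
        have h3 := Sum.inl_injective h
        rw [Prod.mk.injEq] at h3
        rw [h3.2]
        exact h2 i hi
    have h2 : r - l = 0 := by omega
    simp only [PX, h2, pow_zero, h1]
  · have h1 : (Sum.inr i : Col s l ρ) ∉ Jp r C w := by
      simp [Jp]
    simp only [PX, h1, if_false]

theorem BX_cases {s l ρ : ℕ} (c : Col s l ρ) : BX c = 0 ∨ BX c = 1 := by
  rcases c with ⟨q, a⟩ | i
  · simp only [BX]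
    split_ifs
    · exact Or.inr rfl
    · exact Or.inl rfl
  · exact Or.inl rfl

theorem LL_ge (D l : ℕ) : ((D : ℝ) + 1) ^ 2 ≤ (LL D (l + 1) : ℝ) := by
  have h : (D + 1) ^ 2 ≤ LL D (l + 1) := by
    unfold LL
    generalize hn : 16 * (l + 1) + 3 = n
    have hn2 : 2 ≤ n := by omega
    have h2 : (D + 1) ^ 2 ≤ (D + 1) ^ n := Nat.pow_le_pow_right (by omega) hn2
    generalize (D + 1) ^ n = x at h2 ⊢
    have h3 : x ≤ 384 * (l + 1) * x := Nat.le_mul_of_pos_left x (by positivity)
    linarith
  exact_mod_cast h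

theorem LL_ge4 (D l : ℕ) : (4 : ℝ) ≤ (LL D (l + 1) : ℝ) := by
  have : 4 ≤ LL D (l + 1) := by
    unfold LL
    generalize 384 * (l + 1) * (D + 1) ^ (16 * (l + 1) + 3) = x
    omega
  exact_mod_cast this

theorem exp_act (D : ℕ) (Lam K : ℝ) (hK : ((D : ℝ) + 1) ^ 2 ≤ K)
    (hexp : 4 * Real.exp (-Lam) * (2 * ((D : ℝ) + 1) ^ 2 * K * (D + 2) + 1) ≤ 1) :
    4 * Real.exp (-Lam) * (((D : ℝ) + 1) ^ 4 + 1) ≤ 1 := by
  have hD0 : (0 : ℝ) ≤ D := Nat.cast_nonneg _
  refine le_trans ?_ hexp
  have h1 : ((D : ℝ) + 1) ^ 4 ≤ 2 * ((D : ℝ) + 1) ^ 2 * K * (D + 2) := by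
    calc ((D : ℝ) + 1) ^ 4 = ((D : ℝ) + 1) ^ 2 * ((D : ℝ) + 1) ^ 2 := by ring
      _ ≤ ((D : ℝ) + 1) ^ 2 * K := by gcongr
      _ ≤ ((D : ℝ) + 1) ^ 2 * K * (2 * (D + 2)) := by
          refine le_mul_of_one_le_right ?_ (by linarith)
          have : 0 ≤ K := le_trans (by positivity) hK
          positivity
      _ = _ := by ring
  gcongr

theorem exp_fin (D : ℕ) (Lam K : ℝ) (hK : 4 ≤ K)
    (hexp : 4 * Real.exp (-Lam) * (2 * ((D : ℝ) + 1) ^ 2 * K * (D + 2) + 1) ≤ 1) :
    4 * Real.exp (-Lam) * (8 * ((D : ℝ) + 1) ^ 2 + 1) ≤ 1 := by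
  have hD0 : (0 : ℝ) ≤ D := Nat.cast_nonneg _
  refine le_trans ?_ hexp
  have h1 : 8 * ((D : ℝ) + 1) ^ 2 ≤ 2 * ((D : ℝ) + 1) ^ 2 * K * (D + 2) := by
    calc 8 * ((D : ℝ) + 1) ^ 2 = 2 * ((D : ℝ) + 1) ^ 2 * 4 := by ring
      _ ≤ 2 * ((D : ℝ) + 1) ^ 2 * K := by gcongr
      _ ≤ 2 * ((D : ℝ) + 1) ^ 2 * K * (D + 2) :=
          le_mul_of_one_le_right (by positivity) (by linarith)
  gcongr

theorem thm_Core (hR : St_Run) (hAct : St_Act) (hF : St_Fin) : St_Core := by
  intro V _ G D s l ρ r t0 C Lam hD hs hρ hcard hr hrl hC0 ht0 hLam hexp ht0' hfin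
  set S : ℝ := ((s * 2 ^ (l - r) : ℕ) : ℝ) with hSdef
  have hSpos : 0 < S := by
    rw [hSdef]
    have : 0 < s * 2 ^ (l - r) := by positivity
    exact_mod_cast this
  have ht0R : (1 : ℝ) ≤ t0 := by exact_mod_cast ht0
  set θ : ℝ := 1 / (4 * t0) with hθ
  have hθ0 : 0 < θ := by rw [hθ]; positivity
  have hθ1 : θ ≤ 1 / 4 := by
    rw [hθ]
    apply one_div_le_one_div_of_le (by norm_num)
    linarith
  have hsq : 0 ≤ Real.sqrt (S * Lam) := Real.sqrt_nonneg _
  have hl0 : (0 : ℝ) ≤ l := Nat.cast_nonneg _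
  have hnoise : 8 * ((l : ℝ) + 1) * Real.sqrt (S * Lam) ≤ S * θ / 8 := by
    have h1 : 0 ≤ (2 * (1 + (t0 : ℝ)) + 8) * Real.sqrt (S * Lam) := by positivity
    nlinarith
  obtain ⟨E, z, m, hst, hX, hY⟩ := hR V G D s l ρ r C θ Lam hD hs hρ hcard hr hrl hC0 hθ0.le
    (by linarith) hLam hexp hnoise
  have hXS : ∀ v, X E m (GX r C θ l) v ≤ S := by
    intro v
    have h1 := hX v
    nlinarith
  -- the conditions on Lam
  have hact := exp_act D Lam _ (LL_ge D l) hexp
  have hfinc := exp_fin D Lam _ (LL_ge4 D l) hexp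
  -- the conflict relation
  let cf : V → V → Prop := fun u w => G.Adj u w ∧ m u = m w ∧ BX (m u) = 1
  have hcf : ∀ w, (univ.filter (fun u => cf w u)).card ≤ t0 := by
    intro w
    by_cases hw : BX (m w) = 1
    swap
    · have : univ.filter (fun u => cf w u) = ∅ := by
        rw [filter_eq_empty_iff]
        rintro u _ ⟨_, _, h⟩
        exact hw h
      rw [this]
      simp
    obtain ⟨a, ha⟩ : ∃ a, m w = Sum.inl a := by
      rcases h : m w with a | i
      · exact ⟨a, rfl⟩
      · rw [h] at hw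
        simp [BX] at hw
    have h1 : univ.filter (fun u => cf w u) ⊆
        insert (z w) ((univ.filter (fun c => E.N c w ≠ w ∧ m (E.N c w) = Sum.inl a)).image
          (fun c => E.N c w)) := by
      intro u hu
      simp only [mem_filter, mem_univ, true_and] at hu
      obtain ⟨h2, h3, _⟩ := hu
      rw [mem_insert]
      rcases hst.cov w u h2 with ⟨c, hc⟩ | h4
      · right
        rw [mem_image]
        refine ⟨c, ?_, hc⟩
        simp only [mem_filter, mem_univ, true_and]
        rw [hc, ← h3, ha]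
        exact ⟨h2.ne.symm, rfl⟩
      · exact Or.inl h4.symm
    have h2 : ((univ.filter (fun c => E.N c w ≠ w ∧ m (E.N c w) = Sum.inl a)).card : ℝ) ≤
        X E m (gY l a) w := by
      unfold X
      rw [card_filter]
      push_cast
      refine sum_le_sum (fun c _ => ?_)
      by_cases h3 : E.N c w = w
      · simp [h3]
      · simp only [h3, not_false_eq_true, true_and, if_false, ne_eq]
        by_cases h4 : m (E.N c w) = Sum.inl a
        · rw [h4]
          simp [gY]
        · simp only [h4, if_false]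
          unfold gY
          rcases m (E.N c w) with ⟨q, b⟩ | i
          · dsimp only
            split_ifs
            · exact zero_le_one
            · exact le_refl _
          · exact le_refl _
    have h3 : ((univ.filter (fun u => cf w u)).card : ℝ) ≤ t0 := by
      have h4 := (card_le_card h1).trans ((card_insert_le _ _).trans
        (Nat.add_le_add_right card_image_le 1))
      have h5 : ((univ.filter (fun u => cf w u)).card : ℝ) ≤
          ((univ.filter (fun c => E.N c w ≠ w ∧ m (E.N c w) = Sum.inl a)).card : ℝ) + 1 := by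
        exact_mod_cast h4
      have h6 := hY w a
      linarith
    exact_mod_cast h3
  -- the sets
  let A : V → Finset (Col s l ρ) := fun v =>
    univ.filter (fun c => E.N c v ≠ v ∧ c ∈ Jp r C (E.N c v))
  let Q : V → Finset V := fun v =>
    ((A v).filter (fun c => BX (m (E.N c v)) = 1)).image (fun c => E.N c v)
  have hinj : ∀ v, Set.InjOn (fun c => E.N c v) (A v) := by
    intro v c hc c' hc' h
    simp only [A, coe_filter, mem_univ, true_and, Set.mem_ofPred_eq] at hc
    exact E.uniq _ _ _ h hc.1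
  have hQcard : ∀ v, (Q v).card = ((A v).filter (fun c => BX (m (E.N c v)) = 1)).card := by
    intro v
    apply card_image_of_injOn
    exact (hinj v).mono (by
      intro c hc
      exact (mem_filter.1 hc).1)
  obtain ⟨l', hl'⟩ : ∃ l', l = l' + 1 := ⟨l - 1, by omega⟩
  have hGX : ∀ (w : V) (c m' : Col s l ρ), GX r C θ l w c m' = PX r C l w c * (1 - θ * BX m') := by
    intro w c m'
    have : ∀ j, j = l' + 1 → GX r C θ j w c m' = PX r C j w c * (1 - θ * BX m') := by
      rintro j rfl
      rfl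
    exact this l hl'
  have hXA : ∀ v, X E m (GX r C θ l) v = ((A v).card : ℝ) - θ * (Q v).card := by
    intro v
    rw [hQcard]
    unfold X
    have h1 : ((A v).card : ℝ) = ∑ c : Col s l ρ, if E.N c v ≠ v ∧ c ∈ Jp r C (E.N c v) then 1 else 0 := by
      simp only [A]
      rw [card_filter]
      push_cast
      rfl
    have h2 : (((A v).filter (fun c => BX (m (E.N c v)) = 1)).card : ℝ) =
        ∑ c : Col s l ρ, if (E.N c v ≠ v ∧ c ∈ Jp r C (E.N c v)) ∧ BX (m (E.N c v)) = 1 then 1 else 0 := by
      simp only [A]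
      rw [filter_filter, card_filter]
      push_cast
      rfl
    rw [h1, h2, mul_sum, ← sum_sub_distrib]
    refine sum_congr rfl (fun c _ => ?_)
    by_cases h3 : E.N c v = v
    · simp [h3]
    · rw [if_neg h3, hGX, PX_end hrl]
      by_cases h4 : c ∈ Jp r C (E.N c v)
      · simp only [h3, h4, if_true, ne_eq, not_false_eq_true, true_and, one_mul]
        rcases BX_cases (m (E.N c v)) with h5 | h5
        · simp [h5]
        · simp [h5]
      · simp [h3, h4]
  have hQle : ∀ v, ((Q v).card : ℝ) ≤ (A v).card := by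
    intro v
    rw [hQcard]
    exact_mod_cast card_le_card (filter_subset _ _)
  have hQy : ∀ v, ((Q v).card : ℝ) ≤ 2 * S := by
    intro v
    have h1 := hXA v
    have h2 := hXS v
    have h3 := hQle v
    have h4 : (0 : ℝ) ≤ (Q v).card := Nat.cast_nonneg _
    nlinarith
  obtain ⟨F0, hF0, hF1⟩ := hAct V G D t0 cf Q (2 * S) Lam hD
    (by
      rintro u w ⟨h1, h2, h3⟩
      exact ⟨h1.symm, h2.symm, by rw [← h2]; exact h3⟩)
    (fun u w h => h.1) ht0 (by intro w; convert hcf w)
    (by
      intro v w hw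
      simp only [Q, mem_image, mem_filter] at hw
      obtain ⟨c, ⟨h1, _⟩, rfl⟩ := hw
      simp only [A, mem_filter, mem_univ, true_and] at h1
      exact hst.sub c v h1.1)
    (by positivity) hQy hLam.le hact
  have hsq2 : Real.sqrt (2 * (2 * S) * Lam) = 2 * Real.sqrt (S * Lam) := by
    rw [show 2 * (2 * S) * Lam = 2 ^ 2 * (S * Lam) by ring, Real.sqrt_mul (by positivity),
      Real.sqrt_sq (by norm_num)]
  -- the free vertices
  let F : V → Prop := fun w => F0 w ∧ BX (m w) = 1
  set x : ℝ := S * (1 - θ / 8) + 8 * ((l : ℝ) + 1) * Real.sqrt (S * Lam) +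
    2 * (1 + t0) * Real.sqrt (S * Lam) with hx
  have hxb : ∀ v, ((univ.filter (fun w => ¬ F w ∧ w ≠ v ∧ ∃ c ∈ (Jp r C w : Finset (Col s l ρ)),
      E.N c w = v)).card : ℝ) ≤ x := by
    intro v
    have h1 : univ.filter (fun w => ¬ F w ∧ w ≠ v ∧ ∃ c ∈ (Jp r C w : Finset (Col s l ρ)),
        E.N c w = v) ⊆ ((A v).filter (fun c => ¬ F (E.N c v))).image (fun c => E.N c v) := by
      intro w hw
      simp only [mem_filter, mem_univ, true_and] at hw
      obtain ⟨h2, h3, c, h4, h5⟩ := hw
      have h6 : E.N c v = w := by rw [← h5, E.inv]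
      rw [mem_image]
      refine ⟨c, ?_, h6⟩
      simp only [A, mem_filter, mem_univ, true_and]
      rw [h6]
      exact ⟨⟨h3, h4⟩, h2⟩
    have h2 : ((univ.filter (fun w => ¬ F w ∧ w ≠ v ∧ ∃ c ∈ (Jp r C w : Finset (Col s l ρ)),
        E.N c w = v)).card : ℝ) ≤ ((A v).filter (fun c => ¬ F (E.N c v))).card := by
      exact_mod_cast (card_le_card h1).trans card_image_le
    have h3 : (((A v).filter (fun c => ¬ F (E.N c v))).card : ℝ) =
        (A v).card - ((A v).filter (fun c => F (E.N c v))).card := by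
      have := card_filter_add_card_filter_not (s := A v) (fun c => F (E.N c v))
      have h4 : (((A v).filter (fun c => F (E.N c v))).card : ℝ) +
          ((A v).filter (fun c => ¬ F (E.N c v))).card = (A v).card := by exact_mod_cast this
      linarith
    have h4 : (((Q v).filter F0).card : ℝ) ≤ ((A v).filter (fun c => F (E.N c v))).card := by
      have h5 : (Q v).filter F0 ⊆ ((A v).filter (fun c => F (E.N c v))).image
          (fun c => E.N c v) := by
        intro w hw
        simp only [Q, mem_filter, mem_image] at hw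
        obtain ⟨⟨c, ⟨h6, h7⟩, rfl⟩, h8⟩ := hw
        rw [mem_image]
        exact ⟨c, mem_filter.2 ⟨h6, h8, h7⟩, rfl⟩
      exact_mod_cast (card_le_card h5).trans card_image_le
    have h5 := hF1 v
    rw [hsq2] at h5
    have h6 := hXA v
    have h7 := hX v
    have h8 : ((Q v).card : ℝ) / (4 * t0) = θ * (Q v).card := by rw [hθ]; ring
    rw [h8] at h5
    rw [hx]
    linarith
  obtain ⟨c, e, k1, k2, k3, k4⟩ := hF V (Col s l ρ) G D E z F m (Jp r C) (s * 2 ^ (l - r))
    (2 * (l + 1)) x Lam hD hst.zinv hst.zadj hst.sub hst.cov (fun w _ => hst.miss w)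
    (fun u => card_Jp r hrl C u)
    (by
      intro u
      refine le_trans (card_le_card ?_) (hst.spr u)
      apply filter_subset_filter
      intro v hv
      have hmono : ∀ n, v ∈ ball G (n + 1) u := by
        intro n
        induction n with
        | zero =>
          simp only [ball, mem_biUnion, mem_singleton, exists_eq_left, mem_insert]
          exact Or.inr hv
        | succ n ih =>
          rw [ball, mem_biUnion]
          exact ⟨v, ih, mem_insert_self _ _⟩
      have := hmono (8 * l + 7)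
      rwa [show 8 * l + 7 + 1 = 8 * (l + 1) by ring] at this)
    (by intro v; convert hxb v) hLam hfinc
    (by
      rw [← hSdef, hx]
      push_cast
      nlinarith)
  refine ⟨c, e, ?_, k3, k4⟩
  intro u v huv hi hcc
  have hJF : ∀ u v, F u → ¬ F v → c u ≠ c v := by
    intro u v hu hv h
    have h1 := k2 v hv
    rw [← h, k1 u hu] at h1
    simp only [Jp, mem_filter, mem_univ, true_and] at h1
    obtain ⟨q, a, h2, h3⟩ := h1
    have h4 : BX (m u) = 1 := hu.2
    rw [h2] at h4
    simp only [BX] at h4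
    by_cases h5 : ∃ h : 0 < l, a ⟨0, h⟩ = false
    · obtain ⟨h6, h7⟩ := h5
      have h8 := h3 ⟨0, h6⟩ hr
      rw [hC0 v ⟨0, h6⟩ rfl, h7] at h8
      exact absurd h8 (by simp)
    · rw [if_neg h5] at h4
      exact absurd h4 (by norm_num)
  by_cases hu : F u
  · by_cases hv : F v
    · rw [k1 u hu, k1 v hv] at hcc
      exact hF0 u v hu.1 hv.1 ⟨huv, hcc, hu.2⟩
    · exact hJF u v hu hv hcc
  · by_cases hv : F v
    · exact hJF v u hv hu hcc.symm
    · have h1 := k2 u hu
      have h2 := k2 v hv
      rw [hcc] at h1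
      simp only [Jp, mem_filter, mem_univ, true_and] at h1 h2
      obtain ⟨q, a, h3, h4⟩ := h1
      obtain ⟨q', a', h5, h6⟩ := h2
      rw [h3] at h5
      have h7 := Sum.inl_injective h5
      rw [Prod.mk.injEq] at h7
      obtain ⟨i, hi1, hi2⟩ := hi
      apply hi2
      rw [← h4 i hi1, ← h6 i hi1, h7.2]

end Pool.TCM
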