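import Pool.Agent.Helper3.TCM.Ball
import Pool.Agent.Helper45.Vu.IT

/-!
CUTA: existence of the cuts (an independent transversal of the blocks of the windows).
-/

set_option autoImplicit false

namespace Pool.TCM

open Pool.TC Finset
open scoped Classical

section

variable {V κ : Type} [Fintype V] {G : SimpleGraph V} {E : EC κ V}

theorem N_mem_ball (hsub : ∀ a u, E.N a u ≠ u → G.Adj u (E.N a u)) (a : κ) (u : V) :
    E.N a u ∈ ball G 1 u := by
  by_cases h : E.N a u = u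
  · rw [h]; exact mem_ball_self 1 u
  · exact adj_mem_ball (hsub a u h)

theorem rot_inj (c c' : κ) : Function.Injective (E.N c' ∘ E.N c) := by
  intro x y h
  have h1 := congrArg (E.N c') h
  simp only [Function.comp_apply, E.inv] at h1
  have h2 := congrArg (E.N c) h1
  simpa only [E.inv] using h2

theorem rot_iter_mem_ball (hsub : ∀ a u, E.N a u ≠ u → G.Adj u (E.N a u)) (c c' : κ) (o : ℕ)
    (u : V) : (E.N c' ∘ E.N c)^[o] u ∈ ball G (2 * o) u := by
  induction o with
  | zero => exact mem_ball_self _ _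
  | succ o ih =>
    rw [Function.iterate_succ_apply']
    have h1 := ball_trans (ball_trans ih (N_mem_ball hsub c _)) (N_mem_ball hsub c' _)
    exact h1

/-- every block contains an eligible position -/
theorem eligible {z : V → V} {m : V → κ} {R t : ℕ} (hS : Stt G (8 * R) E z m t) (ht : t < R)
    (c c' : κ) (y : V)
    (hinj : ∀ i < 4 * R, ∀ j < 4 * R, (E.N c' ∘ E.N c)^[i] y = (E.N c' ∘ E.N c)^[j] y → i = j) :
    ∃ o < 4 * R, z ((E.N c' ∘ E.N c)^[o] y) = (E.N c' ∘ E.N c)^[o] y ∧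
      z (E.N c ((E.N c' ∘ E.N c)^[o] y)) = E.N c ((E.N c' ∘ E.N c)^[o] y) := by
  set f := E.N c' ∘ E.N c with hf
  have h1 : ((range (4 * R)).filter (fun o => z (f^[o] y) ≠ f^[o] y)).card ≤ 2 * t := by
    refine le_trans ?_ (hS.spr y)
    refine card_le_card_of_injOn (fun o => f^[o] y) ?_ ?_
    · intro o ho
      simp only [coe_filter, mem_range, Set.mem_ofPred_eq] at ho ⊢
      refine ⟨?_, ho.2⟩
      exact ball_mono (by omega) (rot_iter_mem_ball hS.sub c c' o y)
    · intro i hi j hj h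
      simp only [coe_filter, mem_range, Set.mem_ofPred_eq] at hi hj
      exact hinj i hi.1 j hj.1 h
  have h2 : ((range (4 * R)).filter (fun o => z (E.N c (f^[o] y)) ≠ E.N c (f^[o] y))).card ≤
      2 * t := by
    refine le_trans ?_ (hS.spr y)
    refine card_le_card_of_injOn (fun o => E.N c (f^[o] y)) ?_ ?_
    · intro o ho
      simp only [coe_filter, mem_range, Set.mem_ofPred_eq] at ho ⊢
      refine ⟨?_, ho.2⟩
      exact ball_mono (by omega)
        (ball_trans (rot_iter_mem_ball hS.sub c c' o y) (N_mem_ball hS.sub c _))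
    · intro i hi j hj h
      simp only [coe_filter, mem_range, Set.mem_ofPred_eq] at hi hj
      refine hinj i hi.1 j hj.1 ?_
      have h3 := congrArg (E.N c) h
      simpa only [E.inv] using h3
  by_contra hcon
  push Not at hcon
  have h3 : range (4 * R) ⊆ (range (4 * R)).filter (fun o => z (f^[o] y) ≠ f^[o] y) ∪
      (range (4 * R)).filter (fun o => z (E.N c (f^[o] y)) ≠ E.N c (f^[o] y)) := by
    intro o ho
    rw [mem_union, mem_filter, mem_filter]
    by_cases h4 : z (f^[o] y) = f^[o] y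
    · exact Or.inr ⟨ho, hcon o (mem_range.1 ho) h4⟩
    · exact Or.inl ⟨ho, h4⟩
  have h4 := (card_le_card h3).trans (card_union_le _ _)
  rw [card_range] at h4
  omega

end

theorem thm_CutA (hPack : St_Pack) : St_CutA := by
  intro V κ _ _ G D R t σ E z m hD hκ hσ hS ht
  have hR : 0 < R := by omega
  set B' : ℕ := (D + 1) ^ (16 * R + 3) with hB'
  have hB'pos : 0 < B' := by rw [hB']; positivity
  set n : ℕ := 4 * B' with hn
  set w : ℕ := 16 * R * B' with hw
  have hwn : w = n * (4 * R) := by rw [hw, hn]; ring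
  have hwpos : 0 < w := by rw [hw]; positivity
  -- first colours
  let e : κ ≃ Fin (Fintype.card κ) := Fintype.equivFin κ
  let F : Set κ := {c | e c < e (σ c)}
  have hF : ∀ c, σ c ≠ c → (c ∈ F ↔ σ c ∉ F) := by
    intro c hc
    have h1 : e c ≠ e (σ c) := fun h => hc (e.injective h).symm
    simp only [F, Set.mem_ofPred_eq, hσ]
    constructor
    · intro h; exact not_lt.2 h.le
    · intro h; exact lt_of_le_of_ne (not_lt.1 h) h1
  rcases isEmpty_or_nonempty V with hV | ⟨⟨v0⟩⟩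
  · exact ⟨F, fun _ _ => False, ⟨hF, fun _ _ h => h.elim, fun _ _ h => h.elim,
      fun _ _ h => h.elim, fun _ _ h => h.elim, fun _ _ _ _ _ h => h.elim,
      fun _ _ _ y => (hV.false y).elim⟩⟩
  -- windows
  have hp : ∀ c : κ, ∃ Xc : Finset V,
      (∀ x ∈ Xc, ∀ j, 1 ≤ j → j ≤ w → (E.N (σ c) ∘ E.N c)^[j] x ≠ x) ∧
      (∀ x ∈ Xc, ∀ x' ∈ Xc, x ≠ x' → ∀ i < w, ∀ j < w,
        (E.N (σ c) ∘ E.N c)^[i] x ≠ (E.N (σ c) ∘ E.N c)^[j] x') ∧
      (∀ y, (∀ j, 1 ≤ j → j ≤ w → (E.N (σ c) ∘ E.N c)^[j] y ≠ y) →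
        ∃ k < 2 * w, (E.N (σ c) ∘ E.N c)^[k] y ∈ Xc) :=
    fun c => hPack V (E.N (σ c) ∘ E.N c) w (rot_inj c (σ c)) hwpos
  choose Xc p1 p2 p3 using hp
  have hinj : ∀ c, ∀ x ∈ Xc c, ∀ i < w, ∀ j < w,
      (E.N (σ c) ∘ E.N c)^[i] x = (E.N (σ c) ∘ E.N c)^[j] x → i = j := by
    intro c x hx
    have key : ∀ i j, i < j → j < w →
        (E.N (σ c) ∘ E.N c)^[i] x ≠ (E.N (σ c) ∘ E.N c)^[j] x := by
      intro i j hij hj h
      have h1 : (E.N (σ c) ∘ E.N c)^[i] ((E.N (σ c) ∘ E.N c)^[j - i] x) =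
          (E.N (σ c) ∘ E.N c)^[i] x := by
        rw [← Function.iterate_add_apply, Nat.add_sub_cancel' hij.le, h]
      exact p1 c x hx (j - i) (by omega) (by omega) ((rot_inj c (σ c)).iterate i h1)
    intro i hi j hj h
    rcases lt_trichotomy i j with h1 | h1 | h1
    · exact (key i j h1 hj h).elim
    · exact h1
    · exact (key j i h1 hi h.symm).elim
  let Act : κ × V → Prop := fun a => a.1 ∈ F ∧ σ a.1 ≠ a.1 ∧ a.2 ∈ Xc a.1 ∧
    ∀ i < w, E.N a.1 ((E.N (σ a.1) ∘ E.N a.1)^[i] a.2) ≠ (E.N (σ a.1) ∘ E.N a.1)^[i] a.2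
  -- positions
  have hpos : ∀ (a : κ × V) (j : ℕ), ∃ p : ℕ, Act a → j < n → (j * (4 * R) ≤ p ∧
      p < (j + 1) * (4 * R) ∧
      z ((E.N (σ a.1) ∘ E.N a.1)^[p] a.2) = (E.N (σ a.1) ∘ E.N a.1)^[p] a.2 ∧
      z (E.N a.1 ((E.N (σ a.1) ∘ E.N a.1)^[p] a.2)) =
        E.N a.1 ((E.N (σ a.1) ∘ E.N a.1)^[p] a.2)) := by
    rintro ⟨c, x⟩ j
    by_cases hA : Act (c, x) ∧ j < n
    · obtain ⟨hA, hj⟩ := hA
      have hjw : (j + 1) * (4 * R) ≤ w := by
        rw [hwn]; exact Nat.mul_le_mul_right _ hj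
      obtain ⟨o, ho, h1, h2⟩ := eligible hS ht c (σ c) ((E.N (σ c) ∘ E.N c)^[j * (4 * R)] x)
        (by
          intro i hi i' hi' h
          rw [← Function.iterate_add_apply, ← Function.iterate_add_apply] at h
          have h3 : (j + 1) * (4 * R) = j * (4 * R) + 4 * R := by ring
          have := hinj c x hA.2.2.1 (i + j * (4 * R)) (by omega) (i' + j * (4 * R)) (by omega) h
          omega)
      rw [← Function.iterate_add_apply] at h1 h2
      refine ⟨o + j * (4 * R), fun _ _ => ⟨by omega, ?_, h1, h2⟩⟩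
      have h3 : (j + 1) * (4 * R) = j * (4 * R) + 4 * R := by ring
      omega
    · exact ⟨0, fun h1 h2 => (hA ⟨h1, h2⟩).elim⟩
  choose pos hpos using hpos
  have hposw : ∀ a, Act a → ∀ j < n, pos a j < w := by
    intro a ha j hj
    have h1 := (hpos a j ha hj).2.1
    have h2 : (j + 1) * (4 * R) ≤ w := by
      rw [hwn]; exact Nat.mul_le_mul_right _ hj
    omega
  let P : κ × V → Finset (κ × V) := fun a =>
    (range n).image (fun j => (a.1, (E.N (σ a.1) ∘ E.N a.1)^[pos a j] a.2))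
  let S : Finset (κ × V) := univ.filter Act
  have hSm : ∀ a, a ∈ S ↔ Act a := fun a => by simp [S]
  have hPcard : ∀ a ∈ S, 4 * B' ≤ (P a).card := by
    intro a ha
    have ha := (hSm a).1 ha
    simp only [P]
    rw [card_image_of_injOn, card_range]
    intro i hi j hj h
    rw [coe_range, Set.mem_Iio] at hi hj
    have h1 := (Prod.ext_iff.1 h).2
    have h2 := hinj a.1 a.2 ha.2.2.1 _ (hposw a ha i hi) _ (hposw a ha j hj) h1
    obtain ⟨q1, q2, _⟩ := hpos a i ha hi
    obtain ⟨q3, q4, _⟩ := hpos a j ha hj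
    rw [h2] at q1 q2
    have h4 : i * (4 * R) < (j + 1) * (4 * R) := by omega
    have h5 : j * (4 * R) < (i + 1) * (4 * R) := by omega
    have h6 := Nat.lt_of_mul_lt_mul_right h4
    have h7 := Nat.lt_of_mul_lt_mul_right h5
    omega
  have hPdisj : ∀ a ∈ S, ∀ a' ∈ S, a ≠ a' → Disjoint (P a) (P a') := by
    rintro ⟨c, x⟩ ha ⟨c', x'⟩ ha' hne
    have ha := (hSm _).1 ha
    have ha' := (hSm _).1 ha'
    rw [disjoint_left]
    rintro ⟨c'', y⟩ h1 h2
    simp only [P, mem_image, mem_range, Prod.mk.injEq] at h1 h2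
    obtain ⟨j, hj, rfl, h4⟩ := h1
    obtain ⟨j', hj', rfl, h6⟩ := h2
    have hxx : x ≠ x' := fun h => hne (by rw [h])
    exact p2 _ x ha.2.2.1 x' ha'.2.2.1 hxx _ (hposw _ ha j hj) _ (hposw _ ha' j' hj')
      (h4.trans h6.symm)
  -- the conflict graph
  let CG : SimpleGraph (κ × V) :=
    { Adj := fun a a' => a'.2 ∈ ball G (16 * R + 2) a.2 ∧
        ¬ (a.1 = a'.1 ∧ (a'.2 = a.2 ∨ a'.2 = E.N a.1 a.2))
      symm := ⟨by
        rintro ⟨c, y⟩ ⟨c', y'⟩ ⟨h1, h2⟩
        refine ⟨ball_symm h1, ?_⟩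
        rintro ⟨h3, h4⟩
        dsimp only at h2 h3 h4
        subst h3
        refine h2 ⟨rfl, ?_⟩
        rcases h4 with h4 | h4
        · exact Or.inl h4.symm
        · right
          rw [h4, E.inv]⟩
      loopless := ⟨by
        rintro ⟨c, y⟩ ⟨_, h2⟩
        exact h2 ⟨rfl, Or.inl rfl⟩⟩ }
  have hdeg : ∀ i ∈ S, ∀ x ∈ P i, ∑ j ∈ S.erase i, ((P j).filter (fun y => CG.Adj x y)).card ≤
      B' := by
    intro i _ x _
    rw [← card_biUnion]
    · have h1 : (S.erase i).biUnion (fun j => (P j).filter (fun y => CG.Adj x y)) ⊆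
          (univ : Finset κ) ×ˢ ball G (16 * R + 2) x.2 := by
        intro y hy
        rw [mem_biUnion] at hy
        obtain ⟨j, _, hy⟩ := hy
        rw [mem_filter] at hy
        rw [mem_product]
        exact ⟨mem_univ _, hy.2.1⟩
      refine (card_le_card h1).trans ?_
      rw [card_product, card_univ, hκ, hB']
      calc (D + 1) * (ball G (16 * R + 2) x.2).card ≤ (D + 1) * (D + 1) ^ (16 * R + 2) :=
            Nat.mul_le_mul_left _ (card_ball hD _ _)
        _ = (D + 1) ^ (16 * R + 3) := by rw [← pow_succ']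
    · intro j hj j' hj' hne
      exact disjoint_filter_filter (hPdisj j (mem_of_mem_erase hj) j' (mem_of_mem_erase hj') hne)
  have hκne : Nonempty κ := by
    rw [← Fintype.card_pos_iff, hκ]; omega
  obtain ⟨f, hf1, hf2⟩ := Pool.Agent.Helper45.Vu.exists_transversal CG P
    (Classical.arbitrary κ, v0) B' hB'pos S hPcard hdeg
  -- the chosen vertices
  have hY : ∀ a, Act a → ∃ p < w, f a = (a.1, (E.N (σ a.1) ∘ E.N a.1)^[p] a.2) ∧
      E.N a.1 (f a).2 ≠ (f a).2 ∧ z (f a).2 = (f a).2 ∧ z (E.N a.1 (f a).2) = E.N a.1 (f a).2 := by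
    intro a ha
    have h1 := hf1 a ((hSm a).2 ha)
    simp only [P, mem_image, mem_range] at h1
    obtain ⟨j, hj, h2⟩ := h1
    have h3 := hpos a j ha hj
    refine ⟨pos a j, hposw a ha j hj, h2.symm, ?_⟩
    rw [← h2]
    exact ⟨ha.2.2.2 _ (hposw a ha j hj), h3.2.2.1, h3.2.2.2⟩
  let K : κ → V → Prop := fun c y => ∃ x, Act (c, x) ∧ (y = (f (c, x)).2 ∨ y = E.N c (f (c, x)).2)
  refine ⟨F, K, hF, ?_, ?_, ?_, ?_, ?_, ?_⟩
  · rintro c y ⟨x, hx, _⟩
    exact ⟨hx.1, hx.2.1⟩
  · rintro c y ⟨x, hx, h | h⟩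
    · exact ⟨x, hx, Or.inr (by rw [h])⟩
    · exact ⟨x, hx, Or.inl (by rw [h, E.inv])⟩
  · rintro c y ⟨x, hx, h | h⟩
    · obtain ⟨p, _, _, h1, _⟩ := hY _ hx
      rw [h]
      exact h1
    · obtain ⟨p, _, _, h1, _⟩ := hY _ hx
      rw [h, E.inv]
      exact h1.symm
  · rintro c y ⟨x, hx, h | h⟩
    · obtain ⟨p, _, _, _, h1, _⟩ := hY _ hx
      rw [h]
      exact h1
    · obtain ⟨p, _, _, _, _, h1⟩ := hY _ hx
      rw [h]
      exact h1
  · rintro c y c' y' u ⟨x, hx, h⟩ ⟨x', hx', h'⟩ hu hu'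
    have hcase : c' = c ∧ ((f (c', x')).2 = (f (c, x)).2 ∨ (f (c', x')).2 = E.N c (f (c, x)).2) := by
      by_cases hxx : (c, x) = (c', x')
      · rw [Prod.mk.injEq] at hxx
        obtain ⟨rfl, rfl⟩ := hxx
        exact ⟨rfl, Or.inl rfl⟩
      · have h1 := hf2 _ ((hSm _).2 hx) _ ((hSm _).2 hx') hxx
        obtain ⟨p, _, e1, _⟩ := hY _ hx
        obtain ⟨p', _, e1', _⟩ := hY _ hx'
        have g1 : (f (c, x)).1 = c := by rw [e1]
        have g1' : (f (c', x')).1 = c' := by rw [e1']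
        -- distances
        have d1 : y ∈ ball G 1 (f (c, x)).2 := by
          rcases h with h | h
          · rw [h]; exact mem_ball_self _ _
          · rw [h]; exact N_mem_ball hS.sub _ _
        have d2 : (f (c', x')).2 ∈ ball G 1 y' := by
          apply ball_symm
          rcases h' with h | h
          · rw [h]; exact mem_ball_self _ _
          · rw [h]; exact N_mem_ball hS.sub _ _
        have d3 : (f (c', x')).2 ∈ ball G (16 * R + 2) (f (c, x)).2 := by
          have := ball_trans (ball_trans (ball_trans d1 (ball_symm hu)) hu') d2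
          exact ball_mono (by omega) this
        by_contra hcon
        apply h1
        refine ⟨d3, ?_⟩
        rintro ⟨h2, h3⟩
        rw [g1, g1'] at h2
        rw [g1] at h3
        exact hcon ⟨h2.symm, h3⟩
    obtain ⟨rfl, hc⟩ := hcase
    refine ⟨rfl, ?_⟩
    rcases h with rfl | rfl <;> rcases h' with rfl | rfl <;> rcases hc with hc | hc <;>
      simp [hc, E.inv]
  · intro c hc hσc y
    by_cases hlong : ∀ j, 1 ≤ j → j ≤ w → (E.N (σ c) ∘ E.N c)^[j] y ≠ y
    · left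
      obtain ⟨k, hk, hx⟩ := p3 c y hlong
      by_cases hA : Act (c, (E.N (σ c) ∘ E.N c)^[k] y)
      · obtain ⟨p, hp, e1, _⟩ := hY _ hA
        refine ⟨p + k, by omega, Or.inr ⟨_, hA, Or.inl ?_⟩⟩
        rw [e1, Function.iterate_add_apply]
      · have : ∃ i < w, E.N c ((E.N (σ c) ∘ E.N c)^[i] ((E.N (σ c) ∘ E.N c)^[k] y)) =
            (E.N (σ c) ∘ E.N c)^[i] ((E.N (σ c) ∘ E.N c)^[k] y) := by
          by_contra hcon
          push Not at hcon
          exact hA ⟨hc, hσc, hx, hcon⟩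
        obtain ⟨i, hi, h1⟩ := this
        rw [← Function.iterate_add_apply] at h1
        exact ⟨i + k, by omega, Or.inl h1⟩
    · right
      push Not at hlong
      exact hlong

end Pool.TCM
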