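import Pool.Agent.Helper3.TCM.Ball

/-!
CUTB: deleting the cut edges.
-/

set_option autoImplicit false

namespace Pool.TCM

open Pool.TC Finset
open scoped Classical

theorem orbF_swap {V : Type} [Fintype V] (s t : V → V) (x : V) : orbF s t x = orbF t s x := by
  ext y
  simp only [orbF, mem_filter, mem_univ, true_and]
  exact ⟨Reach.swap, Reach.swap⟩

theorem thm_CutB (hOrb : St_Orb) : St_CutB := by
  intro V κ _ G s0 w t σ E z m F K hσ hS hK
  have hKn : ∀ c u, ¬ K c u → ¬ K c (E.N c u) := by
    intro c u h h'
    have := hK.nbr c _ h'
    rw [E.inv] at this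
    exact h this
  let E' : EC κ V :=
    { N := fun c u => if K c u then u else E.N c u
      inv := by
        intro c u
        by_cases h : K c u
        · simp only [h, if_true]
        · simp only [h, if_false, hKn c u h, E.inv]
      uniq := by
        intro a b u h1 h2
        by_cases ha : K a u
        · exact absurd (by simp [ha]) h2
        by_cases hb : K b u
        · simp only [ha, hb, if_true, if_false] at h1 h2
          exact absurd h1 h2
        · simp only [ha, hb, if_false] at h1 h2
          exact E.uniq _ _ _ h1 h2 }
  have eK : ∀ c u, K c u → E'.N c u = u := fun c u h => by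
    show (if K c u then u else E.N c u) = u
    rw [if_pos h]
  have eN : ∀ c u, ¬ K c u → E'.N c u = E.N c u := fun c u h => by
    show (if K c u then u else E.N c u) = E.N c u
    rw [if_neg h]
  have hu : ∀ c c' u, K c u → K c' u → c' = c := fun c c' u h h' =>
    (hK.sep c u c' u u h h' (mem_ball_self _ _) (mem_ball_self _ _)).1
  let z' : V → V := fun u => if h : ∃ c, K c u then E.N h.choose u else z u
  have zK : ∀ c u, K c u → z' u = E.N c u := by
    intro c u h
    have hex : ∃ c, K c u := ⟨c, h⟩
    simp only [z', hex, dif_pos]
    rw [hu c hex.choose u h hex.choose_spec]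
  have zN : ∀ u, (∀ c, ¬ K c u) → z' u = z u := by
    intro u h
    have hex : ¬ ∃ c, K c u := fun ⟨c, hc⟩ => h c hc
    simp only [z', hex, dif_neg, not_false_eq_true]
  have hcut : ∀ c u, E'.N c u = E.N c u ∨ E'.N c u = u := by
    intro c u
    by_cases h : K c u
    · exact Or.inr (eK c u h)
    · exact Or.inl (eN c u h)
  refine ⟨E', z', ⟨?_, ?_, ?_, ?_, ?_, ?_⟩, hcut, ?_⟩
  · intro u
    by_cases h : ∃ c, K c u
    · obtain ⟨c, h⟩ := h
      rw [zK c u h, zK c _ (hK.nbr c u h), E.inv]
    · push Not at h
      rw [zN u h]
      have h1 : ∀ c, ¬ K c (z u) := by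
        intro c hc
        have h2 := hK.fix c _ hc
        rw [hS.zinv] at h2
        rw [← h2] at hc
        exact h c hc
      rw [zN _ h1, hS.zinv]
  · intro u hne
    by_cases h : ∃ c, K c u
    · obtain ⟨c, h⟩ := h
      rw [zK c u h]
      exact hS.sub c u (hK.mv c u h)
    · push Not at h
      rw [zN u h] at hne ⊢
      exact hS.zadj u hne
  · intro a u hne
    have h : ¬ K a u := fun h => hne (eK a u h)
    rw [eN a u h] at hne ⊢
    exact hS.sub a u hne
  · intro u v huv
    rcases hS.cov u v huv with ⟨a, ha⟩ | h1
    · by_cases h : K a u
      · exact Or.inr (by rw [zK a u h, ha])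
      · exact Or.inl ⟨a, by rw [eN a u h, ha]⟩
    · right
      have h2 : ∀ c, ¬ K c u := by
        intro c hc
        have h3 := hK.fix c u hc
        exact huv.ne (h3.symm.trans h1)
      rw [zN u h2, h1]
  · intro v
    rcases hcut (m v) v with h | h
    · rw [h, hS.miss]
    · exact h
  · intro u
    have h1 : ((ball G s0 u).filter (fun x => z' x ≠ x)) ⊆
        ((ball G s0 u).filter (fun x => z x ≠ x)) ∪
        ((ball G s0 u).filter (fun x => ∃ c, K c x)) := by
      intro x hx
      rw [mem_filter] at hx
      rw [mem_union, mem_filter, mem_filter]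
      by_cases h : ∃ c, K c x
      · exact Or.inr ⟨hx.1, h⟩
      · left
        push Not at h
        rw [zN x h] at hx
        exact hx
    have h2 : ((ball G s0 u).filter (fun x => ∃ c, K c x)).card ≤ 2 := by
      rcases ((ball G s0 u).filter (fun x => ∃ c, K c x)).eq_empty_or_nonempty with h | ⟨y, hy⟩
      · rw [h]; simp
      · rw [mem_filter] at hy
        obtain ⟨hy1, c, hc⟩ := hy
        have h3 : ((ball G s0 u).filter (fun x => ∃ c, K c x)) ⊆ {y, E.N c y} := by
          intro x hx
          rw [mem_filter] at hx
          obtain ⟨hx1, c', hc'⟩ := hx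
          have := (hK.sep c y c' x u hc hc' hy1 hx1).2
          rw [mem_insert, mem_singleton]
          exact this
        exact (card_le_card h3).trans card_le_two
    have h3 := (card_le_card h1).trans (card_union_le _ _)
    have h4 := hS.spr u
    omega
  · -- orbits
    have main : ∀ c x, c ∈ F → σ c ≠ c → (orbF (E'.N c) (E'.N (σ c)) x).card ≤ 24 * w + 4 := by
      intro c x hc hσc
      have hKσ : ∀ y, ¬ K (σ c) y := fun y h => (hK.first c hσc).1 hc (hK.mem _ y h).1
      have h1 := hOrb V (E'.N c) (E'.N (σ c)) (3 * w) (E'.inv c) (E'.inv (σ c)) ?_ x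
      · calc _ ≤ 8 * (3 * w) + 4 := h1
          _ = 24 * w + 4 := by ring
      · intro y
        set f := E.N (σ c) ∘ E.N c with hf
        set f' := E'.N (σ c) ∘ E'.N c with hf'
        have hstep : ∀ u, E'.N c u ≠ u → f' u = f u := by
          intro u h
          have h2 : ¬ K c u := fun h3 => h (eK c u h3)
          simp only [hf, hf', Function.comp_apply]
          rw [eN c u h2, eN (σ c) _ (hKσ _)]
        have hiter : ∀ j, (∀ i < j, E'.N c (f^[i] y) ≠ f^[i] y) → f'^[j] y = f^[j] y := by
          intro j
          induction j with
          | zero => intro _; rfl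
          | succ j ih =>
            intro h
            rw [Function.iterate_succ_apply', Function.iterate_succ_apply',
              ih (fun i hi => h i (by omega)), hstep _ (h j (by omega))]
        by_cases hP : ∃ i, i ≤ 3 * w ∧ E'.N c (f^[i] y) = f^[i] y
        · left
          have hfind := Nat.find_spec hP
          refine ⟨Nat.find hP, hfind.1, ?_⟩
          have h2 : f'^[Nat.find hP] y = f^[Nat.find hP] y := by
            apply hiter
            intro i hi h3
            exact Nat.find_min hP hi ⟨by omega, h3⟩
          rw [h2]
          exact hfind.2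
        · right
          push Not at hP
          rcases hK.cover c hc hσc y with ⟨i, hi, h2⟩ | ⟨j, hj1, hj2, h2⟩
          · exfalso
            apply hP i hi
            rcases h2 with h2 | h2
            · rcases hcut c (f^[i] y) with h3 | h3
              · rw [h3]; exact h2
              · exact h3
            · exact eK c _ h2
          · refine ⟨j, hj1, by omega, ?_⟩
            rw [hiter j (fun i hi => hP i (by omega))]
            exact h2
    intro c x
    by_cases hσc : σ c = c
    · have h1 : orbF (E'.N c) (E'.N (σ c)) x ⊆ {x, E'.N c x} := by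
        intro y hy
        simp only [orbF, mem_filter, mem_univ, true_and, hσc] at hy
        have h2 : y ∈ ({x, E'.N c x} : Set V) := by
          refine hy.mem_of_closed ?_ ?_ (Or.inl rfl) <;>
          · rintro u (rfl | rfl)
            · exact Or.inr rfl
            · exact Or.inl (E'.inv c x)
        rw [mem_insert, mem_singleton]
        exact h2
      refine (card_le_card h1).trans (card_le_two.trans ?_)
      omega
    · by_cases hc : c ∈ F
      · exact main c x hc hσc
      · have h1 : σ c ∈ F := by
          by_contra h
          exact hc ((hK.first c hσc).2 h)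
        have h2 : σ (σ c) ≠ σ c := by rw [hσ]; exact fun h => hσc h.symm
        have h3 := main (σ c) x h1 h2
        rw [hσ, orbF_swap] at h3
        exact h3

end Pool.TCM
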