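import Pool.Agent.Helper3.TCM.Defs

/-!
# The end of the construction (module Fin of T3)
-/

set_option autoImplicit false

namespace Pool.TCM

open Pool.TC Finset
open scoped Classical

/-- The edge colouring, given the matching `p`. -/
theorem fin_end {V κ : Type} (G : SimpleGraph V) (E : EC κ V) (z : V → V)
    (τ : V → Bool) (A : Set V) (p : V → V) (c : V → κ)
    (hz : ∀ u, z (z u) = u)
    (hcov : ∀ u v, G.Adj u v → (∃ a, E.N a u = v) ∨ z u = v)
    (hτ : ∀ u, τ (z u) = τ u)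
    (hp1 : ∀ u ∈ A, z (p u) = p u) (hp2 : ∀ u ∈ A, τ (p u) ≠ τ u)
    (hp3 : Set.InjOn p A)
    (hc1 : ∀ u ∈ A, E.N (c u) u = p u) (hc2 : ∀ u, u ∉ A → E.N (c u) u = u) :
    ∃ e : Sym2 V → κ ⊕ Bool,
      (∀ u v w, G.Adj u v → G.Adj u w → v ≠ w → e s(u, v) ≠ e s(u, w)) ∧
      (∀ u v, G.Adj u v → e s(u, v) ≠ Sum.inl (c u)) := by
  let P : Sym2 V → Bool → Prop := fun s b => ∃ u, (s = s(u, p u) ∧ u ∈ A ∧ τ u = b) ∨
    (s = s(u, z u) ∧ z u ≠ u ∧ τ u ≠ b)
  let Q : Sym2 V → κ → Prop := fun s a => ∃ u v, s = s(u, v) ∧ E.N a u = v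
  let e : Sym2 V → κ ⊕ Bool := fun s => if P s true then Sum.inr true else
    if P s false then Sum.inr false else
      if h : ∃ a, Q s a then Sum.inl h.choose else Sum.inr true
  have K1 : ∀ u v b, P s(u, v) b → (u ∈ A ∧ p u = v ∧ τ u = b) ∨ (v ∈ A ∧ p v = u ∧ τ v = b) ∨
      (z u = v ∧ τ u ≠ b) := by
    rintro u v b ⟨u', ⟨h1, h2, h3⟩ | ⟨h1, h2, h3⟩⟩
    · rw [Sym2.eq_iff] at h1
      rcases h1 with ⟨h1, h4⟩ | ⟨h1, h4⟩
      · subst h1
        exact Or.inl ⟨h2, h4.symm, h3⟩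
      · subst h4
        exact Or.inr (Or.inl ⟨h2, h1.symm, h3⟩)
    · rw [Sym2.eq_iff] at h1
      rcases h1 with ⟨h1, h4⟩ | ⟨h1, h4⟩
      · subst h1
        exact Or.inr (Or.inr ⟨h4.symm, h3⟩)
      · subst h4
        refine Or.inr (Or.inr ⟨?_, ?_⟩)
        · rw [h1, hz]
        · rw [h1, hτ]; exact h3
  have K2 : ∀ u v a, Q s(u, v) a → E.N a u = v := by
    rintro u v a ⟨u', v', h1, h2⟩
    rw [Sym2.eq_iff] at h1
    rcases h1 with ⟨h1, h4⟩ | ⟨h1, h4⟩
    · subst h1; subst h4; exact h2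
    · subst h1; subst h4; rw [← h2, E.inv]
  have K3 : ∀ u v, G.Adj u v → ¬ P s(u, v) true → ¬ P s(u, v) false → ∃ a, Q s(u, v) a := by
    intro u v huv h1 h2
    rcases hcov u v huv with ⟨a, ha⟩ | h3
    · exact ⟨a, u, v, rfl, ha⟩
    · exfalso
      have hne : z u ≠ u := by rw [h3]; exact huv.ne'
      by_cases h4 : τ u = true
      · exact h2 ⟨u, Or.inr ⟨by rw [h3], hne, by rw [h4]; decide⟩⟩
      · exact h1 ⟨u, Or.inr ⟨by rw [h3], hne, h4⟩⟩
  have K4 : ∀ u v b, G.Adj u v → e s(u, v) = Sum.inr b → P s(u, v) b := by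
    intro u v b huv h
    by_cases h1 : P s(u, v) true
    · have h2 : e s(u, v) = Sum.inr true := if_pos h1
      rw [h2] at h
      have h3 := Sum.inr.inj h
      rw [← h3]; exact h1
    by_cases h2 : P s(u, v) false
    · have h3 : e s(u, v) = Sum.inr false := (if_neg h1).trans (if_pos h2)
      rw [h3] at h
      have h4 := Sum.inr.inj h
      rw [← h4]; exact h2
    · have h3 := K3 u v huv h1 h2
      have h4 : e s(u, v) = Sum.inl h3.choose :=
        (if_neg h1).trans ((if_neg h2).trans (dif_pos h3))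
      rw [h4] at h
      cases h
  have K5 : ∀ u v a, G.Adj u v → e s(u, v) = Sum.inl a →
      E.N a u = v ∧ ∀ b, ¬ P s(u, v) b := by
    intro u v a huv h
    by_cases h1 : P s(u, v) true
    · have h2 : e s(u, v) = Sum.inr true := if_pos h1
      rw [h2] at h
      cases h
    by_cases h2 : P s(u, v) false
    · have h3 : e s(u, v) = Sum.inr false := (if_neg h1).trans (if_pos h2)
      rw [h3] at h
      cases h
    · have h3 := K3 u v huv h1 h2
      have h4 : e s(u, v) = Sum.inl h3.choose :=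
        (if_neg h1).trans ((if_neg h2).trans (dif_pos h3))
      rw [h4] at h
      have h5 := Sum.inl.inj h
      refine ⟨?_, ?_⟩
      · rw [← h5]; exact K2 u v _ h3.choose_spec
      · rintro (_ | _)
        · exact h2
        · exact h1
  refine ⟨e, ?_, ?_⟩
  · intro u v w huv huw hvw h
    rcases h1 : e s(u, v) with a | b
    · rw [h1] at h
      exact hvw ((K5 u v a huv h1).1.symm.trans (K5 u w a huw h.symm).1)
    · rw [h1] at h
      rcases K1 u v b (K4 u v b huv h1) with ⟨a1, a2, a3⟩ | ⟨a1, a2, a3⟩ | ⟨a1, a2⟩ <;>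
        rcases K1 u w b (K4 u w b huw h.symm) with ⟨b1, b2, b3⟩ | ⟨b1, b2, b3⟩ | ⟨b1, b2⟩
      · exact hvw (a2.symm.trans b2)
      · exact hp2 w b1 (by rw [b2, a3, b3])
      · exact b2 a3
      · exact hp2 v a1 (by rw [a2, a3, b3])
      · exact hvw (hp3 a1 b1 (a2.trans b2.symm))
      · have h2 : z u = u := by rw [← a2]; exact hp1 v a1
        exact huw.ne (h2.symm.trans b1)
      · exact a2 b3
      · have h2 : z u = u := by rw [← b2]; exact hp1 w b1
        exact huv.ne (h2.symm.trans a1)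
      · exact hvw (a1.symm.trans b1)
  · intro u v huv h
    obtain ⟨h1, h2⟩ := K5 u v (c u) huv h
    by_cases hu : u ∈ A
    · rw [hc1 u hu] at h1
      exact h2 (τ u) ⟨u, Or.inl ⟨by rw [h1], hu, rfl⟩⟩
    · rw [hc2 u hu] at h1
      exact huv.ne h1

theorem thm_Fin (hB : St_Bip) (hH : St_Hall) : St_Fin := by
  intro V κ _ _ G D E z F f J S ζ x Lam hD hz hzadj hsub hcov hf hJ hζ hx hLam hexp hlt
  rcases isEmpty_or_nonempty V with hV | hV
  · exact ⟨fun v => (hV.false v).elim, fun _ => Sum.inr true, fun u => (hV.false u).elim,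
      fun u => (hV.false u).elim, fun u => (hV.false u).elim, fun u => (hV.false u).elim⟩
  obtain ⟨v0⟩ := hV
  have hx0 : (0 : ℝ) ≤ x := le_trans (Nat.cast_nonneg _) (hx v0)
  have hsq : (0 : ℝ) ≤ Real.sqrt (S * Lam) := Real.sqrt_nonneg _
  have hζ0 : (0 : ℝ) ≤ (ζ : ℝ) := Nat.cast_nonneg _
  have hS0 : 0 < S := by
    have : (0 : ℝ) < (S : ℝ) := by linarith
    exact_mod_cast this
  -- the sets
  let O : V → Finset V := fun u => univ.filter (fun w => z w = w ∧ w ≠ u ∧ ∃ c ∈ J u, E.N c u = w)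
  let I : V → Finset V := fun v => univ.filter (fun w => ¬ F w ∧ w ≠ v ∧ ∃ c ∈ J w, E.N c w = v)
  let Q : V ⊕ V → Finset V := fun i => match i with
    | Sum.inl u => O u
    | Sum.inr v => I v
  have hOS : ∀ u, (O u).card ≤ S := by
    intro u
    rw [← hJ u]
    refine (Finset.card_le_card (t := (J u).image (fun c => E.N c u)) ?_).trans
      Finset.card_image_le
    intro w hw
    obtain ⟨-, -, c, hc, h⟩ := (Finset.mem_filter.1 hw).2
    exact Finset.mem_image.2 ⟨c, hc, h⟩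
  have hIS : ∀ v, (I v).card ≤ S := by
    intro v
    have h1 : ((I v).card : ℝ) ≤ x := hx v
    have h2 : ((I v).card : ℝ) ≤ S := by linarith
    exact_mod_cast h2
  have hOn : ∀ u, ∀ w ∈ O u, G.Adj u w := by
    intro u w hw
    obtain ⟨-, h1, c, hc, h⟩ := (Finset.mem_filter.1 hw).2
    rw [← h]
    exact hsub c u (by rw [h]; exact h1)
  have hIn : ∀ v, ∀ w ∈ I v, G.Adj v w := by
    intro v w hw
    obtain ⟨-, h1, c, hc, h⟩ := (Finset.mem_filter.1 hw).2
    have h2 : G.Adj w (E.N c w) := hsub c w (by rw [h]; exact h1.symm)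
    rw [h] at h2
    exact h2.symm
  have hnb : ∀ u w, w ∈ nb G u ↔ G.Adj u w := by
    intro u w
    simp [nb]
  have hOD : ∀ u, (O u).card ≤ D := fun u =>
    (Finset.card_le_card (fun w hw => (hnb u w).2 (hOn u w hw))).trans (hD u)
  have hID : ∀ v, (I v).card ≤ D := fun u =>
    (Finset.card_le_card (fun w hw => (hnb u w).2 (hIn u w hw))).trans (hD u)
  have hQS : ∀ i, (Q i).card ≤ S := by
    rintro (u | v)
    · exact hOS u
    · exact hIS v
  have hQD : ∀ i, (Q i).card ≤ D := by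
    rintro (u | v)
    · exact hOD u
    · exact hID v
  have hQN : ∀ w, (univ.filter (fun i => w ∈ Q i)).card ≤ 2 * D := by
    intro w
    have h1 : (univ.filter (fun i => w ∈ Q i)) ⊆ (nb G w).disjSum (nb G w) := by
      rintro (u | v) hi
      · have h2 : w ∈ O u := (Finset.mem_filter.1 hi).2
        exact Finset.mem_disjSum.2 (Or.inl ⟨u, (hnb w u).2 (hOn u w h2).symm, rfl⟩)
      · have h2 : w ∈ I v := (Finset.mem_filter.1 hi).2
        exact Finset.mem_disjSum.2 (Or.inr ⟨v, (hnb w v).2 (hIn v w h2).symm, rfl⟩)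
    have h3 := Finset.card_le_card h1
    rw [Finset.card_disjSum] at h3
    have h4 := hD w
    omega
  have hexp' : 4 * Real.exp (-Lam) * (4 * ((2 * D : ℕ) : ℝ) * (D : ℝ) + 1) ≤ 1 := by
    refine le_trans ?_ hexp
    have h1 : (0 : ℝ) ≤ 4 * Real.exp (-Lam) := by positivity
    refine mul_le_mul_of_nonneg_left ?_ h1
    push_cast
    have h2 : (0 : ℝ) ≤ (D : ℝ) := Nat.cast_nonneg _
    nlinarith
  obtain ⟨τ, hτ, hbal⟩ := hB V (V ⊕ V) z Q S (2 * D) D Lam hz hS0 hQS hQD hQN hLam.le hexp'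
  have hbO : ∀ u b, (((O u).filter (fun w => τ w = b)).card : ℝ) ≤
      ((O u).card : ℝ) / 2 + 2 * Real.sqrt (S * Lam) := fun u b => hbal (Sum.inl u) b
  have hbI : ∀ v b, (((I v).filter (fun w => τ w = b)).card : ℝ) ≤
      ((I v).card : ℝ) / 2 + 2 * Real.sqrt (S * Lam) := fun v b => hbal (Sum.inr v) b
  let A : Finset V := univ.filter (fun u => ¬ F u ∧ ∀ c ∈ J u, E.N c u ≠ u)
  let O' : V → Finset V := fun u => (O u).filter (fun w => ¬ τ w = τ u)
  have hAmem : ∀ u, u ∈ A ↔ (¬ F u ∧ ∀ c ∈ J u, E.N c u ≠ u) := fun u => by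
    simp [A]
  -- the out-degree
  have hOlow : ∀ u ∈ A, (S : ℝ) - ζ ≤ (O u).card := by
    intro u hu
    have hA := ((hAmem u).1 hu).2
    have h1 : ((J u).image (fun c => E.N c u)).card = S := by
      rw [Finset.card_image_of_injOn, hJ u]
      intro c hc c' hc' h
      exact E.uniq c c' u h (hA c hc)
    have h2 : (J u).image (fun c => E.N c u) ⊆ O u ∪ (nb G u).filter (fun v => z v ≠ v) := by
      intro w hw
      obtain ⟨c, hc, h⟩ := Finset.mem_image.1 hw
      have h3 : w ≠ u := by rw [← h]; exact hA c hc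
      by_cases h4 : z w = w
      · exact Finset.mem_union_left _ (Finset.mem_filter.2 ⟨Finset.mem_univ _, h4, h3, c, hc, h⟩)
      · refine Finset.mem_union_right _ (Finset.mem_filter.2 ⟨(hnb u w).2 ?_, h4⟩)
        rw [← h]; exact hsub c u (hA c hc)
    have h5 := (Finset.card_le_card h2).trans (Finset.card_union_le _ _)
    rw [h1] at h5
    have h6 := h5.trans (Nat.add_le_add_left (hζ u) _)
    have h7 : (S : ℝ) ≤ ((O u).card : ℝ) + ζ := by exact_mod_cast h6
    linarith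
  have hO'low : ∀ u ∈ A, ((S : ℝ) - ζ) / 2 - 2 * Real.sqrt (S * Lam) ≤ ((O' u).card : ℝ) := by
    intro u hu
    have h1 := hOlow u hu
    have h2 := hbO u (τ u)
    have h3 : (((O u).filter (fun w => τ w = τ u)).card : ℝ) + ((O' u).card : ℝ) =
        ((O u).card : ℝ) := by
      exact_mod_cast Finset.card_filter_add_card_filter_not (s := O u) (fun w => τ w = τ u)
    linarith
  have hup : ∀ v, ((A.filter (fun u => v ∈ O' u)).card : ℝ) ≤
      ((S : ℝ) - ζ) / 2 - 2 * Real.sqrt (S * Lam) := by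
    intro v
    have h1 : A.filter (fun u => v ∈ O' u) ⊆ (I v).filter (fun w => τ w = !(τ v)) := by
      intro u hu
      obtain ⟨h2, h3⟩ := Finset.mem_filter.1 hu
      obtain ⟨h4, h5⟩ := Finset.mem_filter.1 h3
      obtain ⟨-, h6, h7⟩ := (Finset.mem_filter.1 h4).2
      refine Finset.mem_filter.2 ⟨Finset.mem_filter.2 ⟨Finset.mem_univ _, ((hAmem u).1 h2).1,
        h6.symm, h7⟩, ?_⟩
      revert h5
      cases τ u <;> cases τ v <;> simp
    have h2 : ((A.filter (fun u => v ∈ O' u)).card : ℝ) ≤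
        (((I v).filter (fun w => τ w = !(τ v))).card : ℝ) := by
      exact_mod_cast Finset.card_le_card h1
    have h3 := hbI v (!(τ v))
    have h4 : ((I v).card : ℝ) ≤ x := hx v
    linarith
  obtain ⟨p, hp, hpinj⟩ := hH V A O' (((S : ℝ) - ζ) / 2 - 2 * Real.sqrt (S * Lam))
    (by linarith) hO'low hup
  have hp' : ∀ u ∈ A, z (p u) = p u ∧ (∃ c ∈ J u, E.N c u = p u) ∧ τ (p u) ≠ τ u := by
    intro u hu
    obtain ⟨h1, h2⟩ := Finset.mem_filter.1 (hp u hu)
    obtain ⟨h3, -, h4⟩ := (Finset.mem_filter.1 h1).2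
    exact ⟨h3, h4, h2⟩
  have hc : ∀ u, ∃ c : κ, (F u → c = f u) ∧ (¬ F u → c ∈ J u) ∧ (u ∈ A → E.N c u = p u) ∧
      (u ∉ A → E.N c u = u) := by
    intro u
    by_cases hF : F u
    · have hA : u ∉ A := fun h => ((hAmem u).1 h).1 hF
      exact ⟨f u, fun _ => rfl, fun h => absurd hF h, fun h => absurd h hA, fun _ => hf u hF⟩
    · by_cases hA : u ∈ A
      · obtain ⟨-, ⟨c, hc1, hc2⟩, -⟩ := hp' u hA
        exact ⟨c, fun h => absurd h hF, fun _ => hc1, fun _ => hc2, fun h => absurd hA h⟩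
      · have h1 : ∃ c ∈ J u, E.N c u = u := by
          by_contra h2
          push Not at h2
          exact hA ((hAmem u).2 ⟨hF, h2⟩)
        obtain ⟨c, hc1, hc2⟩ := h1
        exact ⟨c, fun h => absurd h hF, fun _ => hc1, fun h => absurd h hA, fun _ => hc2⟩
  choose c hc1 hc2 hc3 hc4 using hc
  obtain ⟨e, he1, he2⟩ := fin_end G E z τ (A : Set V) p c hz hcov hτ
    (fun u hu => (hp' u hu).1) (fun u hu => (hp' u hu).2.2) hpinj hc3 hc4
  exact ⟨c, e, hc1, hc2, he1, he2⟩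

end Pool.TCM
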