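import Pool.Agent.Helper3.TCM.Defs
import Pool.Agent.Helper60.Gap.McD

/-!
LM: the local lemma for deviations from the mean.
-/

set_option autoImplicit false

namespace Pool.TCM

open Pool.TC Finset
open scoped Classical

/-- McDiarmid's inequality on `T → A`. -/
theorem tail_general {T A : Type} [Fintype T] [Fintype A] [Nonempty A] (F : (T → A) → ℝ)
    (c : T → ℝ) (hc : ∀ t, 0 ≤ c t)
    (hF : ∀ t (ω ω' : T → A), (∀ t', t' ≠ t → ω t' = ω' t') → |F ω - F ω'| ≤ c t) {V lam : ℝ}
    (hV : ∑ t, c t ^ 2 ≤ V) (hV0 : 0 < V) (hlam : 0 ≤ lam) :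
    ((univ.filter (fun ω => lam ≤ F ω - (∑ ω', F ω') / Fintype.card (T → A))).card : ℝ) ≤
      Fintype.card (T → A) * Real.exp (-(lam ^ 2 / (2 * V))) := by
  let a : T ≃ Fin (Fintype.card T) := Fintype.equivFin T
  let b : A ≃ Fin (Fintype.card A) := Fintype.equivFin A
  let Φ : (T → A) ≃ (Fin (Fintype.card T) → Fin (Fintype.card A)) := a.arrowCongr b
  have hcard : (Fintype.card (T → A) : ℝ) = (Fintype.card A : ℝ) ^ Fintype.card T := by
    rw [Fintype.card_fun]
    push_cast
    rfl
  have hmean : ∑ ω', F ω' = ∑ y, F (Φ.symm y) := (Equiv.sum_comp Φ.symm F).symm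
  have hΦ : ∀ (y : Fin (Fintype.card T) → Fin (Fintype.card A)) (t : T),
      (Φ.symm y) t = b.symm (y (a t)) := by
    intro y t
    rfl
  have h1 := Pool.Agent.Helper60.Gap.tail_bound (q := Fintype.card A) Fintype.card_pos
    (n := Fintype.card T) (fun y => F (Φ.symm y)) (fun i => c (a.symm i)) (fun i => hc _)
    (by
      intro i y y' h
      apply hF
      intro t' ht'
      rw [hΦ, hΦ, h (a t') (fun h2 => ht' (by rw [← h2, Equiv.symm_apply_apply]))])
    (V := V) (lam := lam)
    (by
      rw [← Equiv.sum_comp a]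
      simpa using hV) hV0 hlam
  rw [hcard, hmean]
  refine le_trans (le_of_eq ?_) h1
  congr 1
  refine card_bij (fun ω _ => Φ ω) ?_ ?_ ?_
  · intro ω hω
    simp only [mem_filter, mem_univ, true_and] at hω ⊢
    rw [Equiv.symm_apply_apply]
    exact hω
  · intro ω _ ω' _ h
    exact Φ.injective h
  · intro y hy
    refine ⟨Φ.symm y, ?_, by simp⟩
    simp only [mem_filter, mem_univ, true_and] at hy ⊢
    exact hy

/-- A function which does not depend on the coordinates outside `S`. -/
theorem eq_of_agree {T A : Type} [Fintype T] (F : (T → A) → ℝ) (c : T → ℝ) (S : Finset T)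
    (hF : ∀ t (ω ω' : T → A), (∀ t', t' ≠ t → ω t' = ω' t') → |F ω - F ω'| ≤ c t)
    (hS : ∀ t, t ∉ S → c t = 0) (ω ω' : T → A) (h : ∀ t ∈ S, ω t = ω' t) : F ω = F ω' := by
  have key : ∀ U : Finset T, (∀ t ∈ U, t ∉ S) →
      F (fun t => if t ∈ U then ω' t else ω t) = F ω := by
    intro U
    induction U using Finset.induction_on with
    | empty => intro _; simp
    | insert x U hx ih =>
      intro hU
      have h1 := ih (fun t ht => hU t (mem_insert_of_mem ht))
      have h2 := hF x (fun t => if t ∈ insert x U then ω' t else ω t)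
        (fun t => if t ∈ U then ω' t else ω t) (by
          intro t' ht'
          simp only [mem_insert, ht', false_or])
      rw [hS x (hU x (mem_insert_self _ _))] at h2
      have h3 := abs_nonpos_iff.1 h2
      rw [← h1]
      linarith
  rw [← key (univ \ S) (fun t ht => (mem_sdiff.1 ht).2)]
  congr 1
  funext t
  by_cases ht : t ∈ S
  · simp [ht, h t ht]
  · simp [ht]

theorem thm_LM : St_LM := by
  intro T A J _ _ _ _ F c V lam S Lam N h0 h1 h2 h3 h4 h5 h6 h7 h8
  set mean : J → ℝ := fun j => (∑ ω', F j ω') / Fintype.card (T → A) with hmean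
  obtain ⟨ω, hω⟩ := Pool.Agent.SEC.lll S (fun j ω => lam j ≤ F j ω - mean j)
    (by
      intro j ω ω' h
      have := eq_of_agree (F j) (c j) (S j) (h1 j) (h2 j) ω ω' h
      show lam j ≤ F j ω - mean j ↔ lam j ≤ F j ω' - mean j
      rw [this])
    N (by intro j; convert h7 j) (Real.exp (-Lam))
    (by
      intro j
      unfold Pool.Agent.SEC.pr
      have hcard : (0 : ℝ) < Fintype.card (T → A) := by exact_mod_cast Fintype.card_pos
      rw [div_le_iff₀ hcard]
      have h9 := tail_general (F j) (c j) (h0 j) (h1 j) (h3 j) (h4 j) (h5 j)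
      refine le_trans (le_of_eq ?_) (h9.trans ?_)
      · congr!
      · rw [mul_comm]
        refine mul_le_mul_of_nonneg_right ?_ hcard.le
        apply Real.exp_le_exp.2
        rw [neg_le_neg_iff, le_div_iff₀ (by have := h4 j; positivity)]
        have := h6 j
        linarith) h8
  refine ⟨ω, fun j => ?_⟩
  have := hω j
  push Not at this
  show F j ω ≤ mean j + lam j
  linarith

end Pool.TCM
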