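import Pool.Agent.Helper3.TCM.Defs

/-!
MAIN: the theorem from CORE and NUM.
-/

set_option autoImplicit false

namespace Pool.TCM

open Pool.TC Finset
open scoped Classical

/-- Adding the light vertices greedily. -/
theorem greedy_light {V : Type*} [Fintype V] (G : SimpleGraph V) {d : ℕ} (c0 : V → Fin (d + 3))
    (e : Sym2 V → Fin (d + 3))
    (h1 : ∀ u v, d + 2 < 2 * (univ.filter (fun v => G.Adj u v)).card →
      d + 2 < 2 * (univ.filter (fun u => G.Adj v u)).card → G.Adj u v → c0 u ≠ c0 v)
    (h2 : ∀ u v w, G.Adj u v → G.Adj u w → v ≠ w → e s(u, v) ≠ e s(u, w))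
    (h3 : ∀ u v, G.Adj u v → e s(u, v) ≠ c0 u) :
    ∃ c : V → Fin (d + 3), IsTotalColouring G c e := by
  set S : Finset V := univ.filter
      (fun u => d + 2 < 2 * (univ.filter (fun v => G.Adj u v)).card) with hSdef
  have hS : ∀ u, u ∈ S ↔ d + 2 < 2 * (univ.filter (fun v => G.Adj u v)).card := fun u => by
    simp [hSdef]
  have key : ∀ T : Finset V, (∀ u ∈ T, u ∉ S) → ∃ c : V → Fin (d + 3),
      (∀ u ∈ S ∪ T, ∀ v ∈ S ∪ T, G.Adj u v → c u ≠ c v) ∧
      (∀ u ∈ S ∪ T, ∀ v, G.Adj u v → e s(u, v) ≠ c u) := by
    intro T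
    induction T using Finset.induction_on with
    | empty =>
      intro _
      refine ⟨c0, ?_, ?_⟩
      · intro u hu v hv huv
        rw [union_empty] at hu hv
        exact h1 u v ((hS u).1 hu) ((hS v).1 hv) huv
      · intro u _ v huv
        exact h3 u v huv
    | insert w T hwT ih =>
      intro hT
      obtain ⟨c, hc1, hc2⟩ := ih (fun u hu => hT u (mem_insert_of_mem hu))
      have hwS := hT w (mem_insert_self _ _)
      set N : Finset V := univ.filter (fun v => G.Adj w v) with hN
      have hNm : ∀ v, v ∈ N ↔ G.Adj w v := fun v => by simp [hN]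
      have hlight : 2 * N.card ≤ d + 2 := by
        by_contra hcon
        push Not at hcon
        exact hwS ((hS w).2 hcon)
      obtain ⟨a, ha⟩ : ∃ a : Fin (d + 3), a ∉ N.image c ∪ N.image (fun v => e s(w, v)) := by
        by_contra hcon
        push Not at hcon
        have h4 : (univ : Finset (Fin (d + 3))).card ≤
            (N.image c ∪ N.image (fun v => e s(w, v))).card :=
          card_le_card (fun a _ => hcon a)
        rw [card_univ, Fintype.card_fin] at h4
        have h5 := card_union_le (N.image c) (N.image (fun v => e s(w, v)))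
        have h6 : (N.image c).card ≤ N.card := card_image_le
        have h7 : (N.image (fun v => e s(w, v))).card ≤ N.card := card_image_le
        omega
      rw [mem_union, not_or, mem_image, mem_image] at ha
      obtain ⟨ha1, ha2⟩ := ha
      push Not at ha1 ha2
      refine ⟨Function.update c w a, ?_, ?_⟩
      · intro u hu v hv huv
        by_cases huw : u = w
        · subst huw
          rw [Function.update_self, Function.update_of_ne huv.ne.symm]
          exact fun h => ha1 v ((hNm v).2 huv) h.symm
        by_cases hvw : v = w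
        · subst hvw
          rw [Function.update_self, Function.update_of_ne huw]
          exact ha1 u ((hNm u).2 huv.symm)
        rw [Function.update_of_ne huw, Function.update_of_ne hvw]
        refine hc1 u ?_ v ?_ huv
        · simpa [huw] using hu
        · simpa [hvw] using hv
      · intro u hu v huv
        by_cases huw : u = w
        · subst huw
          rw [Function.update_self]
          exact ha2 v ((hNm v).2 huv)
        rw [Function.update_of_ne huw]
        exact hc2 u (by simpa [huw] using hu) v huv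
  obtain ⟨c, hc1, hc2⟩ := key (univ \ S) (fun u hu => (mem_sdiff.1 hu).2)
  have hall : ∀ u, u ∈ S ∪ (univ \ S) := fun u => by
    rw [union_sdiff_of_subset (subset_univ _)]; exact mem_univ _
  exact ⟨c, fun u v huv => hc1 u (hall u) v (hall v) huv, h2, fun u v huv => hc2 u (hall u) v huv⟩

/-- The main theorem for small types. -/
theorem main_zero (hCore : St_Core) (hNum : St_Num) {V : Type} [Fintype V] (G : SimpleGraph V)
    (D k : ℕ) (hD : ∀ u, (univ.filter (fun v => G.Adj u v)).card ≤ D)
    (hk : 2 ^ 80 * k * Nat.log 2 D ^ 10 ≤ D) (C : V → Fin k)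
    (hC : ∀ u v, G.Adj u v → D + 2 < 2 * (univ.filter (fun v => G.Adj u v)).card →
      D + 2 < 2 * (univ.filter (fun u => G.Adj v u)).card → C u ≠ C v) :
    ∃ (c : V → Fin (D + 3)) (e : Sym2 V → Fin (D + 3)), IsTotalColouring G c e := by
  by_cases hD2 : 2 ≤ D
  swap
  · refine total_colouring G hD ?_
    have : univ.filter (fun u => D + 2 < 2 * (univ.filter (fun v => G.Adj u v)).card) = ∅ := by
      rw [filter_eq_empty_iff]
      intro u _ h
      have := hD u
      omega
    rw [this]
    simp
  rcases Nat.eq_zero_or_pos k with hk0 | hk0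
  · subst hk0
    have hV : IsEmpty V := ⟨fun v => (C v).elim0⟩
    exact ⟨fun v => (hV.false v).elim, fun _ => 0, fun u => (hV.false u).elim,
      fun u => (hV.false u).elim, fun u => (hV.false u).elim⟩
  obtain ⟨s, l, ρ, r, t0, Lam, n1, n2, n3, n4, n5, n6, n7, n8, n9, n10, n11⟩ :=
    hNum D k hk0 hk hD2
  -- the class codes
  have hcard : Fintype.card (Fin k) ≤ Fintype.card (Fin (r - 1) → Bool) := by simpa using n6
  obtain ⟨em⟩ := Function.Embedding.nonempty_of_card_le hcard
  let CC : V → Fin l → Bool := fun w i =>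
    if i.val = 0 then true else if h : i.val - 1 < r - 1 then em (C w) ⟨i.val - 1, h⟩ else false
  have hCC : ∀ u v, C u ≠ C v → ∃ i : Fin l, i.val < r ∧ CC u i ≠ CC v i := by
    intro u v huv
    have h1 : em (C u) ≠ em (C v) := fun h => huv (em.injective h)
    obtain ⟨j, hj⟩ := Function.ne_iff.1 h1
    have hj' := j.isLt
    refine ⟨⟨j.val + 1, by omega⟩, by show j.val + 1 < r; omega, ?_⟩
    have h2 : ∀ w, CC w ⟨j.val + 1, by omega⟩ = em (C w) j := by
      intro w
      have h3 : j.val + 1 - 1 < r - 1 := by omega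
      simp only [CC, Nat.add_one_ne_zero, if_false, h3, dif_pos]
      congr 1
    rw [h2, h2]
    exact hj
  obtain ⟨c, e, k1, k2, k3⟩ := hCore V G D s l ρ r t0 CC Lam hD n1 n2 n3 n4 n5
    (by intro w i hi; simp only [CC, hi, if_true]) n7 n8 n9 n10 n11
  -- the colours
  have hcol : Fintype.card (Col s l ρ ⊕ Bool) = D + 3 := by
    simp only [Col, Fintype.card_sum, Fintype.card_prod, Fintype.card_fin, Fintype.card_fun,
      Fintype.card_bool]
    omega
  let φ : Col s l ρ ⊕ Bool ≃ Fin (D + 3) := Fintype.equivFinOfCardEq hcol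
  obtain ⟨c', hc'⟩ := greedy_light G (d := D) (fun u => φ (Sum.inl (c u))) (fun x => φ (e x))
    (by
      intro u v hu hv huv h
      have h1 := Sum.inl_injective (φ.injective h)
      exact k1 u v huv (hCC u v (hC u v huv hu hv)) h1)
    (fun u v w h1 h2 h3 h => k2 u v w h1 h2 h3 (φ.injective h))
    (fun u v h1 h => k3 u v h1 (φ.injective h))
  exact ⟨c', _, hc'⟩

/-- The main theorem. -/
theorem main_theorem (hCore : St_Core) (hNum : St_Num) {V : Type*} [Fintype V]
    (G : SimpleGraph V)
    (D k : ℕ) (hD : ∀ u, (univ.filter (fun v => G.Adj u v)).card ≤ D)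
    (hk : 2 ^ 80 * k * Nat.log 2 D ^ 10 ≤ D) (C : V → Fin k)
    (hC : ∀ u v, G.Adj u v → D + 2 < 2 * (univ.filter (fun v => G.Adj u v)).card →
      D + 2 < 2 * (univ.filter (fun u => G.Adj v u)).card → C u ≠ C v) :
    ∃ (c : V → Fin (D + 3)) (e : Sym2 V → Fin (D + 3)), IsTotalColouring G c e := by
  let φ : V ≃ Fin (Fintype.card V) := Fintype.equivFin V
  let G' : SimpleGraph (Fin (Fintype.card V)) := G.comap φ.symm
  have hadj : ∀ a b, G'.Adj a b ↔ G.Adj (φ.symm a) (φ.symm b) := fun a b => Iff.rfl
  have hdeg : ∀ a, (univ.filter (fun b => G'.Adj a b)).card =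
      (univ.filter (fun v => G.Adj (φ.symm a) v)).card := by
    intro a
    refine card_bij (fun b _ => φ.symm b) ?_ ?_ ?_
    · intro b hb
      simpa [hadj] using hb
    · intro b _ b' _ h
      exact φ.symm.injective h
    · intro v hv
      refine ⟨φ v, ?_, by simp⟩
      simpa [hadj] using hv
  obtain ⟨c, e, hce⟩ := main_zero hCore hNum G' D k
    (by
      intro a
      have h := hD (φ.symm a)
      rw [← hdeg a] at h
      convert h) hk
    (fun a => C (φ.symm a))
    (by
      intro a b hab h1 h2
      refine hC _ _ hab ?_ ?_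
      · rw [← hdeg a]
        convert h1
      · rw [← hdeg b]
        convert h2)
  refine ⟨fun v => c (φ v), fun x => e (x.map φ), ?_, ?_, ?_⟩
  · intro u v huv
    exact hce.vertex_vertex (φ u) (φ v) (by simpa [hadj] using huv)
  · intro u v w h1 h2 h3
    simp only [Sym2.map_mk]
    exact hce.edge_edge (φ u) (φ v) (φ w) (by simpa [hadj] using h1) (by simpa [hadj] using h2)
      (fun h => h3 (φ.injective h))
  · intro u v huv
    simp only [Sym2.map_mk]
    exact hce.vertex_edge (φ u) (φ v) (by simpa [hadj] using huv)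

end Pool.TCM
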