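import Pool.Agent.Helper3.TCM.Defs

/-!
# TCM, module Num (helper21): the parameters
-/

set_option autoImplicit false

namespace Pool.TCM

private theorem Num_exp (D G : ℕ) (hG : 80 ≤ G) (hD : D + 1 ≤ 2 ^ (G + 1)) (hD2 : 2 ≤ D) :
    4 * (2 * (D + 1) ^ 2 * LL D G * (D + 2) + 1) ≤ 2 ^ (17 * G ^ 2) := by
  have h1 : LL D G ≤ 2 ^ (9 + G) * (D + 1) ^ (16 * G + 3) := by
    unfold LL
    have h2 : 1 ≤ (D + 1) ^ (16 * G + 3) := Nat.one_le_pow _ _ (Nat.succ_pos D)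
    have h3 : G ≤ 2 ^ G := Nat.lt_two_pow_self.le
    have h4 : 4 ≤ 4 * G * (D + 1) ^ (16 * G + 3) := by
      have : 1 ≤ G * (D + 1) ^ (16 * G + 3) := Nat.one_le_iff_ne_zero.2
        (Nat.mul_ne_zero (by omega) (by omega))
      nlinarith
    calc 384 * G * (D + 1) ^ (16 * G + 3) + 4
        ≤ 384 * G * (D + 1) ^ (16 * G + 3) + 4 * G * (D + 1) ^ (16 * G + 3) := by omega
      _ = 388 * G * (D + 1) ^ (16 * G + 3) := by ring
      _ ≤ 2 ^ 9 * 2 ^ G * (D + 1) ^ (16 * G + 3) := by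
          apply Nat.mul_le_mul_right
          exact Nat.mul_le_mul (by norm_num) h3
      _ = 2 ^ (9 + G) * (D + 1) ^ (16 * G + 3) := by rw [pow_add 2 9 G]
  have h5 : 1 ≤ 2 ^ (11 + G) * (D + 1) ^ (16 * G + 6) := Nat.one_le_iff_ne_zero.2
    (Nat.mul_ne_zero (by positivity) (by positivity))
  calc 4 * (2 * (D + 1) ^ 2 * LL D G * (D + 2) + 1)
      ≤ 4 * (2 * (D + 1) ^ 2 * (2 ^ (9 + G) * (D + 1) ^ (16 * G + 3)) * (2 * (D + 1)) + 1) := by
        have h6 : D + 2 ≤ 2 * (D + 1) := by omega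
        gcongr
    _ = 4 * (2 ^ (11 + G) * (D + 1) ^ (16 * G + 6) + 1) := by
        have h7 : (D + 1) ^ (16 * G + 6) = (D + 1) ^ 2 * (D + 1) ^ (16 * G + 3) * (D + 1) := by
          rw [← pow_add, ← pow_succ]
          congr 1
          omega
        have h8 : 2 ^ (11 + G) = 4 * 2 ^ (9 + G) := by
          rw [show 11 + G = 2 + (9 + G) by omega, pow_add]
          norm_num
        rw [h7, h8]
        ring
    _ ≤ 4 * (2 ^ (11 + G) * (D + 1) ^ (16 * G + 6) + 2 ^ (11 + G) * (D + 1) ^ (16 * G + 6)) := by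
        gcongr
    _ = 2 ^ (14 + G) * (D + 1) ^ (16 * G + 6) := by
        rw [show 14 + G = 3 + (11 + G) by omega, pow_add 2 3]
        ring
    _ ≤ 2 ^ (14 + G) * (2 ^ (G + 1)) ^ (16 * G + 6) := by gcongr
    _ = 2 ^ (14 + G + (G + 1) * (16 * G + 6)) := by rw [← pow_mul, ← pow_add]
    _ ≤ 2 ^ (17 * G ^ 2) := by
        apply Nat.pow_le_pow_right (by norm_num)
        nlinarith

private theorem Num_fin (G t S : ℝ) (hG : 80 ≤ G) (ht : t = 9 + 6664 * G ^ 2)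
    (hS : 2 ^ 77 * G ^ 10 ≤ S) :
    (8 * G + 2 * (1 + t) + 8) * Real.sqrt (S * (17 * G ^ 2)) + 2 * G < S * (1 / (4 * t)) / 8 := by
  have hS0 : 0 ≤ S := le_trans (by positivity) hS
  obtain ⟨y, hy0, hy⟩ : ∃ y : ℝ, 0 ≤ y ∧ y ^ 2 = S := ⟨Real.sqrt S, Real.sqrt_nonneg S,
    Real.sq_sqrt hS0⟩
  have hG0 : 0 < G := by linarith
  have h1 : Real.sqrt (S * (17 * G ^ 2)) ≤ 5 * G * y := by
    rw [Real.sqrt_le_left (by positivity), ← hy]
    have : 0 ≤ y ^ 2 * G ^ 2 := by positivity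
    nlinarith
  have h2 : 2 ^ 38 * G ^ 5 ≤ y := by
    refine le_of_sq_le_sq ?_ hy0
    rw [hy]
    refine le_trans ?_ hS
    have : 0 ≤ G ^ 10 := by positivity
    nlinarith
  have hGG : 6400 ≤ G ^ 2 := by nlinarith
  have h3 : t ≤ 6666 * G ^ 2 := by rw [ht]; nlinarith
  have ht0 : 0 < t := by rw [ht]; positivity
  have h4 : 8 * G + 2 * (1 + t) + 8 ≤ 13334 * G ^ 2 := by nlinarith
  have h5 : (8 * G + 2 * (1 + t) + 8) * Real.sqrt (S * (17 * G ^ 2)) ≤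
      13334 * G ^ 2 * (5 * G * y) :=
    mul_le_mul h4 h1 (Real.sqrt_nonneg _) (by positivity)
  have hy1 : 0 < y := lt_of_lt_of_le (by positivity) h2
  have h6 : S * (1 / (4 * t)) / 8 = y ^ 2 / (32 * t) := by
    rw [← hy]
    field_simp
    ring
  have h7 : y ^ 2 / (32 * (6666 * G ^ 2)) ≤ y ^ 2 / (32 * t) := by
    apply div_le_div_of_nonneg_left (by positivity) (by positivity)
    linarith
  have h8 : y * G ^ 3 * 1000000 ≤ y ^ 2 / (32 * (6666 * G ^ 2)) := by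
    rw [le_div_iff₀ (by positivity)]
    have h9 : y * (2 ^ 38 * G ^ 5) ≤ y ^ 2 := by
      rw [sq]
      exact mul_le_mul_of_nonneg_left h2 hy0
    have h10 : 0 ≤ y * G ^ 5 := by positivity
    nlinarith
  have h11 : 2 * G ≤ y * G ^ 3 * 2 := by
    have h12 : 1 ≤ y := by
      refine le_trans ?_ h2
      have : 1 ≤ G ^ 5 := one_le_pow₀ (by linarith)
      nlinarith
    have h13 : G ≤ G ^ 3 := by nlinarith
    have h14 : G ^ 3 ≤ y * G ^ 3 := by
      have : 0 ≤ G ^ 3 := by positivity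
      nlinarith
    linarith
  have h15 : 0 < y * G ^ 3 := by positivity
  rw [h6]
  calc (8 * G + 2 * (1 + t) + 8) * Real.sqrt (S * (17 * G ^ 2)) + 2 * G
      ≤ 13334 * G ^ 2 * (5 * G * y) + y * G ^ 3 * 2 := add_le_add h5 h11
    _ = y * G ^ 3 * 66672 := by ring
    _ < y * G ^ 3 * 1000000 := by nlinarith
    _ ≤ y ^ 2 / (32 * t) := h8.trans h7

theorem thm_Num : St_Num := by
  intro D k hk hD hD2
  set G := Nat.log 2 D with hGdef
  have hG1 : 1 ≤ G := Nat.log_pos (by norm_num) hD2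
  have h80 : 2 ^ 80 ≤ D := by
    refine le_trans ?_ hD
    have : 1 ≤ k * G ^ 10 := Nat.one_le_iff_ne_zero.2
      (Nat.mul_ne_zero (by omega) (by positivity))
    nlinarith
  have hG : 80 ≤ G := Nat.le_log_of_pow_le (by norm_num) h80
  have hlow : 2 ^ G ≤ D := Nat.pow_log_le_self 2 (by omega)
  have hup : D < 2 ^ (G + 1) := Nat.lt_pow_succ_log_self (by norm_num) D
  obtain ⟨l, hl⟩ : ∃ l, G = l + 1 := ⟨G - 1, by omega⟩
  have hl2 : 2 ^ G = 2 * 2 ^ l := by rw [hl, pow_succ]; ring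
  have hl4 : 2 ^ (G + 1) = 4 * 2 ^ l := by rw [pow_succ, hl2]; ring
  have hlp : 0 < 2 ^ l := by positivity
  have hGp : 1 ≤ G ^ 10 := Nat.one_le_pow _ _ (by omega)
  have hk1 : k ≤ 2 ^ (l - 1) := by
    have h1 : 2 ^ (G + 1) = 8 * 2 ^ (l - 1) := by
      rw [show G + 1 = 3 + (l - 1) by omega, pow_add]
      norm_num
    have h2 : 2 ^ 80 * k ≤ 2 ^ 80 * k * G ^ 10 := Nat.le_mul_of_pos_right _ hGp
    omega
  set r := Nat.clog 2 k + 1 with hr
  have hcl : Nat.clog 2 k ≤ l - 1 := Nat.clog_le_of_le_pow hk1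
  have hrl : r ≤ l := by omega
  have hkr : k ≤ 2 ^ (r - 1) := by
    rw [hr, Nat.add_sub_cancel]
    exact Nat.le_pow_clog (by norm_num) k
  have hkr2 : 2 ^ (r - 1) ≤ 2 * k := by
    rw [hr, Nat.add_sub_cancel]
    rcases Nat.lt_or_ge 1 k with h1 | h1
    · have h2 := Nat.pow_pred_clog_lt_self (b := 2) (by norm_num) h1
      have h3 : 0 < Nat.clog 2 k := Nat.clog_pos (by norm_num) h1
      have h4 : 2 ^ Nat.clog 2 k = 2 ^ (Nat.clog 2 k).pred * 2 := by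
        rw [← pow_succ]
        congr 1
        exact (Nat.succ_pred_eq_of_pos h3).symm
      omega
    · have h2 : k = 1 := by omega
      rw [h2, Nat.clog_one_right]
      norm_num
  set s := (D + 1) / 2 ^ l with hs
  set ρ := (D + 1) % 2 ^ l with hρ
  have hsρ : s * 2 ^ l + ρ = D + 1 := Nat.div_add_mod' (D + 1) (2 ^ l)
  have hρl : ρ < 2 ^ l := Nat.mod_lt _ hlp
  have hs2 : 2 ≤ s := by
    rw [hs, Nat.le_div_iff_mul_le hlp]
    omega
  have hS : 2 ^ 77 * G ^ 10 ≤ s * 2 ^ (l - r) := by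
    have h1 : 2 ^ l = 2 ^ (l - r) * (2 * 2 ^ (r - 1)) := by
      rw [← pow_succ', ← pow_add]
      congr 1
      omega
    have h2 : D ≤ 2 * (s * 2 ^ l) := by omega
    have h3 : 2 * (s * 2 ^ l) = 4 * (s * 2 ^ (l - r) * 2 ^ (r - 1)) := by
      rw [h1]
      ring
    have h4 : s * 2 ^ (l - r) * 2 ^ (r - 1) ≤ s * 2 ^ (l - r) * (2 * k) :=
      Nat.mul_le_mul_left _ hkr2
    have h5 : 8 * k * (2 ^ 77 * G ^ 10) ≤ 8 * k * (s * 2 ^ (l - r)) := by
      calc 8 * k * (2 ^ 77 * G ^ 10) = 2 ^ 80 * k * G ^ 10 := by ring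
        _ ≤ D := hD
        _ ≤ 4 * (s * 2 ^ (l - r) * 2 ^ (r - 1)) := by rw [← h3]; exact h2
        _ ≤ 4 * (s * 2 ^ (l - r) * (2 * k)) := Nat.mul_le_mul_left _ h4
        _ = 8 * k * (s * 2 ^ (l - r)) := by ring
    exact Nat.le_of_mul_le_mul_left h5 (by omega)
  have hGl : ((l : ℝ) + 1) = G := by
    rw [hl]
    push_cast
    ring
  have hGR : (80 : ℝ) ≤ G := by exact_mod_cast hG
  refine ⟨s, l, ρ, r, 9 + 6664 * G ^ 2, 17 * (G : ℝ) ^ 2, hs2, hρl.le, hsρ, by omega, hrl, hkr,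
    by positivity, by positivity, ?_, ?_, ?_⟩
  · have h1 := Num_exp D G hG (by omega) hD2
    rw [← hl]
    have h2 : (4 : ℝ) * (2 * ((D : ℝ) + 1) ^ 2 * LL D G * (D + 2) + 1) ≤ 2 ^ (17 * G ^ 2) := by
      exact_mod_cast h1
    have h3 : (2 : ℝ) ^ (17 * G ^ 2) ≤ Real.exp (17 * (G : ℝ) ^ 2) := by
      have h4 : Real.exp (17 * (G : ℝ) ^ 2) = Real.exp 1 ^ (17 * G ^ 2) := by
        rw [Real.exp_one_pow]
        push_cast
        rfl
      rw [h4]
      apply pow_le_pow_left₀ (by norm_num)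
      have := Real.add_one_le_exp (1 : ℝ)
      linarith
    rw [Real.exp_neg]
    have h5 : 0 < Real.exp (17 * (G : ℝ) ^ 2) := Real.exp_pos _
    have h6 : 4 * (Real.exp (17 * (G : ℝ) ^ 2))⁻¹ *
        (2 * ((D : ℝ) + 1) ^ 2 * LL D G * (D + 2) + 1) =
        (4 * (2 * ((D : ℝ) + 1) ^ 2 * LL D G * (D + 2) + 1)) / Real.exp (17 * (G : ℝ) ^ 2) := by
      field_simp
    rw [h6, div_le_one h5]
    exact h2.trans h3
  · set a := Real.sqrt (D + 1) * (1 / Real.sqrt 2) ^ l with ha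
    set b := 14 * Real.sqrt (17 * (G : ℝ) ^ 2) with hb
    have h1 : a ^ 2 ≤ 4 := by
      rw [ha, mul_pow, Real.sq_sqrt (by positivity), ← pow_mul, mul_comm l 2, pow_mul, div_pow,
        Real.sq_sqrt (by norm_num), one_pow, div_pow, one_pow, mul_one_div,
        div_le_iff₀ (by positivity)]
      have h2 : D + 1 ≤ 4 * 2 ^ l := by omega
      exact_mod_cast h2
    have h2 : b ^ 2 = 196 * (17 * (G : ℝ) ^ 2) := by
      rw [hb, mul_pow, Real.sq_sqrt (by positivity)]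
      norm_num
    have h3 : (a + b) ^ 2 ≤ 2 * a ^ 2 + 2 * b ^ 2 := by nlinarith [sq_nonneg (a - b)]
    push_cast
    nlinarith
  · rw [hGl]
    refine Num_fin G _ _ hGR ?_ ?_
    · push_cast
      ring
    · exact_mod_cast hS

end Pool.TCM
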