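import Pool.Agent.Helper3.TCM.Defs

/-!
PACK and ORB: windows in the cycles of an injective map, orbits of two involutions.
-/

set_option autoImplicit false

namespace Pool.TCM

open Pool.TC Finset
open scoped Classical

theorem thm_Pack : St_Pack := by
  intro V _ f w hf hw
  let P : Finset V → Prop := fun X => (∀ x ∈ X, ∀ j, 1 ≤ j → j ≤ w → f^[j] x ≠ x) ∧
    (∀ x ∈ X, ∀ x' ∈ X, x ≠ x' → ∀ i < w, ∀ j < w, f^[i] x ≠ f^[j] x')
  have hne : (univ.filter P).Nonempty := ⟨∅, by simp [P]⟩
  obtain ⟨X, hX, hmax⟩ := exists_max_image (univ.filter P) card hne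
  simp only [mem_filter, mem_univ, true_and] at hX hmax
  refine ⟨X, hX.1, hX.2, ?_⟩
  intro y hy
  set y' := f^[w] y with hy'
  have hlong : ∀ j, 1 ≤ j → j ≤ w → f^[j] y' ≠ y' := by
    intro j h1 h2 h
    apply hy j h1 h2
    apply hf.iterate w
    rw [← hy', ← h, hy', ← Function.iterate_add_apply, ← Function.iterate_add_apply, add_comm]
  by_cases hmem : y' ∈ X
  · exact ⟨w, by omega, hmem⟩
  · by_contra hcon
    push Not at hcon
    have hP : P (insert y' X) := by
      refine ⟨?_, ?_⟩
      · intro x hx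
        rcases mem_insert.1 hx with rfl | hx
        · exact hlong
        · exact hX.1 x hx
      · have key : ∀ x ∈ X, ∀ i < w, ∀ j < w, f^[i] y' ≠ f^[j] x := by
          intro x hx i hi j hj h
          have h1 : f^[j] (f^[i + w - j] y) = f^[j] x := by
            rw [← Function.iterate_add_apply, ← h, hy', ← Function.iterate_add_apply,
              show j + (i + w - j) = i + w by omega]
          have h2 := hf.iterate j h1
          exact hcon (i + w - j) (by omega) (by rw [h2]; exact hx)
        intro x hx x' hx' hne i hi j hj h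
        rcases mem_insert.1 hx with rfl | hx
        · rcases mem_insert.1 hx' with rfl | hx'
          · exact hne rfl
          · exact key x' hx' i hi j hj h
        · rcases mem_insert.1 hx' with rfl | hx'
          · exact key x hx j hj i hi h.symm
          · exact hX.2 x hx x' hx' hne i hi j hj h
    have h1 := hmax _ hP
    rw [card_insert_of_notMem hmem] at h1
    omega

theorem thm_Orb : St_Orb := by
  intro V _ s t N hs ht hN y
  let S : Equiv.Perm V := ⟨s, s, hs, hs⟩
  let T : Equiv.Perm V := ⟨t, t, ht, ht⟩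
  let R : Equiv.Perm V := T * S
  have hSS : S * S = 1 := Equiv.ext fun u => hs u
  have hTT : T * T = 1 := Equiv.ext fun u => ht u
  have hSi : S⁻¹ = S := inv_eq_of_mul_eq_one_left hSS
  have hTi : T⁻¹ = T := inv_eq_of_mul_eq_one_left hTT
  have hRi : R⁻¹ = S * T := by
    show (T * S)⁻¹ = S * T
    rw [mul_inv_rev, hSi, hTi]
  have hcS : S * R * S⁻¹ = R⁻¹ := by
    rw [hRi, hSi]
    show S * (T * S) * S = S * T
    rw [mul_assoc, mul_assoc, hSS, mul_one]
  have hcT : T * R * T⁻¹ = R⁻¹ := by
    rw [hRi, hTi]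
    show T * (T * S) * T = S * T
    rw [← mul_assoc, hTT, one_mul]
  have hpS : ∀ k : ℤ, S * R ^ k = R ^ (-k) * S := by
    intro k
    have := congrArg (· ^ k) hcS
    simp only [conj_zpow, inv_zpow'] at this
    rw [mul_inv_eq_iff_eq_mul] at this
    exact this
  have hpT : ∀ k : ℤ, T * R ^ k = R ^ (-k) * T := by
    intro k
    have := congrArg (· ^ k) hcT
    simp only [conj_zpow, inv_zpow'] at this
    rw [mul_inv_eq_iff_eq_mul] at this
    exact this
  have aS : ∀ (k : ℤ) x, s ((R ^ k) x) = (R ^ (-k)) (s x) := by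
    intro k x
    exact congrArg (fun g : Equiv.Perm V => g x) (hpS k)
  have aT : ∀ (k : ℤ) x, t ((R ^ k) x) = (R ^ (-k)) (t x) := by
    intro k x
    exact congrArg (fun g : Equiv.Perm V => g x) (hpT k)
  have hR1 : ∀ x, (R ^ (1 : ℤ)) x = t (s x) := fun x => by rw [zpow_one]; rfl
  have hadd : ∀ (a b : ℤ) x, (R ^ a) ((R ^ b) x) = (R ^ (a + b)) x := by
    intro a b x
    rw [zpow_add]; rfl
  have hiter : ∀ (i : ℕ) x, (t ∘ s)^[i] x = (R ^ (i : ℤ)) x := by
    intro i x
    induction i with
    | zero => simp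
    | succ i ih =>
      rw [Function.iterate_succ_apply', ih]
      show t (s _) = _
      rw [← hR1, hadd]
      congr 2
      push_cast
      ring
  -- a period
  obtain ⟨p, hp1, hp2, hp3⟩ : ∃ p : ℕ, 1 ≤ p ∧ p ≤ 4 * N + 2 ∧ (R ^ (p : ℤ)) y = y := by
    rcases hN y with ⟨i, hi, h1⟩ | ⟨i, hi1, hi2, h1⟩
    · rcases hN (t y) with ⟨j, hj, h2⟩ | ⟨j, hj1, hj2, h2⟩
      · rw [hiter] at h1 h2
        -- s y = R ^ (2 i) y
        have h3 : s y = (R ^ (2 * (i : ℤ))) y := by
          rw [aS] at h1
          have := congrArg (R ^ (i : ℤ)) h1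
          rw [hadd, hadd] at this
          rw [show (i : ℤ) + -(i : ℤ) = 0 by ring, zpow_zero, Equiv.Perm.one_apply] at this
          rw [this]
          congr 2
          ring
        -- t y = R ^ (-2 j - 1) y
        have h4 : t y = (R ^ (-(2 * (j : ℤ) + 1))) y := by
          have h5 : (R ^ (j : ℤ)) (t y) = t ((R ^ (-(j : ℤ))) y) := by
            rw [aT, neg_neg]
          rw [h5] at h2
          have h6 : ∀ x, s (t x) = (R ^ (-1 : ℤ)) x := by
            intro x
            rw [zpow_neg_one, hRi]; rfl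
          rw [h6, hadd, aT, neg_neg] at h2
          have := congrArg (R ^ (-(j : ℤ))) h2
          rw [hadd, hadd] at this
          rw [show -(j : ℤ) + (j : ℤ) = 0 by ring, zpow_zero, Equiv.Perm.one_apply] at this
          rw [← this]
          congr 2
          ring
        refine ⟨2 * i + 2 * j + 2, by omega, by omega, ?_⟩
        have h5 : (R ^ (1 : ℤ)) y = (R ^ (-(2 * (i : ℤ)) + -(2 * (j : ℤ) + 1))) y := by
          rw [hR1, h3, aT, h4, hadd]
        have := congrArg (R ^ (2 * (i : ℤ) + (2 * (j : ℤ) + 1))) h5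
        rw [hadd, hadd] at this
        rw [show 2 * (i : ℤ) + (2 * (j : ℤ) + 1) + (-(2 * (i : ℤ)) + -(2 * (j : ℤ) + 1)) = 0 by
          ring, zpow_zero, Equiv.Perm.one_apply] at this
        refine Eq.trans ?_ this
        rw [show ((2 * i + 2 * j + 2 : ℕ) : ℤ) = 2 * (i : ℤ) + (2 * (j : ℤ) + 1) + 1 by
          push_cast; ring]
      · refine ⟨j, hj1, by omega, ?_⟩
        rw [hiter] at h2
        have h5 : (R ^ (j : ℤ)) (t y) = t ((R ^ (-(j : ℤ))) y) := by
          rw [aT, neg_neg]
        rw [h5] at h2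
        have h6 := congrArg t h2
        rw [ht, ht] at h6
        have := congrArg (R ^ (j : ℤ)) h6
        rw [hadd, show (j : ℤ) + -(j : ℤ) = 0 by ring, zpow_zero, Equiv.Perm.one_apply] at this
        exact this.symm
    · exact ⟨i, hi1, by omega, by rw [← hiter]; exact h1⟩
  have hmod : ∀ k : ℤ, ∃ i < p, (R ^ k) y = (R ^ (i : ℤ)) y := by
    intro k
    have hp0 : (0 : ℤ) < p := by exact_mod_cast hp1
    have hnn := Int.emod_nonneg k hp0.ne'
    have hlt := Int.emod_lt_of_pos k hp0
    refine ⟨(k % p).toNat, by omega, ?_⟩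
    have h1 : ((k % p).toNat : ℤ) = k % p := Int.toNat_of_nonneg hnn
    rw [h1]
    have h2 : k = k % p + p * (k / p) := (Int.emod_add_mul_ediv k p).symm
    conv_lhs => rw [h2]
    rw [← hadd, zpow_mul]
    congr 1
    exact Equiv.Perm.zpow_apply_eq_self_of_apply_eq_self hp3 _
  have hsub : orbF s t y ⊆ (range p).image (fun i : ℕ => (R ^ (i : ℤ)) y) ∪
      (range p).image (fun i : ℕ => s ((R ^ (i : ℤ)) y)) := by
    intro u hu
    have hu : Reach s t y u := by simpa [orbF] using hu
    have h1 : u ∈ {u | ∃ k : ℤ, u = (R ^ k) y ∨ u = s ((R ^ k) y)} := by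
      refine hu.mem_of_closed ?_ ?_ ⟨0, by simp⟩
      · rintro v ⟨k, hv | hv⟩
        · exact ⟨k, Or.inr (by rw [hv])⟩
        · exact ⟨k, Or.inl (by rw [hv, hs])⟩
      · rintro v ⟨k, hv | hv⟩
        · refine ⟨k - 1, Or.inr ?_⟩
          rw [hv, aT, aS]
          have h6 : t y = (R ^ (1 : ℤ)) (s y) := by rw [hR1, hs]
          rw [h6, hadd]
          congr 2
          ring
        · refine ⟨k + 1, Or.inl ?_⟩
          rw [hv, ← hR1, hadd, add_comm]
    obtain ⟨k, hk⟩ := h1
    obtain ⟨i, hi, h2⟩ := hmod k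
    rw [mem_union, mem_image, mem_image]
    rcases hk with hk | hk
    · exact Or.inl ⟨i, mem_range.2 hi, by rw [hk, h2]⟩
    · exact Or.inr ⟨i, mem_range.2 hi, by rw [hk, h2]⟩
  refine (card_le_card hsub).trans ((card_union_le _ _).trans ?_)
  have h1 : ((range p).image (fun i : ℕ => (R ^ (i : ℤ)) y)).card ≤ p :=
    card_image_le.trans (card_range p).le
  have h2 : ((range p).image (fun i : ℕ => s ((R ^ (i : ℤ)) y))).card ≤ p :=
    card_image_le.trans (card_range p).le
  omega

end Pool.TCM
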