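import Pool.Agent.Helper3.TCM.Defs

/-!
RUN: all mixing rounds.
-/

set_option autoImplicit false

namespace Pool.TCM

open Pool.TC Finset
open scoped Classical

section tools

variable {V κ : Type} [Fintype V]

theorem Tav_nonneg {σ : κ → κ} {g : V → κ → κ → ℝ} (hg : ∀ w c m, 0 ≤ g w c m) (w : V) (c m : κ) :
    0 ≤ Tav σ g w c m := by
  unfold Tav
  split_ifs
  · have h1 := hg w c m
    have h2 := hg w m c
    linarith
  · have h1 := hg w c m
    have h2 := hg w (σ c) m
    have h3 := hg w c (σ m)
    have h4 := hg w (σ c) (σ m)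
    linarith

theorem Tav_le_one {σ : κ → κ} {g : V → κ → κ → ℝ} (hg : ∀ w c m, g w c m ≤ 1) (w : V) (c m : κ) :
    Tav σ g w c m ≤ 1 := by
  unfold Tav
  split_ifs
  · have h1 := hg w c m
    have h2 := hg w m c
    linarith
  · have h1 := hg w c m
    have h2 := hg w (σ c) m
    have h3 := hg w c (σ m)
    have h4 := hg w (σ c) (σ m)
    linarith

/-- deleting edges decreases the sum -/
theorem X_cut [Fintype κ] {E E' : EC κ V} (h : ∀ c u, E'.N c u = E.N c u ∨ E'.N c u = u)
    {m : V → κ} {g : V → κ → κ → ℝ} (hg : ∀ w c m, 0 ≤ g w c m) (v : V) :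
    X E' m g v ≤ X E m g v := by
  unfold X
  refine sum_le_sum (fun c _ => ?_)
  rcases h c v with h1 | h1
  · rw [h1]
  · rw [if_pos h1]
    split_ifs
    · exact le_refl _
    · exact hg _ _ _

/-- monotonicity in the test function -/
theorem X_mono [Fintype κ] {E : EC κ V} {m : V → κ} (hm : ∀ w, E.N (m w) w = w)
    {g g' : V → κ → κ → ℝ} (h : ∀ w c m, m ≠ c → g w c m ≤ g' w c m) (v : V) :
    X E m g v ≤ X E m g' v := by
  unfold X
  refine sum_le_sum (fun c _ => ?_)
  split_ifs with h1
  · exact le_refl _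
  · refine h _ _ _ ?_
    intro h2
    apply h1
    have h3 := hm (E.N c v)
    rw [h2, E.inv] at h3
    exact h3.symm

theorem X_le_card [Fintype κ] {E : EC κ V} {m : V → κ} {g : V → κ → κ → ℝ}
    (h : ∀ w c m, g w c m ≤ 1) (v : V) : X E m g v ≤ Fintype.card κ := by
  unfold X
  calc (∑ c, if E.N c v = v then 0 else g (E.N c v) c (m (E.N c v)))
      ≤ ∑ _c : κ, (1 : ℝ) := by
        refine sum_le_sum (fun c _ => ?_)
        split_ifs
        · exact zero_le_one
        · exact h _ _ _
    _ = Fintype.card κ := by simp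

/-- one complete round -/
theorem round [Fintype κ] (hA : St_CutA) (hB : St_CutB) (hC : St_Coin) {I : Type} [Fintype I]
    {G : SimpleGraph V} {D R t : ℕ} {σ : κ → κ} {E : EC κ V} {z : V → V} {m : V → κ}
    (hD : ∀ u, (nb G u).card ≤ D) (hκ : Fintype.card κ = D + 1) (hσ : ∀ c, σ (σ c) = c)
    (hS : Stt G (8 * R) E z m t) (ht : t < R) {g : I → V → κ → κ → ℝ} {b : I → ℝ} {Lam : ℝ}
    (hg0 : ∀ i w c m, 0 ≤ g i w c m) (hg1 : ∀ i w c m, g i w c m ≤ 1) (hb : ∀ i, 0 < b i)
    (hX : ∀ i v, X E m (Tav σ (g i)) v ≤ b i) (hL : 0 ≤ Lam)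
    (hI : Fintype.card I ≤ D + 2)
    (hexp : 4 * Real.exp (-Lam) * (2 * ((D : ℝ) + 1) ^ 2 * LL D R * (D + 2) + 1) ≤ 1) :
    ∃ (E' : EC κ V) (z' : V → V) (m' : V → κ), Stt G (8 * R) E' z' m' (t + 1) ∧
      ∀ i v, X E' m' (g i) v ≤ b i + 8 * Real.sqrt (b i * Lam) := by
  obtain ⟨F, K, hK⟩ := hA V κ G D R t σ E z m hD hκ hσ hS ht
  obtain ⟨E1, z1, hS1, hcut, horb⟩ := hB V κ G (8 * R) _ t σ E z m F K hσ hS hK
  have hLL : 24 * (16 * R * (D + 1) ^ (16 * R + 3)) + 4 = LL D R := by
    unfold LL; ring
  obtain ⟨E2, m2, hm2, k1, k2, k3⟩ := hC V κ I E1 σ m (LL D R) Lam g b hσ hS1.miss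
    (fun c x => by rw [← hLL]; exact horb c x) hg0 hg1 hb
    (fun i v => (X_cut hcut (fun w c m => Tav_nonneg (hg0 i) w c m) v).trans (hX i v)) hL
    (by
      refine le_trans ?_ hexp
      rw [hκ]
      have h1 : (Fintype.card I : ℝ) ≤ D + 2 := by exact_mod_cast hI
      push_cast
      gcongr)
  refine ⟨E2, z1, m2, ⟨hS1.zinv, hS1.zadj, ?_, ?_, hm2, hS1.spr⟩, k3⟩
  · intro a u h
    obtain ⟨a', ha'⟩ := k1 a u
    rw [ha'] at h ⊢
    exact hS1.sub _ _ h
  · intro u v h
    rcases hS1.cov u v h with ⟨a, ha⟩ | h1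
    · obtain ⟨a', ha'⟩ := k2 a u
      exact Or.inl ⟨a', by rw [ha', ha]⟩
    · exact Or.inr h1

end tools

/-- the bound for the number of neighbours with a given missing colour -/
noncomputable def uY (D : ℕ) (Lam : ℝ) (j : ℕ) : ℝ :=
  Real.sqrt (D + 1) * (1 / Real.sqrt 2) ^ j + 14 * Real.sqrt Lam

theorem uY_pos (D : ℕ) (Lam : ℝ) (j : ℕ) : 0 < uY D Lam j := by
  unfold uY
  have h1 : 0 < Real.sqrt ((D : ℝ) + 1) := Real.sqrt_pos.2 (by positivity)
  have h2 := Real.sqrt_nonneg Lam
  positivity

theorem uY_step (D : ℕ) {Lam : ℝ} (hL : 0 ≤ Lam) (j : ℕ) :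
    uY D Lam j ^ 2 / 2 + 8 * Real.sqrt (uY D Lam j ^ 2 / 2 * Lam) ≤ uY D Lam (j + 1) ^ 2 := by
  have hs2 : Real.sqrt 2 * Real.sqrt 2 = 2 := Real.mul_self_sqrt (by norm_num)
  have hs2p : 0 < Real.sqrt 2 := Real.sqrt_pos.2 (by norm_num)
  have hu := uY_pos D Lam j
  have h1 : Real.sqrt (uY D Lam j ^ 2 / 2 * Lam) = uY D Lam j * (1 / Real.sqrt 2) *
      Real.sqrt Lam := by
    rw [Real.sqrt_mul (by positivity), Real.sqrt_div (by positivity), Real.sqrt_sq hu.le]
    ring
  have h2 : uY D Lam j * (1 / Real.sqrt 2) + 4 * Real.sqrt Lam ≤ uY D Lam (j + 1) := by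
    unfold uY
    rw [pow_succ]
    have h3 : 14 * Real.sqrt Lam * (1 / Real.sqrt 2) ≤ 10 * Real.sqrt Lam := by
      have h4 : (1 / Real.sqrt 2) ≤ 5 / 7 := by
        rw [div_le_iff₀ hs2p]
        nlinarith [Real.sqrt_nonneg 2]
      have h5 := Real.sqrt_nonneg Lam
      nlinarith
    linarith [h3]
  have h3 : 0 ≤ uY D Lam j * (1 / Real.sqrt 2) + 4 * Real.sqrt Lam := by
    have := Real.sqrt_nonneg Lam
    positivity
  have h4 : (1 / Real.sqrt 2) * (1 / Real.sqrt 2) = 1 / 2 := by
    rw [div_mul_div_comm, hs2]; norm_num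
  rw [h1]
  calc uY D Lam j ^ 2 / 2 + 8 * (uY D Lam j * (1 / Real.sqrt 2) * Real.sqrt Lam)
      ≤ (uY D Lam j * (1 / Real.sqrt 2) + 4 * Real.sqrt Lam) ^ 2 := by
        have h5 : (uY D Lam j * (1 / Real.sqrt 2)) ^ 2 = uY D Lam j ^ 2 / 2 := by
          rw [mul_pow, pow_two (1 / Real.sqrt 2), h4]; ring
        have h6 := sq_nonneg (4 * Real.sqrt Lam)
        nlinarith
    _ ≤ uY D Lam (j + 1) ^ 2 := by gcongr

theorem X_half {V κ : Type} [Fintype V] [Fintype κ] {E : EC κ V} {m : V → κ}
    {g : V → κ → κ → ℝ} (v : V) :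
    X E m (fun w c m => g w c m / 2) v = X E m g v / 2 := by
  unfold X
  rw [Finset.sum_div]
  refine sum_congr rfl (fun c _ => ?_)
  split_ifs <;> simp

theorem thm_Run (hV : St_Viz) (hA : St_CutA) (hB : St_CutB) (hC : St_Coin) (hCh : St_Chain) :
    St_Run := by
  intro V _ G D s l ρ r C θ Lam hD hs hρ hcard hr hrl hC0 hθ0 hθ1 hLam hexp hnoise
  set S : ℝ := ((s * 2 ^ (l - r) : ℕ) : ℝ) with hSdef
  have hSpos : 0 < S := by
    rw [hSdef]
    have : 0 < s * 2 ^ (l - r) := by positivity
    exact_mod_cast this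
  have hκ : Fintype.card (Col s l ρ) = D + 1 := by
    rw [← hcard]
    simp [Col]
  -- the injection of the leftover colours
  obtain ⟨ι, hι⟩ : ∃ ι : Fin ρ → (Fin l → Bool), Function.Injective ι := by
    have h1 : Fintype.card (Fin ρ) ≤ Fintype.card (Fin l → Bool) := by simpa using hρ
    obtain ⟨e⟩ := Function.Embedding.nonempty_of_card_le h1
    exact ⟨e, e.injective⟩
  have q0 : Fin s := ⟨0, by omega⟩
  obtain ⟨c1, c2, c3, c4, c5, c6, fb, f0, f1, f2⟩ := hCh V s l ρ r C θ q0 ι hs hr hrl hC0 hθ0
    (by linarith) hι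
  -- the family of test functions
  let I := Option (Fin s × (Fin l → Bool))
  have hI : Fintype.card I ≤ D + 2 := by
    have : Fintype.card I = s * 2 ^ l + 1 := by simp [I]
    omega
  let fam : ℕ → I → V → Col s l ρ → Col s l ρ → ℝ := fun j i => match i with
    | none => GX r C θ j
    | some a => gY j a
  have fam0 : ∀ j i w c m, 0 ≤ fam j i w c m := by
    intro j i w c m
    cases i with
    | none => exact (c3 j w c m).1
    | some a => exact (c4 j a w c m).1
  have fam1 : ∀ j i w c m, fam j i w c m ≤ 1 := by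
    intro j i w c m
    cases i with
    | none => exact (c3 j w c m).2
    | some a => exact (c4 j a w c m).2
  set x0 : ℝ := S * (1 - θ / 8) with hx0
  have hx0pos : 0 < x0 := by
    rw [hx0]
    have : 0 < 1 - θ / 8 := by linarith
    positivity
  have hx0S : x0 ≤ S := by
    rw [hx0]
    nlinarith
  have hsq : 0 ≤ Real.sqrt (S * Lam) := Real.sqrt_nonneg _
  -- the induction
  have key : ∀ j : ℕ, j ≤ l → ∃ (E : EC (Col s l ρ) V) (z : V → V) (m : V → Col s l ρ),
      Stt G (8 * (l + 1)) E z m (j + 1) ∧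
      (∀ v, X E m (GX r C θ j) v ≤ x0 + 8 * ((j : ℝ) + 1) * Real.sqrt (S * Lam)) ∧
      (∀ v a, X E m (gY j a) v ≤ uY D Lam j ^ 2) := by
    intro j
    induction j with
    | zero =>
      intro _
      obtain ⟨E, e1, e2⟩ := hV V (Col s l ρ) G D hD hκ
      -- missing colours
      have hmiss : ∀ w, ∃ c, E.N c w = w := by
        intro w
        by_contra hcon
        push Not at hcon
        have h1 : Fintype.card (Col s l ρ) ≤ (nb G w).card := by
          rw [← card_univ]
          refine card_le_card_of_injOn (fun c => E.N c w) ?_ ?_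
          · intro c _
            simp only [nb, coe_filter, mem_univ, true_and, Set.mem_ofPred_eq]
            exact e2 c w (hcon c)
          · intro a _ b _ hab
            exact E.uniq _ _ _ hab (hcon a)
        have h2 := hD w
        omega
      choose m0 hm0 using hmiss
      have hst : Stt G (8 * (l + 1)) E id m0 0 := by
        refine ⟨fun u => rfl, fun u h => absurd rfl h, e2, ?_, hm0, ?_⟩
        · intro u v h
          exact Or.inl (e1 u v h)
        · intro u
          simp
      obtain ⟨E', z', m', hS', hX'⟩ := round hA hB hC hD hκ c1 hst (by omega : 0 < l + 1)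
        (g := fam 0) (b := fun i => match i with | none => x0 | some _ => (D : ℝ) + 1) (Lam := Lam)
        (fam0 0) (fam1 0)
        (by
          intro i
          cases i with
          | none => exact hx0pos
          | some a => show (0 : ℝ) < D + 1; positivity)
        (by
          intro i v
          cases i with
          | none =>
            show X E m0 (Tav (pre q0 ι) (GX r C θ 0)) v ≤ x0
            refine (X_mono hm0 (g' := fun _ c _ => fb c) (fun w c m h => f1 w c m h) v).trans ?_
            refine le_trans ?_ f2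
            unfold X
            refine sum_le_sum (fun c _ => ?_)
            split_ifs
            · exact f0 c
            · exact le_refl _
          | some a =>
            show X E m0 _ v ≤ (D : ℝ) + 1
            refine (X_le_card (fun w c m => Tav_le_one (fam1 0 (some a)) w c m) v).trans ?_
            rw [hκ]
            push_cast
            exact le_refl _)
        hLam.le hI hexp
      refine ⟨E', z', m', by simpa using hS', ?_, ?_⟩
      · intro v
        have h1 : X E' m' (GX r C θ 0) v ≤ x0 + 8 * Real.sqrt (x0 * Lam) := hX' none v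
        have h2 : Real.sqrt (x0 * Lam) ≤ Real.sqrt (S * Lam) := by
          apply Real.sqrt_le_sqrt
          exact mul_le_mul_of_nonneg_right hx0S hLam.le
        push_cast
        linarith
      · intro v a
        refine (X_le_card (fun w c m => (c4 0 a w c m).2) v).trans ?_
        rw [hκ]
        unfold uY
        have h1 : Real.sqrt ((D : ℝ) + 1) ^ 2 = D + 1 := Real.sq_sqrt (by positivity)
        have h2 := Real.sqrt_nonneg ((D : ℝ) + 1)
        have h3 := Real.sqrt_nonneg Lam
        push_cast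
        rw [pow_zero, mul_one]
        nlinarith [mul_nonneg h2 h3]
    | succ j ih =>
      intro hj
      obtain ⟨E, z, m, hst, hX, hY⟩ := ih (by omega)
      have hjl : j < l := by omega
      set xj : ℝ := x0 + 8 * ((j : ℝ) + 1) * Real.sqrt (S * Lam) with hxj
      have hxjpos : 0 < xj := by
        rw [hxj]
        positivity
      have hxjS : xj ≤ S := by
        have h1 : 8 * ((j : ℝ) + 1) * Real.sqrt (S * Lam) ≤
            8 * ((l : ℝ) + 1) * Real.sqrt (S * Lam) := by
          have : (j : ℝ) ≤ l := by exact_mod_cast hjl.le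
          gcongr
        have h2 : x0 = S - S * θ / 8 := by rw [hx0]; ring
        rw [hxj]
        linarith
      obtain ⟨E', z', m', hS', hX'⟩ := round hA hB hC hD hκ (c2 ⟨j, hjl⟩) hst
        (by omega : j + 1 < l + 1)
        (g := fam (j + 1)) (b := fun i => match i with | none => xj | some _ => uY D Lam j ^ 2 / 2)
        (Lam := Lam) (fam0 (j + 1)) (fam1 (j + 1))
        (by
          intro i
          have := uY_pos D Lam j
          cases i with
          | none => exact hxjpos
          | some a => show (0 : ℝ) < uY D Lam j ^ 2 / 2; positivity)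
        (by
          intro i v
          cases i with
          | none =>
            show X E m (Tav (flp ⟨j, hjl⟩) (GX r C θ (j + 1))) v ≤ xj
            exact (X_mono hst.miss (fun w c m h => c5 ⟨j, hjl⟩ w c m h) v).trans (hX v)
          | some a =>
            show X E m (Tav (flp ⟨j, hjl⟩) (gY (j + 1) a)) v ≤ uY D Lam j ^ 2 / 2
            refine (X_mono hst.miss (g' := fun w c m => gY j a w c m / 2)
              (fun w c m _ => (c6 ⟨j, hjl⟩ a w c m).le) v).trans ?_
            rw [X_half]
            have := hY v a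
            linarith)
        hLam.le hI hexp
      refine ⟨E', z', m', hS', ?_, ?_⟩
      · intro v
        have h1 : X E' m' (GX r C θ (j + 1)) v ≤ xj + 8 * Real.sqrt (xj * Lam) := hX' none v
        have h2 : Real.sqrt (xj * Lam) ≤ Real.sqrt (S * Lam) := by
          apply Real.sqrt_le_sqrt
          exact mul_le_mul_of_nonneg_right hxjS hLam.le
        rw [hxj] at h1
        push_cast
        rw [hxj] at h2
        linarith
      · intro v a
        exact (hX' (some a) v).trans (uY_step D hLam.le j)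
  obtain ⟨E, z, m, h1, h2, h3⟩ := key l le_rfl
  exact ⟨E, z, m, h1, h2, h3⟩

end Pool.TCM
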