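import Pool.Agent.Helper3.TCM.Viz
import Pool.Agent.Helper3.TCM.LM
import Pool.Agent.Helper3.TCM.Pack
import Pool.Agent.Helper3.TCM.CutA
import Pool.Agent.Helper3.TCM.CutB
import Pool.Agent.Helper3.TCM.Coin
import Pool.Agent.Helper3.TCM.CoinA
import Pool.Agent.Helper3.TCM.CoinB
import Pool.Agent.Helper3.TCM.CoinC
import Pool.Agent.Helper3.TCM.Chain
import Pool.Agent.Helper3.TCM.Run
import Pool.Agent.Helper3.TCM.Act
import Pool.Agent.Helper3.TCM.Bip
import Pool.Agent.Helper3.TCM.Hall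
import Pool.Agent.Helper3.TCM.Fin
import Pool.Agent.Helper3.TCM.Core
import Pool.Agent.Helper3.TCM.Num
import Pool.Agent.Helper3.TCM.Main

/-!
The theorem: graphs of chromatic number at most `Δ / (2 ^ 80 (log₂ Δ) ^ 10)` have a total
colouring with `Δ + 3` colours.
-/

set_option autoImplicit false

namespace Pool.TCM

open Pool.TC Finset
open scoped Classical

theorem thm_RunAll : St_Run :=
  thm_Run thm_Viz (thm_CutA thm_Pack) (thm_CutB thm_Orb)
    (thm_Coin thm_LM thm_CoinA thm_CoinB thm_CoinC) thm_Chain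

theorem thm_CoreAll : St_Core := thm_Core thm_RunAll (thm_Act thm_LM) (thm_Fin (thm_Bip thm_LM) thm_Hall)

/-- The main theorem. -/
theorem total_three {V : Type*} [Fintype V] (G : SimpleGraph V) (D k : ℕ)
    (hD : ∀ u, (univ.filter (fun v => G.Adj u v)).card ≤ D)
    (hk : 2 ^ 80 * k * Nat.log 2 D ^ 10 ≤ D) (C : V → Fin k)
    (hC : ∀ u v, G.Adj u v → D + 2 < 2 * (univ.filter (fun v => G.Adj u v)).card →
      D + 2 < 2 * (univ.filter (fun u => G.Adj v u)).card → C u ≠ C v) :
    ∃ (c : V → Fin (D + 3)) (e : Sym2 V → Fin (D + 3)), IsTotalColouring G c e :=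
  main_theorem thm_CoreAll thm_Num G D k hD hk C hC

end Pool.TCM
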