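import Pool.Agent.Helper3.TCM.Defs

/-!
Balls in a graph.
-/

set_option autoImplicit false

namespace Pool.TCM

open Pool.TC Finset
open scoped Classical

variable {V : Type} [Fintype V] {G : SimpleGraph V}

theorem mem_nb {u v : V} : v ∈ nb G u ↔ G.Adj u v := by simp [nb]

theorem mem_ball_succ {n : ℕ} {u x : V} :
    x ∈ ball G (n + 1) u ↔ ∃ v ∈ ball G n u, x = v ∨ G.Adj v x := by
  simp only [ball, mem_biUnion, mem_insert, mem_nb]

theorem mem_ball_self (n : ℕ) (u : V) : u ∈ ball G n u := by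
  induction n with
  | zero => simp [ball]
  | succ n ih => exact mem_ball_succ.2 ⟨u, ih, Or.inl rfl⟩

theorem ball_trans {n : ℕ} {u v : V} (h : v ∈ ball G n u) : ∀ {m : ℕ} {w : V}, w ∈ ball G m v →
    w ∈ ball G (n + m) u := by
  intro m
  induction m with
  | zero =>
    intro w hw
    simp only [ball, mem_singleton] at hw
    rw [hw]
    exact h
  | succ m ih =>
    intro w hw
    obtain ⟨x, hx, hxw⟩ := mem_ball_succ.1 hw
    exact mem_ball_succ.2 ⟨x, ih hx, hxw⟩

theorem ball_mono {n m : ℕ} (h : n ≤ m) {u v : V} (hv : v ∈ ball G n u) : v ∈ ball G m u := by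
  obtain ⟨k, rfl⟩ := Nat.exists_eq_add_of_le h
  exact ball_trans hv (mem_ball_self k v)

theorem adj_mem_ball {u v : V} (h : G.Adj u v) : v ∈ ball G 1 u :=
  mem_ball_succ.2 ⟨u, mem_ball_self 0 u, Or.inr h⟩

theorem ball_symm {n : ℕ} : ∀ {u v : V}, v ∈ ball G n u → u ∈ ball G n v := by
  induction n with
  | zero =>
    intro u v h
    simp only [ball, mem_singleton] at h ⊢
    exact h.symm
  | succ n ih =>
    intro u v h
    obtain ⟨x, hx, hxv⟩ := mem_ball_succ.1 h
    have h1 : x ∈ ball G 1 v := by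
      rcases hxv with h2 | h2
      · rw [h2]; exact mem_ball_self 1 x
      · exact adj_mem_ball h2.symm
    have h2 := ball_trans h1 (ih hx)
    rwa [add_comm] at h2

theorem card_ball {D : ℕ} (hD : ∀ u, (nb G u).card ≤ D) (n : ℕ) (u : V) :
    (ball G n u).card ≤ (D + 1) ^ n := by
  induction n with
  | zero => simp [ball]
  | succ n ih =>
    rw [ball]
    refine card_biUnion_le.trans ?_
    calc ∑ v ∈ ball G n u, (insert v (nb G v)).card ≤ ∑ _v ∈ ball G n u, (D + 1) :=
          sum_le_sum (fun v _ => (card_insert_le _ _).trans (Nat.add_le_add_right (hD v) 1))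
      _ = (ball G n u).card * (D + 1) := by rw [sum_const, smul_eq_mul]
      _ ≤ (D + 1) ^ n * (D + 1) := Nat.mul_le_mul_right _ ih
      _ = (D + 1) ^ (n + 1) := (pow_succ _ _).symm

end Pool.TCM
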