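import Pool.Agent.Helper83.TC.Total
import Pool.Agent.Helper66.SEC.LLL

/-!
# Total colourings with `Δ + 3` colours of graphs of chromatic number at most `c Δ / (log Δ) ^ 10`

Definitions and statements of the parts of the proof (paper proof: `TC_helper3.md`).
`Pool.TC.EC` is Helper83's partial edge colouring by involutions `E.N a`.
-/

set_option autoImplicit false

namespace Pool.TCM

open Pool.TC Finset
open scoped Classical

section basic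

variable {V κ : Type} [Fintype V]

/-- the neighbours of `u` -/
noncomputable def nb (G : SimpleGraph V) (u : V) : Finset V := univ.filter (fun v => G.Adj u v)

/-- the vertices at distance at most `n` from `u` -/
noncomputable def ball (G : SimpleGraph V) : ℕ → V → Finset V
  | 0, u => {u}
  | n + 1, u => (ball G n u).biUnion (fun v => insert v (nb G v))

/-- the orbit of `x` under the two maps `s`, `t` -/
noncomputable def orbF (s t : V → V) (x : V) : Finset V := univ.filter (fun y => Reach s t x y)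

/-- The state of the colouring process: `E` is a partial edge colouring, `z` is the matching of
the edges which have been uncoloured, `m w` is a colour missing at `w`; every ball of radius `s0`
contains at most `2 t` vertices of the matching. -/
structure Stt (G : SimpleGraph V) (s0 : ℕ) (E : EC κ V) (z : V → V) (m : V → κ) (t : ℕ) :
    Prop where
  zinv : ∀ u, z (z u) = u
  zadj : ∀ u, z u ≠ u → G.Adj u (z u)
  sub : ∀ a u, E.N a u ≠ u → G.Adj u (E.N a u)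
  cov : ∀ u v, G.Adj u v → (∃ a, E.N a u = v) ∨ z u = v
  miss : ∀ w, E.N (m w) w = w
  spr : ∀ u, ((ball G s0 u).filter (fun x => z x ≠ x)).card ≤ 2 * t

/-- the sum of a test function over the coloured edges at `v` -/
noncomputable def X [Fintype κ] (E : EC κ V) (m : V → κ) (g : V → κ → κ → ℝ) (v : V) : ℝ :=
  ∑ c, if E.N c v = v then 0 else g (E.N c v) c (m (E.N c v))

/-- the averaging operator of one mixing round with the pairing `σ` of the colours -/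
noncomputable def Tav (σ : κ → κ) (g : V → κ → κ → ℝ) : V → κ → κ → ℝ := fun w c m =>
  if m = σ c then (g w c m + g w m c) / 2
  else (g w c m + g w (σ c) m + g w c (σ m) + g w (σ c) (σ m)) / 4

/-- bound for the length of the Kempe chains -/
def LL (D R : ℕ) : ℕ := 384 * R * (D + 1) ^ (16 * R + 3) + 4

end basic

/-! ### Statements of the tools -/

/-- VIZ. Vizing's theorem. -/
def St_Viz : Prop := ∀ (V κ : Type) [Fintype V] [Fintype κ] (G : SimpleGraph V) (D : ℕ),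
  (∀ u, (nb G u).card ≤ D) → Fintype.card κ = D + 1 →
  ∃ E : EC κ V, (∀ u v, G.Adj u v → ∃ a, E.N a u = v) ∧
    (∀ a u, E.N a u ≠ u → G.Adj u (E.N a u))

/-- LM. The local lemma for deviations from the mean (bounded differences inequality). -/
def St_LM : Prop := ∀ (T A J : Type) [Fintype T] [Fintype A] [Nonempty A] [Fintype J]
  (F : J → (T → A) → ℝ) (c : J → T → ℝ) (V lam : J → ℝ) (S : J → Finset T) (Lam : ℝ) (N : ℕ),
  (∀ j t, 0 ≤ c j t) →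
  (∀ j t (ω ω' : T → A), (∀ t', t' ≠ t → ω t' = ω' t') → |F j ω - F j ω'| ≤ c j t) →
  (∀ j t, t ∉ S j → c j t = 0) →
  (∀ j, ∑ t, c j t ^ 2 ≤ V j) → (∀ j, 0 < V j) → (∀ j, 0 ≤ lam j) →
  (∀ j, 2 * V j * Lam ≤ lam j ^ 2) →
  (∀ j, (univ.filter (fun j' => ∃ t, t ∈ S j ∧ t ∈ S j')).card ≤ N) →
  4 * Real.exp (-Lam) * (N + 1) ≤ 1 →
  ∃ ω : T → A, ∀ j, F j ω ≤ (∑ ω', F j ω') / Fintype.card (T → A) + lam j

/-- PACK. Disjoint windows in the cycles of a permutation. -/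
def St_Pack : Prop := ∀ (V : Type) [Fintype V] (f : V → V) (w : ℕ), Function.Injective f → 0 < w →
  ∃ X : Finset V, (∀ x ∈ X, ∀ j, 1 ≤ j → j ≤ w → f^[j] x ≠ x) ∧
    (∀ x ∈ X, ∀ x' ∈ X, x ≠ x' → ∀ i < w, ∀ j < w, f^[i] x ≠ f^[j] x') ∧
    (∀ y, (∀ j, 1 ≤ j → j ≤ w → f^[j] y ≠ y) → ∃ k < 2 * w, f^[k] y ∈ X)

/-- ORB. Bound for the orbits of two involutions. -/
def St_Orb : Prop := ∀ (V : Type) [Fintype V] (s t : V → V) (N : ℕ),
  (∀ u, s (s u) = u) → (∀ u, t (t u) = u) →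
  (∀ y, (∃ i ≤ N, s ((t ∘ s)^[i] y) = (t ∘ s)^[i] y) ∨
    (∃ i, 1 ≤ i ∧ i ≤ N ∧ (t ∘ s)^[i] y = y)) →
  ∀ y, (orbF s t y).card ≤ 8 * N + 4

/-- The set `K` of cuts: `K c y` means that the edge `y`, `E.N c y` of colour `c` is cut. -/
structure CutSet {V κ : Type} [Fintype V] (G : SimpleGraph V) (s0 w : ℕ) (E : EC κ V) (z : V → V)
    (σ : κ → κ) (F : Set κ) (K : κ → V → Prop) : Prop where
  first : ∀ c, σ c ≠ c → (c ∈ F ↔ σ c ∉ F)
  mem : ∀ c y, K c y → c ∈ F ∧ σ c ≠ c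
  nbr : ∀ c y, K c y → K c (E.N c y)
  mv : ∀ c y, K c y → E.N c y ≠ y
  fix : ∀ c y, K c y → z y = y
  sep : ∀ c y c' y' u, K c y → K c' y' → y ∈ ball G s0 u → y' ∈ ball G s0 u →
    c' = c ∧ (y' = y ∨ y' = E.N c y)
  cover : ∀ c ∈ F, σ c ≠ c → ∀ y,
    (∃ i ≤ 3 * w, E.N c ((E.N (σ c) ∘ E.N c)^[i] y) = (E.N (σ c) ∘ E.N c)^[i] y ∨
      K c ((E.N (σ c) ∘ E.N c)^[i] y)) ∨
    (∃ j, 1 ≤ j ∧ j ≤ w ∧ (E.N (σ c) ∘ E.N c)^[j] y = y)

/-- CUTA. Existence of the cuts. -/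
def St_CutA : Prop := ∀ (V κ : Type) [Fintype V] [Fintype κ] (G : SimpleGraph V) (D R t : ℕ)
  (σ : κ → κ) (E : EC κ V) (z : V → V) (m : V → κ),
  (∀ u, (nb G u).card ≤ D) → Fintype.card κ = D + 1 → (∀ c, σ (σ c) = c) →
  Stt G (8 * R) E z m t → t < R →
  ∃ (F : Set κ) (K : κ → V → Prop),
    CutSet G (8 * R) (16 * R * (D + 1) ^ (16 * R + 3)) E z σ F K

/-- CUTB. Cutting. -/
def St_CutB : Prop := ∀ (V κ : Type) [Fintype V] (G : SimpleGraph V) (s0 w t : ℕ)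
  (σ : κ → κ) (E : EC κ V) (z : V → V) (m : V → κ) (F : Set κ) (K : κ → V → Prop),
  (∀ c, σ (σ c) = c) → Stt G s0 E z m t → CutSet G s0 w E z σ F K →
  ∃ (E' : EC κ V) (z' : V → V), Stt G s0 E' z' m (t + 1) ∧
    (∀ c u, E'.N c u = E.N c u ∨ E'.N c u = u) ∧
    ∀ c x, (orbF (E'.N c) (E'.N (σ c)) x).card ≤ 24 * w + 4

/-! ### The mixing round -/

section coin

variable {V κ : Type} [Fintype V]

/-- the coin which decides about colour `c` at `x` -/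
noncomputable def coin (E : EC κ V) (σ : κ → κ) (c : κ) (x : V) : Finset κ × Finset V :=
  ({c, σ c}, orbF (E.N c) (E.N (σ c)) x)

/-- the new colour of an edge of colour `c` at `x` -/
noncomputable def fl (E : EC κ V) (σ : κ → κ) (ω : Finset κ × Finset V → Bool) (c : κ) (x : V) :
    κ := if ω (coin E σ c x) = true then σ c else c

/-- the sum of the test function after the mixing round -/
noncomputable def Xω [Fintype κ] (E : EC κ V) (σ : κ → κ) (m : V → κ) (g : V → κ → κ → ℝ) (v : V)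
    (ω : Finset κ × Finset V → Bool) : ℝ :=
  ∑ c, if E.N c v = v then 0 else
    g (E.N c v) (fl E σ ω c (E.N c v)) (fl E σ ω (m (E.N c v)) (E.N c v))

end coin

/-- COINA. The colouring after the swaps. -/
def St_CoinA : Prop := ∀ (V κ : Type) [Fintype V] [Fintype κ] (E : EC κ V) (σ : κ → κ)
  (m : V → κ), (∀ c, σ (σ c) = c) → (∀ w, E.N (m w) w = w) →
  ∀ ω : Finset κ × Finset V → Bool, ∃ (E' : EC κ V) (m' : V → κ),
    (∀ w, E'.N (m' w) w = w) ∧ (∀ c u, ∃ c', E'.N c u = E.N c' u) ∧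
    (∀ c u, ∃ c', E'.N c' u = E.N c u) ∧
    ∀ (g : V → κ → κ → ℝ) (v : V), X E' m' g v = Xω E σ m g v ω

/-- COINB. The expectation. -/
def St_CoinB : Prop := ∀ (V κ : Type) [Fintype V] [Fintype κ] (E : EC κ V) (σ : κ → κ)
  (m : V → κ), (∀ c, σ (σ c) = c) → (∀ w, E.N (m w) w = w) →
  ∀ (g : V → κ → κ → ℝ) (v : V),
    (∑ ω, Xω E σ m g v ω) / Fintype.card (Finset κ × Finset V → Bool) = X E m (Tav σ g) v

/-- COINC. The sensitivity of the sum with respect to one coin. -/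
def St_CoinC : Prop := ∀ (V κ : Type) [Fintype V] [Fintype κ] (E : EC κ V) (σ : κ → κ)
  (m : V → κ), (∀ c, σ (σ c) = c) → (∀ w, E.N (m w) w = w) →
  ∀ (g : V → κ → κ → ℝ), (∀ w c m, 0 ≤ g w c m) → (∀ w c m, g w c m ≤ 1) → ∀ (v : V),
  ∃ cc : Finset κ × Finset V → ℝ, (∀ t, 0 ≤ cc t) ∧
    (∀ t (ω ω' : Finset κ × Finset V → Bool), (∀ t', t' ≠ t → ω t' = ω' t') →
      |Xω E σ m g v ω - Xω E σ m g v ω'| ≤ cc t) ∧
    (∀ t, (¬ ∃ c, t = coin E σ c v ∨ t = coin E σ (m (E.N c v)) (E.N c v)) → cc t = 0) ∧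
    ∑ t, cc t ^ 2 ≤ 32 * X E m (Tav σ g) v

/-- COIN. One mixing round. -/
def St_Coin : Prop := ∀ (V κ I : Type) [Fintype V] [Fintype κ] [Fintype I] (E : EC κ V)
  (σ : κ → κ) (m : V → κ) (L : ℕ) (Lam : ℝ) (g : I → V → κ → κ → ℝ) (b : I → ℝ),
  (∀ c, σ (σ c) = c) → (∀ w, E.N (m w) w = w) →
  (∀ c x, (orbF (E.N c) (E.N (σ c)) x).card ≤ L) →
  (∀ i w c m, 0 ≤ g i w c m) → (∀ i w c m, g i w c m ≤ 1) → (∀ i, 0 < b i) →
  (∀ i v, X E m (Tav σ (g i)) v ≤ b i) → 0 ≤ Lam →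
  4 * Real.exp (-Lam) *
    (2 * (Fintype.card κ : ℝ) ^ 2 * L * Fintype.card I + 1) ≤ 1 →
  ∃ (E' : EC κ V) (m' : V → κ),
    (∀ w, E'.N (m' w) w = w) ∧ (∀ c u, ∃ c', E'.N c u = E.N c' u) ∧
    (∀ c u, ∃ c', E'.N c' u = E.N c u) ∧
    ∀ i v, X E' m' (g i) v ≤ b i + 8 * Real.sqrt (b i * Lam)

/-! ### Colours, palettes, pairings, test functions -/

/-- the colours: main colours (a group and a 0-1-vector of length `l`) and leftover colours -/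
abbrev Col (s l ρ : ℕ) : Type := (Fin s × (Fin l → Bool)) ⊕ Fin ρ

section chain

variable {V : Type} {s l ρ : ℕ}

/-- flip bit `j` -/
def flp (j : Fin l) : Col s l ρ → Col s l ρ
  | Sum.inl (q, a) => Sum.inl (q, Function.update a j (!a j))
  | Sum.inr i => Sum.inr i

/-- pair the leftover colours with colours of the group `q0` -/
noncomputable def pre (q0 : Fin s) (ι : Fin ρ → (Fin l → Bool)) : Col s l ρ → Col s l ρ
  | Sum.inl (q, a) => if h : q = q0 ∧ ∃ i, ι i = a then Sum.inr h.2.choose else Sum.inl (q, a)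
  | Sum.inr i => Sum.inl (q0, ι i)

/-- `C w` and `a` agree on the first `r` bits of index less than `j` -/
def agr (r : ℕ) (C : V → Fin l → Bool) (j : ℕ) (w : V) (a : Fin l → Bool) : Prop :=
  ∀ i : Fin l, i.val < r → i.val < j → a i = C w i

/-- the part of the test function which depends on the colour of the edge -/
noncomputable def PX (r : ℕ) (C : V → Fin l → Bool) (j : ℕ) (w : V) : Col s l ρ → ℝ
  | Sum.inl (_, a) => if agr r C j w a then (1 / 2) ^ (r - j) else 0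
  | Sum.inr _ => 0

/-- indicator of the reserved colours -/
noncomputable def BX : Col s l ρ → ℝ
  | Sum.inl (_, a) => if ∃ h : 0 < l, a ⟨0, h⟩ = false then 1 else 0
  | Sum.inr _ => 0

/-- indicator of the main colours -/
noncomputable def MX : Col s l ρ → ℝ
  | Sum.inl _ => 1
  | Sum.inr _ => 0

/-- the test functions for the number of edges `v w` whose colour is in the palette of `w` -/
noncomputable def GX (r : ℕ) (C : V → Fin l → Bool) (θ : ℝ) :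
    ℕ → V → Col s l ρ → Col s l ρ → ℝ
  | 0 => fun _ c m => (1 / 2) ^ r * MX c * (1 - θ / 2 * MX m)
  | j + 1 => fun w c m => PX r C (j + 1) w c * (1 - θ * BX m)

/-- the test functions for the number of neighbours with a given missing colour -/
noncomputable def gY (j : ℕ) (a : Fin s × (Fin l → Bool)) : V → Col s l ρ → Col s l ρ → ℝ :=
  fun _ _ m => match m with
    | Sum.inl (q, b) => if q = a.1 ∧ ∀ i : Fin l, i.val < j → b i = a.2 i then 1 else 0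
    | Sum.inr _ => 0

/-- the palette of `w` -/
noncomputable def Jp (r : ℕ) (C : V → Fin l → Bool) (w : V) : Finset (Col s l ρ) :=
  univ.filter (fun c => ∃ q a, c = Sum.inl (q, a) ∧ ∀ i : Fin l, i.val < r → a i = C w i)

end chain

/-- CHAIN. The test functions and the averaging operators. -/
def St_Chain : Prop := ∀ (V : Type) (s l ρ r : ℕ) (C : V → Fin l → Bool) (θ : ℝ) (q0 : Fin s)
  (ι : Fin ρ → (Fin l → Bool)), 2 ≤ s → 0 < r → r ≤ l → (∀ w (i : Fin l), i.val = 0 → C w i = true) →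
  0 ≤ θ → θ ≤ 1 → Function.Injective ι →
  (∀ c : Col s l ρ, pre q0 ι (pre q0 ι c) = c) ∧
  (∀ (j : Fin l) (c : Col s l ρ), flp j (flp j c) = c) ∧
  (∀ j w (c m : Col s l ρ), 0 ≤ GX r C θ j w c m ∧ GX r C θ j w c m ≤ 1) ∧
  (∀ j a w (c m : Col s l ρ), 0 ≤ gY (V := V) j a w c m ∧ gY (V := V) j a w c m ≤ 1) ∧
  (∀ (j : Fin l) w (c m : Col s l ρ), m ≠ c →
    Tav (flp j) (GX r C θ (j.val + 1)) w c m ≤ GX r C θ j.val w c m) ∧
  (∀ (j : Fin l) a w (c m : Col s l ρ),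
    Tav (flp j) (gY (V := V) (j.val + 1) a) w c m = gY (V := V) j.val a w c m / 2) ∧
  (∃ fb : Col s l ρ → ℝ, (∀ c, 0 ≤ fb c) ∧
    (∀ w c m, m ≠ c → Tav (pre q0 ι) (GX r C θ 0) w c m ≤ fb c) ∧
    ∑ c, fb c ≤ (s * 2 ^ (l - r) : ℕ) * (1 - θ / 8))

/-- RUN. All rounds. -/
def St_Run : Prop := ∀ (V : Type) [Fintype V] (G : SimpleGraph V) (D s l ρ r : ℕ)
  (C : V → Fin l → Bool) (θ Lam : ℝ), (∀ u, (nb G u).card ≤ D) → 2 ≤ s → ρ ≤ 2 ^ l →
  s * 2 ^ l + ρ = D + 1 → 0 < r → r ≤ l → (∀ w (i : Fin l), i.val = 0 → C w i = true) →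
  0 ≤ θ → θ ≤ 1 / 2 → 0 < Lam →
  4 * Real.exp (-Lam) * (2 * ((D : ℝ) + 1) ^ 2 * LL D (l + 1) * (D + 2) + 1) ≤ 1 →
  8 * ((l : ℝ) + 1) * Real.sqrt ((s * 2 ^ (l - r) : ℕ) * Lam) ≤ (s * 2 ^ (l - r) : ℕ) * θ / 8 →
  ∃ (E : EC (Col s l ρ) V) (z : V → V) (m : V → Col s l ρ), Stt G (8 * (l + 1)) E z m (l + 1) ∧
    (∀ v, X E m (GX r C θ l) v ≤ (s * 2 ^ (l - r) : ℕ) * (1 - θ / 8) +
      8 * ((l : ℝ) + 1) * Real.sqrt ((s * 2 ^ (l - r) : ℕ) * Lam)) ∧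
    (∀ v a, X E m (gY l a) v ≤
      (Real.sqrt (D + 1) * (1 / Real.sqrt 2) ^ l + 14 * Real.sqrt Lam) ^ 2)

/-- ACT. Random activation. -/
def St_Act : Prop := ∀ (V : Type) [Fintype V] (G : SimpleGraph V) (D t0 : ℕ)
  (cf : V → V → Prop) (Q : V → Finset V) (y Lam : ℝ), (∀ u, (nb G u).card ≤ D) →
  (∀ u w, cf u w → cf w u) → (∀ u w, cf u w → G.Adj u w) → 0 < t0 →
  (∀ w, (univ.filter (fun u => cf w u)).card ≤ t0) → (∀ v, ∀ w ∈ Q v, G.Adj v w) → 0 < y →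
  (∀ v, ((Q v).card : ℝ) ≤ y) → 0 ≤ Lam → 4 * Real.exp (-Lam) * (((D : ℝ) + 1) ^ 4 + 1) ≤ 1 →
  ∃ F : V → Prop, (∀ u w, F u → F w → ¬ cf u w) ∧
    ∀ v, ((Q v).card : ℝ) / (4 * t0) - (1 + t0) * Real.sqrt (2 * y * Lam) ≤
      ((Q v).filter F).card

/-- BIP. A balanced bipartition. -/
def St_Bip : Prop := ∀ (V I : Type) [Fintype V] [Fintype I] (z : V → V) (Q : I → Finset V)
  (S N M : ℕ) (Lam : ℝ), (∀ u, z (z u) = u) → 0 < S → (∀ i, (Q i).card ≤ S) →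
  (∀ i, (Q i).card ≤ M) → (∀ w, (univ.filter (fun i => w ∈ Q i)).card ≤ N) → 0 ≤ Lam →
  4 * Real.exp (-Lam) * (4 * (N : ℝ) * M + 1) ≤ 1 →
  ∃ τ : V → Bool, (∀ u, τ (z u) = τ u) ∧
    ∀ i b, (((Q i).filter (fun w => τ w = b)).card : ℝ) ≤
      ((Q i).card : ℝ) / 2 + 2 * Real.sqrt (S * Lam)

/-- HALL. -/
def St_Hall : Prop := ∀ (V : Type) [Fintype V] (A : Finset V) (O : V → Finset V) (a : ℝ), 0 < a →
  (∀ u ∈ A, a ≤ ((O u).card : ℝ)) → (∀ v, ((A.filter (fun u => v ∈ O u)).card : ℝ) ≤ a) →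
  ∃ p : V → V, (∀ u ∈ A, p u ∈ O u) ∧ Set.InjOn p A

/-- FIN. The total colouring (the vertex colours are in `κ`, the edge colours in `κ ⊕ Bool`). -/
def St_Fin : Prop := ∀ (V κ : Type) [Fintype V] [Fintype κ] (G : SimpleGraph V) (D : ℕ)
  (E : EC κ V) (z : V → V) (F : V → Prop) (f : V → κ) (J : V → Finset κ) (S ζ : ℕ) (x Lam : ℝ),
  (∀ u, (nb G u).card ≤ D) → (∀ u, z (z u) = u) → (∀ u, z u ≠ u → G.Adj u (z u)) →
  (∀ a u, E.N a u ≠ u → G.Adj u (E.N a u)) →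
  (∀ u v, G.Adj u v → (∃ a, E.N a u = v) ∨ z u = v) →
  (∀ w, F w → E.N (f w) w = w) → (∀ u, (J u).card = S) →
  (∀ u, ((nb G u).filter (fun v => z v ≠ v)).card ≤ ζ) →
  (∀ v, ((univ.filter (fun w => ¬ F w ∧ w ≠ v ∧ ∃ c ∈ J w, E.N c w = v)).card : ℝ) ≤ x) →
  0 < Lam → 4 * Real.exp (-Lam) * (8 * ((D : ℝ) + 1) ^ 2 + 1) ≤ 1 →
  x + 8 * Real.sqrt (S * Lam) + ζ < S →
  ∃ (c : V → κ) (e : Sym2 V → κ ⊕ Bool), (∀ u, F u → c u = f u) ∧ (∀ u, ¬ F u → c u ∈ J u) ∧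
    (∀ u v w, G.Adj u v → G.Adj u w → v ≠ w → e s(u, v) ≠ e s(u, w)) ∧
    (∀ u v, G.Adj u v → e s(u, v) ≠ Sum.inl (c u))

/-- CORE. Colouring of the edges and of the vertices, adjacent vertices with the same class may get
the same colour. -/
def St_Core : Prop := ∀ (V : Type) [Fintype V] (G : SimpleGraph V) (D s l ρ r t0 : ℕ)
  (C : V → Fin l → Bool) (Lam : ℝ), (∀ u, (nb G u).card ≤ D) → 2 ≤ s → ρ ≤ 2 ^ l →
  s * 2 ^ l + ρ = D + 1 → 0 < r → r ≤ l → (∀ w (i : Fin l), i.val = 0 → C w i = true) →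
  0 < t0 → 0 < Lam →
  4 * Real.exp (-Lam) * (2 * ((D : ℝ) + 1) ^ 2 * LL D (l + 1) * (D + 2) + 1) ≤ 1 →
  (Real.sqrt (D + 1) * (1 / Real.sqrt 2) ^ l + 14 * Real.sqrt Lam) ^ 2 + 1 ≤ t0 →
  (8 * ((l : ℝ) + 1) + 2 * (1 + t0) + 8) * Real.sqrt ((s * 2 ^ (l - r) : ℕ) * Lam) +
    2 * ((l : ℝ) + 1) < (s * 2 ^ (l - r) : ℕ) * (1 / (4 * t0)) / 8 →
  ∃ (c : V → Col s l ρ) (e : Sym2 V → Col s l ρ ⊕ Bool),
    (∀ u v, G.Adj u v → (∃ i : Fin l, i.val < r ∧ C u i ≠ C v i) → c u ≠ c v) ∧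
    (∀ u v w, G.Adj u v → G.Adj u w → v ≠ w → e s(u, v) ≠ e s(u, w)) ∧
    (∀ u v, G.Adj u v → e s(u, v) ≠ Sum.inl (c u))

/-- NUM. The parameters. -/
def St_Num : Prop := ∀ D k : ℕ, 0 < k → 2 ^ 80 * k * Nat.log 2 D ^ 10 ≤ D → 2 ≤ D →
  ∃ (s l ρ r t0 : ℕ) (Lam : ℝ), 2 ≤ s ∧ ρ ≤ 2 ^ l ∧ s * 2 ^ l + ρ = D + 1 ∧ 0 < r ∧ r ≤ l ∧
    k ≤ 2 ^ (r - 1) ∧ 0 < t0 ∧ 0 < Lam ∧
    4 * Real.exp (-Lam) * (2 * ((D : ℝ) + 1) ^ 2 * LL D (l + 1) * (D + 2) + 1) ≤ 1 ∧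
    (Real.sqrt (D + 1) * (1 / Real.sqrt 2) ^ l + 14 * Real.sqrt Lam) ^ 2 + 1 ≤ t0 ∧
    (8 * ((l : ℝ) + 1) + 2 * (1 + t0) + 8) * Real.sqrt ((s * 2 ^ (l - r) : ℕ) * Lam) +
      2 * ((l : ℝ) + 1) < (s * 2 ^ (l - r) : ℕ) * (1 / (4 * t0)) / 8

end Pool.TCM
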