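import Pool.Agent.Helper3.TCM.Defs

/-!
# TCM, module Hall
-/

set_option autoImplicit false

namespace Pool.TCM

open Pool.TC Finset
open scoped Classical

theorem thm_Hall : St_Hall := by
  intro V _ A O a ha hO hA
  have key : ∀ s : Finset {u // u ∈ A}, s.card ≤ (s.biUnion (fun u => O u.1)).card := by
    intro s
    have h1 : ∑ u ∈ s, (O u.1).card =
        ∑ v ∈ s.biUnion (fun u => O u.1), (s.filter (fun u => v ∈ O u.1)).card := by
      have h2 := Finset.sum_card_bipartiteAbove_eq_sum_card_bipartiteBelow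
        (s := s) (t := s.biUnion (fun u => O u.1)) (fun u v => v ∈ O u.1)
      rw [← show ∑ v ∈ s.biUnion (fun u => O u.1), (s.filter (fun u => v ∈ O u.1)).card =
        ∑ v ∈ s.biUnion (fun u => O u.1), (bipartiteBelow (fun u v => v ∈ O u.1) s v).card from rfl]
        at h2
      rw [← h2]
      refine Finset.sum_congr rfl fun u hu => ?_
      congr 1
      ext v
      rw [mem_bipartiteAbove]
      exact ⟨fun hv => ⟨mem_biUnion.2 ⟨u, hu, hv⟩, hv⟩, fun hv => hv.2⟩
    have h3 : (s.card : ℝ) * a ≤ ((s.biUnion (fun u => O u.1)).card : ℝ) * a := by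
      calc (s.card : ℝ) * a = ∑ _u ∈ s, a := by rw [sum_const, nsmul_eq_mul]
        _ ≤ ∑ u ∈ s, ((O u.1).card : ℝ) := sum_le_sum fun u _ => hO u.1 u.2
        _ = ∑ v ∈ s.biUnion (fun u => O u.1), ((s.filter (fun u => v ∈ O u.1)).card : ℝ) := by
            exact_mod_cast h1
        _ ≤ ∑ _v ∈ s.biUnion (fun u => O u.1), a := by
            refine sum_le_sum fun v _ => le_trans ?_ (hA v)
            refine Nat.cast_le.2 (card_le_card_of_injOn Subtype.val ?_
              (Subtype.val_injective.injOn))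
            intro u hu
            have hu' := Finset.mem_filter.1 (Finset.mem_coe.1 hu)
            exact Finset.mem_coe.2 (Finset.mem_filter.2 ⟨u.2, hu'.2⟩)
        _ = _ := by rw [sum_const, nsmul_eq_mul]
    have h4 := le_of_mul_le_mul_right h3 ha
    exact_mod_cast h4
  obtain ⟨f, hf, hf'⟩ := (Finset.all_card_le_biUnion_card_iff_exists_injective
    (fun u : {u // u ∈ A} => O u.1)).1 key
  refine ⟨fun u => if h : u ∈ A then f ⟨u, h⟩ else u, ?_, ?_⟩
  · intro u hu
    show (if h : u ∈ A then f ⟨u, h⟩ else u) ∈ O u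
    rw [dif_pos hu]
    exact hf' ⟨u, hu⟩
  · intro u hu v hv huv
    have hu' : u ∈ A := hu
    have hv' : v ∈ A := hv
    have h5 : (if h : u ∈ A then f ⟨u, h⟩ else u) = (if h : v ∈ A then f ⟨v, h⟩ else v) := huv
    rw [dif_pos hu', dif_pos hv'] at h5
    exact congrArg Subtype.val (hf h5)

end Pool.TCM
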