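import Pool.Agent.Helper3.TCM.Defs

/-!
# Vizing's theorem

A simple graph of maximum degree at most `D` has a proper edge colouring with `D + 1` colours, in the
framework of `Pool/Agent/Helper83/TC` (with the trivial matching `m = id`).
-/

set_option autoImplicit false

namespace Pool.TCM

open Pool.TC
open Classical

private theorem Viz_pigeon {W κ : Type} [Fintype κ] [Fintype W] {H : SimpleGraph W} {E : EC κ W}
    {x y : W} (h : St H id E x y) {D : ℕ}
    (hD : ∀ u, (Finset.univ.filter (fun v => H.Adj u v)).card ≤ D)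
    (hκ : Fintype.card κ = D + 1) (hnd : ¬ Done κ H id) :
    ∃ b y1 y2, y1 ≠ y2 ∧ (∃ bs, Fan id E.N x y bs y1) ∧ (∃ bs, Fan id E.N x y bs y2) ∧
      E.N b y1 = y1 ∧ E.N b y2 = y2 := by
  have hm : ∀ u : W, id (id u) = u := fun _ => rfl
  by_contra hcon
  push Not at hcon
  set Y : Finset W := Finset.univ.filter (fun w => ∃ bs, Fan id E.N x y bs w) with hY
  have hYmem : ∀ w, w ∈ Y ↔ ∃ bs, Fan id E.N x y bs w := fun w => by simp [hY]
  have hy0 : y ∈ Y := (hYmem y).2 ⟨[], Fan.base⟩
  have h2 : ∀ b, (Y.filter (fun w => E.N b w = w)).card ≤ 1 := by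
    intro b
    rw [Finset.card_le_one]
    intro y1 m1 y2 m2
    by_contra hne
    simp only [Finset.mem_filter, hYmem] at m1 m2
    exact hcon b y1 y2 hne m1.1 m2.1 m1.2 m2.2
  set U : Finset κ := Finset.univ.filter (fun b => ∃ w ∈ Y, E.N b w = w) with hU
  have hUx : ∀ b ∈ U, E.N b x ≠ x := by
    intro b hb hbx
    simp only [hU, Finset.mem_filter, Finset.mem_univ, true_and] at hb
    obtain ⟨w, hw, hbw⟩ := hb
    obtain ⟨bs, hbs⟩ := (hYmem w).1 hw
    exact hnd (claimA hm h hbs hbx hbw)
  have hUcard : U.card ≤ (Y.erase y).card := by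
    refine Finset.card_le_card_of_injOn (fun b => E.N b x) ?_ ?_
    · intro b hb
      have hb' := hUx b hb
      simp only [hU, Finset.coe_filter, Finset.mem_univ, true_and, Set.mem_ofPred_eq] at hb
      obtain ⟨w, hw, hbw⟩ := hb
      obtain ⟨bs, hbs⟩ := (hYmem w).1 hw
      simp only [Finset.coe_erase, Set.mem_sdiff, Finset.mem_coe, Set.mem_singleton_iff]
      refine ⟨?_, h.unc b⟩
      rw [hYmem]
      by_cases hbb : b ∈ bs
      · obtain ⟨bs', z, hz, hz1, hz2, _, _⟩ := hbs.split hbb
        exact ⟨_, Fan.step hz hz2 hb' hb' hz1⟩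
      · exact ⟨_, Fan.step hbs hbw hb' hb' hbb⟩
    · intro a ha b _ hab
      exact E.uniq _ _ _ hab (hUx a ha)
  have hmiss : ∀ w, 1 ≤ (Finset.univ.filter (fun b => E.N b w = w)).card := by
    intro w
    have h4 : (Finset.univ.filter (fun b => ¬ E.N b w = w)).card ≤ D := by
      refine le_trans ?_ (hD w)
      refine Finset.card_le_card_of_injOn (fun b => E.N b w) ?_ ?_
      · intro b hb
        simp only [Finset.coe_filter, Finset.mem_univ, true_and, Set.mem_ofPred_eq] at hb ⊢
        exact h.sub b w hb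
      · intro a ha b _ hab
        simp only [Finset.coe_filter, Finset.mem_univ, true_and, Set.mem_ofPred_eq] at ha
        exact E.uniq _ _ _ hab ha
    have h5 := Finset.card_filter_add_card_filter_not (s := (Finset.univ : Finset κ))
      (fun b => E.N b w = w)
    rw [Finset.card_univ, hκ] at h5
    omega
  -- double counting
  have hdc : ∑ w ∈ Y, (Finset.univ.filter (fun b => E.N b w = w)).card =
      ∑ b : κ, (Y.filter (fun w => E.N b w = w)).card := by
    simp only [Finset.card_filter]
    exact Finset.sum_comm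
  have hup : ∑ b : κ, (Y.filter (fun w => E.N b w = w)).card ≤ U.card := by
    have : ∑ b : κ, (Y.filter (fun w => E.N b w = w)).card =
        ∑ b ∈ U, (Y.filter (fun w => E.N b w = w)).card := by
      symm
      apply Finset.sum_subset (Finset.subset_univ _)
      intro b _ hb
      rw [Finset.card_eq_zero, Finset.filter_eq_empty_iff]
      intro w hw hbw
      exact hb (by simp only [hU, Finset.mem_filter, Finset.mem_univ, true_and]; exact ⟨w, hw, hbw⟩)
    rw [this]
    calc _ ≤ ∑ b ∈ U, 1 := Finset.sum_le_sum (fun b _ => h2 b)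
      _ = U.card := by rw [Finset.sum_const, smul_eq_mul, mul_one]
  have hlow : Y.card ≤ ∑ w ∈ Y, (Finset.univ.filter (fun b => E.N b w = w)).card := by
    have h10 : Y.card * 1 ≤ ∑ w ∈ Y, (Finset.univ.filter (fun b => E.N b w = w)).card := by
      rw [← smul_eq_mul]
      exact Finset.card_nsmul_le_sum _ _ _ (fun w _ => hmiss w)
    rwa [mul_one] at h10
  have h11 := Finset.card_erase_add_one hy0
  omega

private theorem Viz_step {W κ : Type} [Fintype κ] [Fintype W] {H : SimpleGraph W} {E : EC κ W}
    {x y : W} (h : St H id E x y) {D : ℕ}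
    (hD : ∀ u, (Finset.univ.filter (fun v => H.Adj u v)).card ≤ D)
    (hκ : Fintype.card κ = D + 1) : Done κ H id := by
  have hm : ∀ u : W, id (id u) = u := fun _ => rfl
  by_contra hnd
  obtain ⟨f, hx⟩ : ∃ f, E.N f x = x := by
    by_contra hc
    push Not at hc
    have h4 : (Finset.univ : Finset κ).card ≤ D := by
      refine le_trans ?_ (hD x)
      refine Finset.card_le_card_of_injOn (fun b => E.N b x) ?_ ?_
      · intro b _
        simp only [Finset.coe_filter, Finset.mem_univ, true_and, Set.mem_ofPred_eq]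
        exact h.sub b x (hc b)
      · intro a _ b _ hab
        exact E.uniq _ _ _ hab (hc a)
    rw [Finset.card_univ, hκ] at h4
    omega
  have hf : Fr id E f := fun _ _ => rfl
  obtain ⟨b, y1, y2, n12, ⟨bs1, F1⟩, ⟨bs2, F2⟩, b1, b2⟩ := Viz_pigeon h hD hκ hnd
  have h1x : y1 ≠ x := F1.ne h
  have h2x : y2 ≠ x := F2.ne h
  -- one of the two is not in the orbit of `x`
  obtain ⟨u0, bs0, F0, b0, hu0⟩ : ∃ u0 bs0, Fan id E.N x y bs0 u0 ∧ E.N b u0 = u0 ∧
      ¬ Reach (E.N f) (E.N b) x u0 := by
    by_cases r1 : Reach (E.N f) (E.N b) x y1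
    · by_cases r2 : Reach (E.N f) (E.N b) x y2
      · exact (three_fixed (E.inv f) (E.inv b) (Or.inl hx) (Or.inr b1) (Or.inr b2) r1 r2
          h1x.symm h2x.symm n12).elim
      · exact ⟨y2, bs2, F2, b2, r2⟩
    · exact ⟨y1, bs1, F1, b1, r1⟩
  set K : Set W := orb (E.N f) (E.N b) u0 with hK
  have hxK : x ∉ K := fun hxK => hu0 (Reach.symm (E.inv f) (E.inv b) hxK)
  have ha := orb_left (E.N f) (E.N b) u0
  have hb := orb_right (E.N f) (E.N b) u0
  have hst := h.kempe hf ha hb
  set E' := E.kempe f b K ha hb with hE'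
  have hEx : ∀ c, E'.N c x = E.N c x := fun c => kempe_apply_not_mem E ha hb hxK c
  have htr : Fan id E'.N x y bs0 u0 ∨ ∃ bs' u', Fan id E'.N x y bs' u' ∧ E'.N f u' = u' := by
    refine Fan.transfer (E := E) (fun _ => True) ?_ F0 (fun _ _ => trivial)
    intro bs z c _ _ hcz hcx
    by_cases hz : z ∈ K
    · by_cases hcf : c = f
      · subst hcf; exact absurd hx hcx
      by_cases hcb : c = b
      · subst hcb
        right
        rw [hE', kempe_apply_mem E ha hb hz, Equiv.swap_apply_left, hcz]
      · left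
        refine ⟨?_, hEx c⟩
        rw [hE', kempe_apply_mem E ha hb hz, Equiv.swap_apply_of_ne_of_ne hcf hcb, hcz]
    · left
      exact ⟨by rw [hE', kempe_apply_not_mem E ha hb hz, hcz], hEx c⟩
  rcases htr with F | ⟨bs', u', F, hu'⟩
  · refine hnd (claimA hm hst F (a := f) (by rw [hEx, hx]) ?_)
    rw [hE', kempe_apply_mem E ha hb (orb_self _ _ _), Equiv.swap_apply_left, b0]
  · exact hnd (claimA hm hst F (a := f) (by rw [hEx, hx]) hu')

theorem thm_Viz : St_Viz := by
  intro V κ _ _ G D hD hκ
  have hm : ∀ u : V, id (id u) = u := fun _ => rfl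
  have key : ∀ T : Finset (Sym2 V), (∀ e ∈ T, e ∈ G.edgeSet) →
      ∃ E : EC κ V, Good (TG id T hm) id E := by
    intro T
    induction T using Finset.induction_on with
    | empty =>
      intro _
      refine ⟨⟨fun _ u => u, fun _ _ => rfl, fun a b u _ h2 => absurd rfl h2⟩, ?_, ?_, ?_⟩
      · rintro u v ⟨h1, h2 | h2⟩
        · exact absurd h2 (Finset.notMem_empty _)
        · exact absurd h2 h1
      · intro a u h
        exact absurd rfl h
      · intro a u v _ h2 _ _
        exact absurd rfl h2
    | insert e T heT ih =>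
      intro hT
      obtain ⟨E, hE⟩ := ih (fun e' he' => hT e' (Finset.mem_insert_of_mem he'))
      have heH := hT e (Finset.mem_insert_self _ _)
      induction e with | _ x y
      rw [SimpleGraph.mem_edgeSet] at heH
      have hxy : ¬ (TG id T hm).Adj x y := by
        rintro ⟨h1, h2 | h2⟩
        · exact heT h2
        · exact h1 h2
      have hmono : ∀ u v, (TG id T hm).Adj u v → (TG id (insert s(x, y) T) hm).Adj u v := by
        rintro u v ⟨h1, h2 | h2⟩
        · exact ⟨h1, Or.inl (Finset.mem_insert_of_mem h2)⟩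
        · exact ⟨h1, Or.inr h2⟩
      have hst : St (TG id (insert s(x, y) T) hm) id E x y := by
        refine ⟨⟨heH.ne, Or.inl (Finset.mem_insert_self _ _)⟩, ?_, ?_, ?_, ?_, hE.rb⟩
        · exact heH.ne
        · intro a h
          have := hE.sub a x (by rw [h]; exact heH.ne.symm)
          rw [h] at this
          exact hxy this
        · rintro u v ⟨h1, h2 | h2⟩
          · rcases Finset.mem_insert.1 h2 with h3 | h3
            · rw [Sym2.eq_iff] at h3
              exact Or.inr h3
            · exact Or.inl (hE.cov u v ⟨h1, Or.inl h3⟩)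
          · exact absurd h2 h1
        · exact fun a u h => hmono _ _ (hE.sub a u h)
      refine Viz_step hst (D := D) ?_ hκ
      intro u
      refine le_trans (Finset.card_le_card ?_) (hD u)
      intro v hv
      simp only [nb, Finset.mem_filter, Finset.mem_univ, true_and] at hv ⊢
      obtain ⟨h1, h2 | h2⟩ := hv
      · exact hT _ h2
      · exact absurd h2 h1
  obtain ⟨E, hE⟩ := key G.edgeFinset (fun e he => SimpleGraph.mem_edgeFinset.1 he)
  refine ⟨E, fun u v h => hE.cov u v ⟨h.ne, Or.inl (SimpleGraph.mem_edgeFinset.2 h)⟩, ?_⟩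
  intro a u h
  obtain ⟨h1, h2 | h2⟩ := hE.sub a u h
  · exact SimpleGraph.mem_edgeFinset.1 h2
  · exact absurd h2 h1

end Pool.TCM
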